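import Mathlib

/-!
# A criterion of regularity
-/

set_option autoImplicit false

universe u

namespace Pool.Agent.Helper7.LU

open IsLocalRing

/-- A local noetherian ring whose maximal ideal is generated, modulo its square, by at most as many elements as
the dimension is regular. -/
theorem regular_of_span {Λ : Type u} [CommRing Λ] [IsLocalRing Λ] [IsNoetherianRing Λ] (s : Set Λ)
    (hs : s.Finite) (hgen : maximalIdeal Λ ≤ Ideal.span s ⊔ maximalIdeal Λ ^ 2)
    (hsm : s ⊆ maximalIdeal Λ) (k : ℕ) (hk : s.ncard ≤ k)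
    (hd : ((k : ℕ∞) : WithBot ℕ∞) ≤ ringKrullDim Λ) :
    IsRegularLocalRing Λ ∧ (maximalIdeal Λ).spanFinrank ≤ k ∧ ∀ x ∈ s, x ∉ maximalIdeal Λ ^ 2 := by
  have hfg : (maximalIdeal Λ).FG := (maximalIdeal Λ).fg_of_isNoetherianRing
  have key : ∀ t : Set Λ, t ⊆ maximalIdeal Λ → maximalIdeal Λ ≤ Ideal.span t ⊔ maximalIdeal Λ ^ 2 →
      maximalIdeal Λ = Ideal.span t := by
    intro t ht h1
    apply le_antisymm
    · refine Submodule.le_of_le_smul_of_le_jacobson_bot hfg (maximalIdeal_le_jacobson ⊥) ?_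
      rw [smul_eq_mul, ← pow_two]
      exact h1
    · exact Ideal.span_le.mpr ht
  have h1 := key s hsm hgen
  have h2 : (maximalIdeal Λ).spanFinrank ≤ k := by
    rw [h1]
    exact (Submodule.spanFinrank_span_le_ncard_of_finite hs).trans hk
  have hreg : IsRegularLocalRing Λ := by
    apply IsRegularLocalRing.of_spanFinrank_maximalIdeal_le
    refine le_trans ?_ hd
    exact_mod_cast h2
  refine ⟨hreg, h2, ?_⟩
  intro x hx hx2
  have h3 : maximalIdeal Λ = Ideal.span (s \ {x}) := by
    apply key _ (Set.sdiff_subset.trans hsm)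
    refine hgen.trans (sup_le ?_ le_sup_right)
    rw [Ideal.span_le]
    intro y hy
    by_cases hyx : y = x
    · rw [hyx]
      exact Ideal.mem_sup_right hx2
    · exact Ideal.mem_sup_left (Ideal.subset_span ⟨hy, hyx⟩)
  have h4 : (maximalIdeal Λ).spanFinrank ≤ (s \ {x}).ncard := by
    rw [h3]
    exact Submodule.spanFinrank_span_le_ncard_of_finite hs.sdiff
  have h5 : (s \ {x}).ncard < s.ncard := Set.ncard_sdiff_singleton_lt_of_mem hx hs
  have h6 := IsRegularLocalRing.spanFinrank_maximalIdeal (R := Λ)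
  rw [← h6] at hd
  have h7 : k ≤ (maximalIdeal Λ).spanFinrank := by exact_mod_cast hd
  omega

/-- The same for the localization at a prime ideal. -/
theorem regular_of_height {B : Type u} [CommRing B] [IsNoetherianRing B] (p : Ideal B) [p.IsPrime] (s : Set B)
    (hs : s.Finite) (hgen : p ≤ Ideal.span s ⊔ p ^ 2) (hsm : s ⊆ p) (k : ℕ) (hk : s.ncard ≤ k)
    (hd : (k : ℕ∞) ≤ p.height) :
    IsRegularLocalRing (Localization.AtPrime p) ∧ p.height = k ∧
      ∀ x ∈ s, algebraMap B (Localization.AtPrime p) x ∉ maximalIdeal (Localization.AtPrime p) ^ 2 := by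
  have hmax : p.map (algebraMap B (Localization.AtPrime p)) = maximalIdeal (Localization.AtPrime p) :=
    Localization.AtPrime.map_eq_maximalIdeal
  have h1 := regular_of_span (algebraMap B (Localization.AtPrime p) '' s) (hs.image _) (by
      rw [← hmax, ← Ideal.map_span, ← Ideal.map_pow, ← Ideal.map_sup]
      exact Ideal.map_mono hgen) (by
      rintro _ ⟨x, hx, rfl⟩
      rw [← hmax]
      exact Ideal.mem_map_of_mem _ (hsm hx)) k ((Set.ncard_image_le hs).trans hk) (by
      rw [IsLocalization.AtPrime.ringKrullDim_eq_height p]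
      exact_mod_cast hd)
  refine ⟨h1.1, le_antisymm ?_ hd, fun x hx => h1.2.2 _ ⟨x, hx, rfl⟩⟩
  have hreg := h1.1
  have h2 := IsLocalization.AtPrime.ringKrullDim_eq_height p (Localization.AtPrime p)
  rw [← IsRegularLocalRing.spanFinrank_maximalIdeal] at h2
  have h3 : p.height = ((maximalIdeal (Localization.AtPrime p)).spanFinrank : ℕ∞) := by
    exact_mod_cast h2.symm
  rw [h3]
  exact_mod_cast h1.2.1

end Pool.Agent.Helper7.LU
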