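import Pool.Agent.Helper7.LU.Noeth

/-!
# The completion of a discrete valuation ring
-/

set_option autoImplicit false
set_option linter.unusedSectionVars false

open IsLocalRing

universe u

namespace Pool.Agent.Helper7.LU

section

variable {A : Type u} [CommRing A] (I : Ideal A)

/-- Divisibility by powers in the completion. -/
theorem mem_map_pow_iff (hI : I.FG) (n : ℕ) (x : AdicCompletion I A) :
    x ∈ (I ^ n).map (algebraMap A (AdicCompletion I A)) ↔ AdicCompletion.evalₐ I n x = 0 := by
  have h1 : x ∈ (I ^ n).map (algebraMap A (AdicCompletion I A)) ↔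
      x ∈ (I ^ n • ⊤ : Submodule A (AdicCompletion I A)) := by
    rw [Ideal.smul_top_eq_map, Submodule.restrictScalars_mem]
  rw [h1, AdicCompletion.pow_smul_top_eq_ker_eval hI, LinearMap.mem_ker]
  have h2 : ∀ z : A ⧸ (I ^ n • ⊤ : Ideal A), Ideal.Quotient.factor (by simp : I ^ n • ⊤ ≤ I ^ n) z = 0 → z = 0 := by
    intro z hz
    obtain ⟨a, rfl⟩ := Ideal.Quotient.mk_surjective z
    rw [Ideal.Quotient.factor_mk, Ideal.Quotient.eq_zero_iff_mem] at hz
    rw [Ideal.Quotient.eq_zero_iff_mem]
    simpa using hz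
  have h3 := AdicCompletion.factor_eval_eq_evalₐ (I := I) (n := n) x (by simp)
  constructor
  · intro h
    rw [← h3, h]
    exact map_zero _
  · intro h
    rw [← h3] at h
    exact h2 _ h

theorem approx_completion (n : ℕ) (hI : I.FG) (x : AdicCompletion I A) :
    ∃ a : A, x - algebraMap A (AdicCompletion I A) a ∈ (I ^ n).map (algebraMap A (AdicCompletion I A)) := by
  obtain ⟨a, ha⟩ := Ideal.Quotient.mk_surjective (AdicCompletion.evalₐ I n x)
  refine ⟨a, ?_⟩
  rw [mem_map_pow_iff I hI, map_sub, sub_eq_zero, ← ha]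
  exact (AdicCompletion.evalₐ_of I n a).symm

end

section

variable (V : Type u) [CommRing V] [IsDomain V] [IsDiscreteValuationRing V]

/-- The completion of a discrete valuation ring. -/
abbrev Cpl : Type u := AdicCompletion (maximalIdeal V) V

variable {V} {t : V}

theorem max_eq (ht : Irreducible t) : maximalIdeal V = Ideal.span {t} := ht.maximalIdeal_eq

theorem dvd_iff_eval (ht : Irreducible t) (n : ℕ) (x : Cpl V) :
    algebraMap V (Cpl V) t ^ n ∣ x ↔ AdicCompletion.evalₐ (maximalIdeal V) n x = 0 := by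
  rw [← mem_map_pow_iff _ (maximalIdeal V).fg_of_isNoetherianRing]
  have h1 : maximalIdeal V ^ n = Ideal.span {t ^ n} := by
    rw [max_eq ht, Ideal.span_singleton_pow]
  rw [h1, Ideal.map_span, Set.image_singleton, Ideal.mem_span_singleton, map_pow]

theorem dvd_of_dvd (ht : Irreducible t) (n : ℕ) (v : V) (h : algebraMap V (Cpl V) t ^ n ∣ algebraMap V (Cpl V) v) :
    t ^ n ∣ v := by
  rw [dvd_iff_eval ht] at h
  have h1 : AdicCompletion.evalₐ (maximalIdeal V) n (algebraMap V (Cpl V) v) =
      Ideal.Quotient.mk (maximalIdeal V ^ n) v := AdicCompletion.evalₐ_of _ n v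
  rw [h1, Ideal.Quotient.eq_zero_iff_mem, max_eq ht, Ideal.span_singleton_pow, Ideal.mem_span_singleton] at h
  exact h

theorem inj_completion (ht : Irreducible t) : Function.Injective (algebraMap V (Cpl V)) := by
  rw [injective_iff_map_eq_zero]
  intro v hv
  by_contra h0
  obtain ⟨n, hn⟩ := IsDiscreteValuationRing.associated_pow_irreducible h0 ht
  have h1 : t ^ (n + 1) ∣ v := by
    apply dvd_of_dvd ht
    rw [hv]
    exact dvd_zero _
  have h2 := h1.trans hn.dvd
  have h3 := (pow_dvd_pow_iff ht.ne_zero ht.not_isUnit).mp h2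
  omega

instance : IsNoetherianRing (Cpl V) := isNoetherianRing_adicCompletion _

theorem max_completion (ht : Irreducible t) : maximalIdeal (Cpl V) = Ideal.span {algebraMap V (Cpl V) t} := by
  rw [AdicCompletion.maximalIdeal_eq_map]
  have h1 : (maximalIdeal V).map (algebraMap V (Cpl V)) = (Ideal.span {t}).map (algebraMap V (Cpl V)) :=
    congrArg _ (max_eq ht)
  rw [h1, Ideal.map_span, Set.image_singleton]

theorem exists_unit_mul (ht : Irreducible t) (x : Cpl V) (hx : x ≠ 0) :
    ∃ (n : ℕ) (u : Cpl V), IsUnit u ∧ x = algebraMap V (Cpl V) t ^ n * u := by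
  have h1 : ∃ n, ¬ algebraMap V (Cpl V) t ^ n ∣ x := by
    by_contra h
    push Not at h
    apply hx
    apply AdicCompletion.ext_evalₐ
    intro n
    rw [map_zero, ← dvd_iff_eval ht]
    exact h n
  classical
  have h2 := Nat.find_spec h1
  have h3 : Nat.find h1 ≠ 0 := by
    intro h0
    rw [h0] at h2
    simp at h2
  obtain ⟨m, hm⟩ := Nat.exists_eq_succ_of_ne_zero h3
  have h4 : algebraMap V (Cpl V) t ^ m ∣ x := by
    have := Nat.find_min h1 (m := m) (by omega)
    push Not at this
    exact this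
  obtain ⟨u, hu⟩ := h4
  refine ⟨m, u, ?_, hu⟩
  by_contra hnu
  have h5 : u ∈ maximalIdeal (Cpl V) := hnu
  rw [max_completion ht, Ideal.mem_span_singleton] at h5
  obtain ⟨w, hw⟩ := h5
  apply h2
  rw [hm]
  refine ⟨w, ?_⟩
  rw [hu, hw, pow_succ]
  ring

theorem pow_ne_zero' (ht : Irreducible t) (n : ℕ) : algebraMap V (Cpl V) t ^ n ≠ 0 := by
  rw [← map_pow]
  intro h
  exact pow_ne_zero n ht.ne_zero ((injective_iff_map_eq_zero _).mp (inj_completion ht) _ h)

instance instDomain : IsDomain (Cpl V) := by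
  obtain ⟨t, ht⟩ := IsDiscreteValuationRing.exists_irreducible V
  have : NoZeroDivisors (Cpl V) := by
    constructor
    intro x y hxy
    by_contra h
    push Not at h
    obtain ⟨n, u, hu, rfl⟩ := exists_unit_mul ht x h.1
    obtain ⟨m, w, hw, rfl⟩ := exists_unit_mul ht y h.2
    have h1 : algebraMap V (Cpl V) t ^ (n + m) * (u * w) = 0 := by
      rw [← hxy, pow_add]
      ring
    exact pow_ne_zero' ht _ ((hu.mul hw).mul_left_eq_zero.mp h1)
  exact NoZeroDivisors.to_isDomain _

instance instPID : IsPrincipalIdealRing (Cpl V) := by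
  obtain ⟨t, ht⟩ := IsDiscreteValuationRing.exists_irreducible V
  have h := (tfae_of_isNoetherianRing_of_isLocalRing_of_isDomain (Cpl V)).out 0 4
  rw [h, max_completion ht]
  exact ⟨_, rfl⟩

theorem prime_completion (ht : Irreducible t) : Prime (algebraMap V (Cpl V) t) := by
  have h1 := pow_ne_zero' ht 1
  rw [pow_one] at h1
  rw [← Ideal.span_singleton_prime h1, ← max_completion ht]
  infer_instance

end

end Pool.Agent.Helper7.LU
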