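import Mathlib

/-!
# The completion of a noetherian ring is noetherian
-/

set_option autoImplicit false

universe u

namespace Pool.Agent.Helper7.LU

open MvPowerSeries

/-- If `S` is complete for the finitely generated ideal `J` and `R → S / J` is surjective then `S` is a
quotient of a ring of formal power series over `R`. -/
theorem exists_surj {R S : Type u} [CommRing R] [CommRing S] [Algebra R S] (J : Ideal S)
    [IsAdicComplete J S] (hJ : J.FG)
    (hs : Function.Surjective ((Ideal.Quotient.mk J).comp (algebraMap R S))) :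
    ∃ (n : ℕ) (f : MvPowerSeries (Fin n) R →+* S), Function.Surjective f := by
  obtain ⟨n, x, hx⟩ := Submodule.fg_iff_exists_fin_generating_family.mp hJ
  refine ⟨n, ?_⟩
  -- the polynomial map
  let p : MvPolynomial (Fin n) R →+* S := (MvPolynomial.aeval x : _ →ₐ[R] S).toRingHom
  have hp : Ideal.map p (MvPolynomial.idealOfVars (Fin n) R) = J := by
    rw [MvPolynomial.idealOfVars, Ideal.map_span, ← hx]
    congr 1
    ext y
    simp [p]
  have hpn : ∀ k : ℕ, (MvPolynomial.idealOfVars (Fin n) R) ^ k ≤ (J ^ k).comap p := by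
    intro k
    rw [← Ideal.map_le_iff_le_comap, Ideal.map_pow, hp]
  let q : ∀ k : ℕ, MvPowerSeries (Fin n) R →+* S ⧸ J ^ k := fun k =>
    (Ideal.quotientMap (J ^ k) p (hpn k)).comp (truncTotalAlgHom (Fin n) R k).toRingHom
  have hqv : ∀ k F, q k F = Ideal.Quotient.mk (J ^ k) (p (truncTotal k F)) := by
    intro k F
    rfl
  have hq : ∀ {m k : ℕ} (hmk : m ≤ k),
      (Ideal.Quotient.factor (Ideal.pow_le_pow_right hmk)).comp (q k) = q m := by
    intro m k hmk
    ext F
    rw [RingHom.comp_apply, hqv, hqv, Ideal.Quotient.factor_mk, Ideal.Quotient.mk_eq_mk_iff_sub_mem,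
      ← map_sub]
    exact hpn m (truncTotal_sub_truncTotal_mem_pow_idealOfVars hmk le_rfl F)
  let f : MvPowerSeries (Fin n) R →+* S := IsAdicComplete.liftRingHom J q hq
  have hfq : ∀ k F, Ideal.Quotient.mk (J ^ k) (f F) = q k F := fun k F =>
    IsAdicComplete.mk_liftRingHom J q hq k F
  have hfX : ∀ i, f (X i) = x i := by
    intro i
    rw [← sub_eq_zero]
    refine (IsHausdorff.haus (I := J) inferInstance) _ fun k => ?_
    rw [smul_eq_mul, Ideal.mul_top, SModEq.zero, ← Ideal.Quotient.eq_zero_iff_mem, map_sub, hfq, hqv]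
    rw [sub_eq_zero, Ideal.Quotient.mk_eq_mk_iff_sub_mem]
    have : x i = p (MvPolynomial.X i) := by simp [p]
    rw [this, ← map_sub]
    refine hpn k ?_
    rw [MvPolynomial.mem_pow_idealOfVars_iff']
    intro y hy
    rw [MvPolynomial.coeff_sub, coeff_truncTotal _ hy, sub_eq_zero, ← MvPolynomial.coe_X,
      MvPolynomial.coeff_coe]
  have hfC : ∀ r, f (C r) = algebraMap R S r := by
    intro r
    rw [← sub_eq_zero]
    refine (IsHausdorff.haus (I := J) inferInstance) _ fun k => ?_
    rw [smul_eq_mul, Ideal.mul_top, SModEq.zero, ← Ideal.Quotient.eq_zero_iff_mem, map_sub, hfq, hqv]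
    rw [sub_eq_zero, Ideal.Quotient.mk_eq_mk_iff_sub_mem]
    have : algebraMap R S r = p (MvPolynomial.C r) := by simp [p]
    rw [this, ← map_sub]
    refine hpn k ?_
    rw [MvPolynomial.mem_pow_idealOfVars_iff']
    intro y hy
    rw [MvPolynomial.coeff_sub, coeff_truncTotal _ hy, sub_eq_zero, ← MvPolynomial.coe_C,
      MvPolynomial.coeff_coe]
  have hmap : Ideal.map f (Ideal.span (Set.range X) : Ideal (MvPowerSeries (Fin n) R)) = J := by
    rw [Ideal.map_span, ← hx, ← Set.range_comp]
    congr 2
    ext i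
    exact hfX i
  refine ⟨f, ?_⟩
  have : IsHausdorff (Ideal.map f (Ideal.span (Set.range X) : Ideal (MvPowerSeries (Fin n) R))) S := by
    rw [hmap]
    infer_instance
  refine surjective_of_mk_map_comp_surjective f
    (I := (Ideal.span (Set.range X) : Ideal (MvPowerSeries (Fin n) R))) ?_
  rw [hmap]
  intro y
  obtain ⟨r, hr⟩ := hs y
  exact ⟨C r, by rw [RingHom.comp_apply, hfC]; exact hr⟩

/-- The completion of a noetherian ring is noetherian. -/
theorem isNoetherianRing_adicCompletion {R : Type u} [CommRing R] [IsNoetherianRing R] (I : Ideal R) :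
    IsNoetherianRing (AdicCompletion I R) := by
  have hI : I.FG := (isNoetherianRing_iff_ideal_fg R).mp inferInstance I
  have := AdicCompletion.isAdicComplete_self I hI
  obtain ⟨n, f, hf⟩ := exists_surj (R := R) (I.map (algebraMap R (AdicCompletion I R))) (hI.map _)
    (by
      intro y
      obtain ⟨z, rfl⟩ := Ideal.Quotient.mk_surjective y
      obtain ⟨r, hr⟩ := Ideal.Quotient.mk_surjective (AdicCompletion.evalOneₐ I z)
      refine ⟨r, ?_⟩
      rw [RingHom.comp_apply, Ideal.Quotient.mk_eq_mk_iff_sub_mem, ← AdicCompletion.ker_evalOneₐ_eq_map I hI]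
      rw [RingHom.mem_ker, map_sub, sub_eq_zero]
      exact (AdicCompletion.evalOneₐ_of I r).trans hr)
  exact isNoetherianRing_of_surjective _ _ f hf

end Pool.Agent.Helper7.LU
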