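import Mathlib

/-!
# A noetherian local ring, its completion, a discrete valuation ring and its completion
-/

set_option autoImplicit false

open scoped TensorProduct
open IsLocalRing

universe u

namespace Pool.Agent.Helper7.LU

/-- The relations of a noetherian local ring `R`, its completion `S`, a valuation ring `V` that dominates `R`
with the uniformizing element `t` and its completion `W`. -/
structure IsData (R V S W : Type u) [CommRing R] [IsLocalRing R] [CommRing V] [CommRing S] [CommRing W]
    [Algebra R V] [Algebra R S] [Algebra V W] (t : V) : Prop where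
  approx : ∀ (n : ℕ) (s : S), ∃ r : R, s - algebraMap R S r ∈ (maximalIdeal R ^ n).map (algebraMap R S)
  proj : ∀ n : ℕ, Nonempty (S →ₐ[R] R ⧸ maximalIdeal R ^ n)
  inj : Function.Injective (algebraMap V W)
  div : ∀ (n : ℕ) (v : V), algebraMap V W t ^ n ∣ algebraMap V W v → t ^ n ∣ v
  dom : ∀ r ∈ maximalIdeal R, t ∣ algebraMap R V r
  unif : ∀ w : W, w ≠ 0 → ∃ n : ℕ, w ∣ algebraMap V W t ^ n

theorem map_algHom {R X Y : Type u} [CommRing R] [CommRing X] [CommRing Y] [Algebra R X] [Algebra R Y]
    (f : X →ₐ[R] Y) (I : Ideal R) : (I.map (algebraMap R X)).map f = I.map (algebraMap R Y) := by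
  change (I.map (algebraMap R X)).map (f : X →+* Y) = _
  rw [Ideal.map_map]
  congr 1
  exact f.comp_algebraMap

set_option linter.unusedSectionVars false

section

variable {R V S W : Type u} [CommRing R] [CommRing V] [CommRing S] [CommRing W]
  [Algebra R V] [Algebra R S] [Algebra V W] [Algebra R W] [Algebra S W] [IsScalarTower R S W]
  [IsScalarTower R V W]

/-- The homomorphism from `S ⊗ A` to `W`. -/
noncomputable def psi (S W : Type u) [CommRing S] [CommRing W] [Algebra R S] [Algebra V W] [Algebra R W]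
    [Algebra S W] [IsScalarTower R S W] [IsScalarTower R V W] (A : Subalgebra R V) : S ⊗[R] A →ₐ[R] W :=
  Algebra.TensorProduct.productMap (IsScalarTower.toAlgHom R S W)
    ((IsScalarTower.toAlgHom R V W).comp A.val)

@[simp]
theorem psi_tmul (A : Subalgebra R V) (s : S) (a : A) :
    psi S W A (s ⊗ₜ a) = algebraMap S W s * algebraMap V W (a : V) := by
  simp [psi]

/-- The inclusion of `A` in `S ⊗ A`. -/
noncomputable abbrev inc (S : Type u) [CommRing S] [Algebra R S] (A : Subalgebra R V) :
    A →ₐ[R] S ⊗[R] A := Algebra.TensorProduct.includeRight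

theorem psi_inc (A : Subalgebra R V) (a : A) : psi S W A (inc S A a) = algebraMap V W (a : V) := by
  simp [inc]

/-- The ideal of the elements of `A` of value at least `n`. -/
def ideal (A : Subalgebra R V) (t : V) (n : ℕ) : Ideal A :=
  (Ideal.span {t ^ n}).comap (algebraMap A V)

theorem mem_ideal {A : Subalgebra R V} {t : V} {n : ℕ} {a : A} :
    a ∈ ideal A t n ↔ t ^ n ∣ (a : V) := by
  rw [ideal, Ideal.mem_comap, Ideal.mem_span_singleton]
  rfl

variable [IsLocalRing R] {t : V}

theorem IsData.dom_pow (h : IsData R V S W t) (n : ℕ) (r : R) (hr : r ∈ maximalIdeal R ^ n) :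
    t ^ n ∣ algebraMap R V r := by
  have : (maximalIdeal R).map (algebraMap R V) ≤ Ideal.span {t} := by
    rw [Ideal.map_le_iff_le_comap]
    intro x hx
    rw [Ideal.mem_comap, Ideal.mem_span_singleton]
    exact h.dom x hx
  have h2 := Ideal.pow_right_mono this n
  rw [← Ideal.map_pow, Ideal.span_singleton_pow] at h2
  exact Ideal.mem_span_singleton.mp (h2 (Ideal.mem_map_of_mem _ hr))

/-- Elements of `S ⊗ A` are close to elements of `A`. -/
theorem IsData.approx_tensor (h : IsData R V S W t) (A : Subalgebra R V) (n : ℕ) (b : S ⊗[R] A) :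
    ∃ a : A, b - inc S A a ∈ (maximalIdeal R ^ n).map (algebraMap R (S ⊗[R] A)) := by
  induction b with
  | zero => exact ⟨0, by simp⟩
  | add x y hx hy =>
    obtain ⟨a, ha⟩ := hx
    obtain ⟨b, hb⟩ := hy
    refine ⟨a + b, ?_⟩
    rw [map_add, add_sub_add_comm]
    exact Ideal.add_mem _ ha hb
  | tmul s a =>
    obtain ⟨r, hr⟩ := h.approx n s
    refine ⟨r • a, ?_⟩
    have h1 : s ⊗ₜ[R] a - inc S A (r • a) = ((s - algebraMap R S r) ⊗ₜ[R] (1 : A)) * (1 ⊗ₜ[R] a) := by
      rw [Algebra.TensorProduct.tmul_mul_tmul, mul_one, one_mul, TensorProduct.sub_tmul]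
      congr 1
      simp only [inc, Algebra.TensorProduct.includeRight_apply, Algebra.algebraMap_eq_smul_one]
      rw [TensorProduct.smul_tmul]
    rw [h1]
    refine Ideal.mul_mem_right _ _ ?_
    have h2 : ((maximalIdeal R ^ n).map (algebraMap R S)).map
        (Algebra.TensorProduct.includeLeft : S →ₐ[R] S ⊗[R] A) =
        (maximalIdeal R ^ n).map (algebraMap R (S ⊗[R] A)) := map_algHom _ _
    rw [← h2]
    exact Ideal.mem_map_of_mem (Algebra.TensorProduct.includeLeft : S →ₐ[R] S ⊗[R] A) hr

/-- Ideals that contain a power of the maximal ideal of `R` are extended to `S ⊗ A` and contracted to the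
same ideal. -/
theorem IsData.contract (h : IsData R V S W t) (A : Subalgebra R V) (n : ℕ) (I : Ideal A)
    (hI : (maximalIdeal R ^ n).map (algebraMap R A) ≤ I) (a : A)
    (ha : inc S A a ∈ I.map (inc S A)) : a ∈ I := by
  obtain ⟨σ⟩ := h.proj n
  let σ' : S →ₐ[R] A ⧸ I := (Ideal.Quotient.liftₐ (maximalIdeal R ^ n) (Algebra.ofId R (A ⧸ I)) (by
    intro r hr
    rw [Algebra.ofId_apply]
    exact Ideal.Quotient.eq_zero_iff_mem.mpr (hI (Ideal.mem_map_of_mem _ hr)))).comp σ
  let χ : S ⊗[R] A →ₐ[R] A ⧸ I := Algebra.TensorProduct.productMap σ' (Ideal.Quotient.mkₐ R I)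
  have h1 : ∀ x : A, χ (inc S A x) = Ideal.Quotient.mk I x := by
    intro x
    simp [χ, inc]
  have h2 : I.map (inc S A) ≤ RingHom.ker χ := by
    rw [Ideal.map_le_iff_le_comap]
    intro x hx
    rw [Ideal.mem_comap, RingHom.mem_ker, h1]
    exact Ideal.Quotient.eq_zero_iff_mem.mpr hx
  have h3 := h2 ha
  rw [RingHom.mem_ker, h1] at h3
  exact Ideal.Quotient.eq_zero_iff_mem.mp h3

/-- The kernel of `S ⊗ A → W` is generated by small elements of `A`. -/
theorem IsData.ker_le (h : IsData R V S W t) (A : Subalgebra R V) (n : ℕ) :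
    RingHom.ker (psi S W A) ≤ (ideal A t n).map (inc S A) := by
  intro b hb
  rw [RingHom.mem_ker] at hb
  obtain ⟨a, ha⟩ := h.approx_tensor A n b
  -- the powers of the maximal ideal are in the ideal of `A`
  have h1 : (maximalIdeal R ^ n).map (algebraMap R (S ⊗[R] A)) ≤ (ideal A t n).map (inc S A) := by
    have h2 : ((maximalIdeal R ^ n).map (algebraMap R A)).map (inc S A) =
        (maximalIdeal R ^ n).map (algebraMap R (S ⊗[R] A)) := map_algHom _ _
    rw [← h2]
    refine Ideal.map_mono ?_
    rw [Ideal.map_le_iff_le_comap]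
    intro r hr
    rw [Ideal.mem_comap, mem_ideal]
    exact h.dom_pow n r hr
  have h2 : (maximalIdeal R ^ n).map (algebraMap R (S ⊗[R] A)) ≤
      (Ideal.span {algebraMap V W t ^ n}).comap (psi S W A) := by
    rw [Ideal.map_le_iff_le_comap]
    intro r hr
    rw [Ideal.mem_comap, Ideal.mem_comap, AlgHom.commutes, Ideal.mem_span_singleton,
      IsScalarTower.algebraMap_apply R V W, ← map_pow]
    exact map_dvd _ (h.dom_pow n r hr)
  have h3 := h2 ha
  rw [Ideal.mem_comap, map_sub, hb, psi_inc, zero_sub, Ideal.mem_span_singleton, dvd_neg] at h3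
  have h4 : a ∈ ideal A t n := mem_ideal.mpr (h.div n _ h3)
  have h5 : b = (b - inc S A a) + inc S A a := by ring
  rw [h5]
  exact Ideal.add_mem _ (h1 ha) (Ideal.mem_map_of_mem _ h4)

end

end Pool.Agent.Helper7.LU
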