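import Pool.Agent.Helper7.LU.Base

/-!
# Blowing up the ideal of a discrete valuation ring
-/

set_option autoImplicit false
set_option linter.unusedSectionVars false

open IsLocalRing

universe u

namespace Pool.Agent.Helper7.LU

variable {R V : Type u} [CommRing R] [CommRing V] [IsDomain V] [Algebra R V] {t : V}

/-- The elements that are adjoined. -/
def adj (A : Subalgebra R V) (t : V) (e n : ℕ) : Set V := {v | t ^ e * v ∈ A ∧ t ^ (n - e) ∣ v}

/-- The subalgebra generated by `A` and the elements `a / t ^ e`, `a` of value at least `n`. -/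
def blow (A : Subalgebra R V) (t : V) (e n : ℕ) : Subalgebra R V :=
  Algebra.adjoin R ((A : Set V) ∪ adj A t e n)

theorem le_blow (A : Subalgebra R V) (t : V) (e n : ℕ) : A ≤ blow A t e n :=
  fun _ hx => Algebra.subset_adjoin (Or.inl hx)

theorem adj_subset (A : Subalgebra R V) (t : V) (e n : ℕ) : adj A t e n ⊆ blow A t e n :=
  fun _ hx => Algebra.subset_adjoin (Or.inr hx)

/-- Division by `t ^ e`. -/
theorem exists_adj (A : Subalgebra R V) (e n : ℕ) (hen : e ≤ n) (a : A) (ha : a ∈ ideal A t n) :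
    ∃ v ∈ adj A t e n, (a : V) = t ^ e * v := by
  obtain ⟨w, hw⟩ := mem_ideal.mp ha
  have h1 : t ^ e * (t ^ (n - e) * w) = a := by
    rw [← mul_assoc, ← pow_add, Nat.add_sub_cancel' hen, hw]
  exact ⟨t ^ (n - e) * w, ⟨by rw [h1]; exact a.2, Dvd.intro _ rfl⟩, h1.symm⟩

/-- The new subalgebra is finitely generated. -/
theorem blow_fg (ht : t ≠ 0) (A : Subalgebra R V) [IsNoetherianRing A] (hA : A.FG) (e n : ℕ) (hen : e ≤ n) :
    (blow A t e n).FG := by
  classical
  obtain ⟨G, hG⟩ := hA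
  obtain ⟨X, hX⟩ := (ideal A t n).fg_of_isNoetherianRing
  have h1 : ∀ a : A, ∃ v : V, a ∈ ideal A t n → (v ∈ adj A t e n ∧ (a : V) = t ^ e * v) := by
    intro a
    by_cases ha : a ∈ ideal A t n
    · obtain ⟨v, hv, hav⟩ := exists_adj A e n hen a ha
      exact ⟨v, fun _ => ⟨hv, hav⟩⟩
    · exact ⟨0, fun h => absurd h ha⟩
  choose v hv using h1
  refine ⟨G ∪ X.image v, ?_⟩
  have hGle : A ≤ Algebra.adjoin R ((G ∪ X.image v : Finset V) : Set V) := by
    intro x hx
    have hx' : x ∈ Algebra.adjoin R (G : Set V) := by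
      rw [hG]
      exact hx
    refine Algebra.adjoin_mono ?_ hx'
    intro x hx
    simp only [Finset.coe_union]
    exact Or.inl hx
  apply le_antisymm
  · rw [Algebra.adjoin_le_iff]
    intro x hx
    simp only [Finset.coe_union, Finset.coe_image] at hx
    rcases hx with hx | ⟨a, ha, rfl⟩
    · refine le_blow A t e n ?_
      have hx' : x ∈ Algebra.adjoin R (G : Set V) := Algebra.subset_adjoin hx
      rwa [hG] at hx'
    · refine adj_subset A t e n (hv a ?_).1
      rw [← hX]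
      exact Ideal.subset_span ha
  · rw [blow, Algebra.adjoin_le_iff]
    rintro x (hx | hx)
    · exact hGle hx
    · have h2 : ∀ a ∈ ideal A t n, ∃ u ∈ Algebra.adjoin R ((G ∪ X.image v : Finset V) : Set V),
          t ^ e * u = a := by
        intro a ha
        rw [← hX] at ha
        refine Submodule.span_induction (p := fun (a : A) _ => ∃ u ∈ Algebra.adjoin R ((G ∪ X.image v : Finset V) : Set V),
          t ^ e * u = a) ?_ ?_ ?_ ?_ ha
        · intro a ha
          refine ⟨v a, Algebra.subset_adjoin ?_, (hv a (by rw [← hX]; exact Ideal.subset_span ha)).2.symm⟩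
          simp only [Finset.coe_union, Finset.coe_image]
          exact Or.inr ⟨a, ha, rfl⟩
        · exact ⟨0, zero_mem _, by simp⟩
        · rintro a b _ _ ⟨u, hu, hau⟩ ⟨w, hw, hbw⟩
          exact ⟨u + w, add_mem hu hw, by rw [mul_add, hau, hbw]; rfl⟩
        · rintro a b _ ⟨u, hu, hau⟩
          refine ⟨a * u, mul_mem (hGle a.2) hu, ?_⟩
          rw [smul_eq_mul, Subalgebra.coe_mul, ← hau]
          ring
      obtain ⟨hx1, w, hw⟩ := hx
      obtain ⟨u, hu, hxu⟩ := h2 ⟨t ^ e * x, hx1⟩ (by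
        rw [mem_ideal]
        refine ⟨w, ?_⟩
        change t ^ e * x = t ^ n * w
        rw [hw, ← mul_assoc, ← pow_add, Nat.add_sub_cancel' hen])
      have h3 : u = x := mul_left_cancel₀ (pow_ne_zero e ht) hxu
      rw [← h3]
      exact hu

/-- Generators of the centre of the valuation on the new subalgebra. -/
theorem edim_blow (ht : t ≠ 0) (A : Subalgebra R V) (tA : A) (htA : (tA : V) = t) (e n : ℕ) (hen : e < n)
    (hclose : ∀ v : V, ∃ a : A, t ^ n ∣ v - a) {r : ℕ} (y : Fin r → A)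
    (hy : ∀ a ∈ ideal A t n, tA ^ e * a ∈ Ideal.span (Set.range fun i => tA ^ e * y i) ⊔
        Ideal.span {tA ^ (2 * e + 1)} ⊔ ideal A t n ^ 2) {B : Subalgebra R V} (hB : B = blow A t e n)
    (z : Fin r → B) (hz : ∀ i, (y i : V) = t ^ e * z i) (tB : B) (htB : (tB : V) = t) :
    ideal B t 1 ≤ Ideal.span (insert tB (Set.range z)) ⊔ ideal B t 1 ^ 2 := by
  have hAB : A ≤ B := hB ▸ le_blow A t e n
  have hadj : adj A t e n ⊆ B := by
    rw [hB]
    exact adj_subset A t e n
  set m := ideal B t 1 with hm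
  set G : Ideal B := Ideal.span (insert tB (Set.range z)) with hG
  let ι : A →ₐ[R] B := Subalgebra.inclusion hAB
  have hι : ∀ a : A, ((ι a : B) : V) = a := fun a => rfl
  let J : Ideal B := Ideal.span {x : B | (x : V) ∈ adj A t e n}
  -- the ideal of all elements of `A` that are `t ^ (2 e)` times an element of `G + m ^ 2`
  let 𝔟 : Ideal A :=
    { carrier := {u | ∃ w ∈ G ⊔ m ^ 2, (u : V) = t ^ (2 * e) * (w : V)}
      zero_mem' := ⟨0, zero_mem _, by simp⟩
      add_mem' := by
        rintro a b ⟨w, hw, haw⟩ ⟨w', hw', hbw⟩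
        exact ⟨w + w', add_mem hw hw', by
          rw [Subalgebra.coe_add, Subalgebra.coe_add, haw, hbw]
          ring⟩
      smul_mem' := by
        rintro c a ⟨w, hw, haw⟩
        refine ⟨ι c * w, Ideal.mul_mem_left _ _ hw, ?_⟩
        rw [smul_eq_mul, Subalgebra.coe_mul, Subalgebra.coe_mul, haw, hι]
        ring }
  have hJm : J ≤ m := by
    rw [Ideal.span_le]
    intro x hx
    have h1 : t ^ (n - e) ∣ (x : V) := hx.2
    change x ∈ ideal B t 1
    rw [mem_ideal]
    exact (pow_dvd_pow t (by omega)).trans h1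
  have h𝔟 : Ideal.span (Set.range fun i => tA ^ e * y i) ⊔ Ideal.span {tA ^ (2 * e + 1)} ⊔
      ideal A t n ^ 2 ≤ 𝔟 := by
    refine sup_le (sup_le ?_ ?_) ?_
    · rw [Ideal.span_le]
      rintro _ ⟨i, rfl⟩
      refine ⟨z i, Ideal.mem_sup_left (Ideal.subset_span (Or.inr ⟨i, rfl⟩)), ?_⟩
      change ((tA ^ e * y i : A) : V) = _
      rw [Subalgebra.coe_mul, Subalgebra.coe_pow, htA, hz, two_mul, pow_add]
      ring
    · rw [Ideal.span_singleton_le_iff_mem]
      refine ⟨tB, Ideal.mem_sup_left (Ideal.subset_span (Or.inl rfl)), ?_⟩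
      rw [Subalgebra.coe_pow, htA, htB, pow_succ]
    · rw [pow_two, Ideal.mul_le]
      intro a ha b hb
      obtain ⟨v, hv, hav⟩ := exists_adj A e n hen.le a ha
      obtain ⟨w, hw, hbw⟩ := exists_adj A e n hen.le b hb
      let v' : B := ⟨v, hadj hv⟩
      let w' : B := ⟨w, hadj hw⟩
      have hv' : v' ∈ m := hJm (Ideal.subset_span hv)
      have hw' : w' ∈ m := hJm (Ideal.subset_span hw)
      refine ⟨v' * w', Ideal.mem_sup_right ?_, ?_⟩
      · rw [pow_two]
        exact Ideal.mul_mem_mul hv' hw'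
      · rw [Subalgebra.coe_mul, hav, hbw, Subalgebra.coe_mul, two_mul, pow_add]
        ring
  have hJG : J ≤ G ⊔ m ^ 2 := by
    rw [Ideal.span_le]
    intro x hx
    obtain ⟨hx1, w, hw⟩ := id hx
    have h1 : (⟨t ^ e * x, hx1⟩ : A) ∈ ideal A t n := by
      rw [mem_ideal]
      refine ⟨w, ?_⟩
      change t ^ e * (x : V) = t ^ n * w
      rw [hw, ← mul_assoc, ← pow_add, Nat.add_sub_cancel' hen.le]
    obtain ⟨u, hu, hxu⟩ := h𝔟 (hy _ h1)
    have h2 : t ^ (2 * e) * (x : V) = t ^ (2 * e) * (u : V) := by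
      rw [← hxu, Subalgebra.coe_mul, Subalgebra.coe_pow, htA, two_mul, pow_add]
      ring
    have h3 : x = u := Subtype.ext (mul_left_cancel₀ (pow_ne_zero _ ht) h2)
    change x ∈ G ⊔ m ^ 2
    rw [h3]
    exact hu
  have hdec : ∀ x : V, x ∈ B → ∃ a : A, ∃ j ∈ J, x = a + (j : V) := by
    intro x hx
    rw [hB, blow] at hx
    refine Algebra.adjoin_induction (p := fun (x : V) _ => ∃ a : A, ∃ j ∈ J, x = a + (j : V)) ?_ ?_ ?_ ?_ hx
    · rintro x (hx | hx)
      · exact ⟨⟨x, hx⟩, 0, zero_mem _, by simp⟩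
      · exact ⟨0, ⟨x, hadj hx⟩, Ideal.subset_span hx, by simp⟩
    · intro r
      refine ⟨algebraMap R A r, 0, zero_mem _, ?_⟩
      rw [ZeroMemClass.coe_zero, add_zero]
      rfl
    · rintro x y _ _ ⟨a, j, hj, rfl⟩ ⟨b, k, hk, rfl⟩
      refine ⟨a + b, j + k, add_mem hj hk, ?_⟩
      rw [Subalgebra.coe_add, Subalgebra.coe_add]
      ring
    · rintro x y _ _ ⟨a, j, hj, rfl⟩ ⟨b, k, hk, rfl⟩
      refine ⟨a * b, ι a * k + ι b * j + j * k, add_mem (add_mem (Ideal.mul_mem_left _ _ hk)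
        (Ideal.mul_mem_left _ _ hj)) (Ideal.mul_mem_left _ _ hk), ?_⟩
      simp only [Subalgebra.coe_add, Subalgebra.coe_mul, hι]
      ring
  intro x hx
  obtain ⟨a, j, hj, hxa⟩ := hdec x x.2
  have hxj : ι a = x - j := by
    apply Subtype.ext
    rw [hι, Subalgebra.coe_sub, hxa]
    ring
  have ham : ι a ∈ m := by
    rw [hxj]
    exact Ideal.sub_mem _ hx (hJm hj)
  obtain ⟨v, hv⟩ : t ^ 1 ∣ ((ι a : B) : V) := mem_ideal.mp ham
  rw [pow_one, hι] at hv
  obtain ⟨b, w, hw⟩ := hclose v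
  have hab : a - tA * b ∈ ideal A t n := by
    rw [mem_ideal]
    refine ⟨t * w, ?_⟩
    rw [Subalgebra.coe_sub, Subalgebra.coe_mul, htA, hv]
    linear_combination t * hw
  obtain ⟨u, hu, hau⟩ := exists_adj A e n hen.le _ hab
  let u' : B := ⟨u, hadj hu⟩
  have h5 : x = tB * ι b + tB ^ e * u' + j := by
    apply Subtype.ext
    rw [Subalgebra.coe_add, Subalgebra.coe_add, Subalgebra.coe_mul, Subalgebra.coe_mul, Subalgebra.coe_pow,
      htB, hι, hxa]
    change (a : V) + j = t * b + t ^ e * u + j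
    rw [← hau, Subalgebra.coe_sub, Subalgebra.coe_mul, htA]
    ring
  rw [h5]
  refine add_mem (add_mem ?_ ?_) (hJG hj)
  · exact Ideal.mem_sup_left (Ideal.mul_mem_right _ _ (Ideal.subset_span (Or.inl rfl)))
  · exact Ideal.mul_mem_left _ _ (hJG (Ideal.subset_span hu))

end Pool.Agent.Helper7.LU
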