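import Pool.Agent.Helper7.LU.Base

/-!
# The height of the centre of a discrete valuation ring
-/

set_option autoImplicit false
set_option linter.unusedSectionVars false

open scoped TensorProduct nonZeroDivisors
open IsLocalRing

universe u

namespace Pool.Agent.Helper7.LU

variable {R V S W : Type u} [CommRing R] [CommRing V] [CommRing S]
  [CommRing W] [Algebra R V] [Algebra R S] [Algebra V W] [Algebra R W] [Algebra S W]
  [IsScalarTower R S W] [IsScalarTower R V W] [IsLocalRing R] {t : V}

/-- The height of the centre is larger than the height of the kernel of `S ⊗ A → W`. -/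
theorem IsData.height_lt (hd : IsData R V S W t) [IsDomain W] (A : Subalgebra R V) [IsNoetherianRing A]
    [IsNoetherianRing (S ⊗[R] A)] (tA : A) (htA : (tA : V) = t)
    (htW : Prime (algebraMap V W t)) {h : ℕ} (hh : (RingHom.ker (psi S W A)).height = h)
    [(ideal A t 1).IsPrime] :
    ((h + 1 : ℕ) : ℕ∞) ≤ (ideal A t 1).height := by
  have hprime : (RingHom.ker (psi S W A)).IsPrime := RingHom.ker_isPrime _
  let : Algebra A (S ⊗[R] A) := (inc S A).toRingHom.toAlgebra
  have hWp : (Ideal.span {algebraMap V W t}).IsPrime := by
    rw [Ideal.span_singleton_prime htW.ne_zero]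
    exact htW
  let M : Ideal (S ⊗[R] A) := (Ideal.span {algebraMap V W t}).comap (psi S W A)
  have hMp : M.IsPrime := Ideal.comap_isPrime _ _
  have hlt : RingHom.ker (psi S W A) < M := by
    refine lt_of_le_of_ne ?_ ?_
    · intro b hb
      rw [RingHom.mem_ker] at hb
      rw [Ideal.mem_comap, hb]
      exact Ideal.zero_mem _
    · intro heq
      have h1 : inc S A tA ∈ M := by
        rw [Ideal.mem_comap, psi_inc, htA]
        exact Ideal.mem_span_singleton_self _
      rw [← heq, RingHom.mem_ker, psi_inc, htA] at h1
      exact htW.ne_zero h1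
  have h1 := Ideal.height_add_one_le_of_lt_of_isPrime hlt
  rw [hh] at h1
  have hM : M = (ideal A t 1).map (algebraMap A (S ⊗[R] A)) := by
    apply le_antisymm
    · intro b hb
      obtain ⟨a, ha⟩ := hd.approx_tensor A 1 b
      have h2 : (maximalIdeal R ^ 1).map (algebraMap R (S ⊗[R] A)) ≤
          (ideal A t 1).map (algebraMap A (S ⊗[R] A)) := by
        have h3 : ((maximalIdeal R ^ 1).map (algebraMap R A)).map (inc S A) =
            (maximalIdeal R ^ 1).map (algebraMap R (S ⊗[R] A)) := map_algHom _ _
        rw [← h3]
        refine Ideal.map_mono ?_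
        rw [Ideal.map_le_iff_le_comap]
        intro r hr
        rw [Ideal.mem_comap, mem_ideal]
        exact hd.dom_pow 1 r hr
      have h4 : (maximalIdeal R ^ 1).map (algebraMap R (S ⊗[R] A)) ≤ M := by
        rw [Ideal.map_le_iff_le_comap]
        intro r hr
        change psi S W A (algebraMap R (S ⊗[R] A) r) ∈ Ideal.span {algebraMap V W t}
        rw [AlgHom.commutes, Ideal.mem_span_singleton, IsScalarTower.algebraMap_apply R V W]
        have := hd.dom_pow 1 r hr
        rw [pow_one] at this
        exact map_dvd _ this
      have h5 : inc S A a ∈ M := by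
        have := Ideal.sub_mem _ hb (h4 ha)
        rwa [sub_sub_cancel] at this
      have h6 : a ∈ ideal A t 1 := by
        rw [mem_ideal]
        apply hd.div
        change psi S W A (inc S A a) ∈ Ideal.span {algebraMap V W t} at h5
        rw [psi_inc, Ideal.mem_span_singleton] at h5
        rwa [pow_one]
      have h7 : b = (b - inc S A a) + inc S A a := by ring
      rw [h7]
      exact Ideal.add_mem _ (h2 ha) (Ideal.mem_map_of_mem (algebraMap A (S ⊗[R] A)) h6)
    · rw [Ideal.map_le_iff_le_comap]
      intro a ha
      change psi S W A (inc S A a) ∈ Ideal.span {algebraMap V W t}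
      rw [psi_inc, Ideal.mem_span_singleton]
      have := mem_ideal.mp ha
      rw [pow_one] at this
      exact map_dvd _ this
  have hover : M.LiesOver (ideal A t 1) := by
    constructor
    ext a
    constructor
    · intro ha
      change inc S A a ∈ M
      rw [hM]
      exact Ideal.mem_map_of_mem (algebraMap A (S ⊗[R] A)) ha
    · intro ha
      change psi S W A (inc S A a) ∈ Ideal.span {algebraMap V W t} at ha
      rw [psi_inc, Ideal.mem_span_singleton] at ha
      rw [mem_ideal]
      apply hd.div
      rwa [pow_one]
  have h2 := Ideal.height_le_height_add_of_liesOver (ideal A t 1) M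
  have h3 : M.map (Ideal.Quotient.mk ((ideal A t 1).map (algebraMap A (S ⊗[R] A)))) = ⊥ := by
    rw [← hM]
    exact Ideal.map_quotient_self M
  have h4 : Nontrivial ((S ⊗[R] A) ⧸ (ideal A t 1).map (algebraMap A (S ⊗[R] A))) := by
    rw [← hM]
    exact Ideal.Quotient.nontrivial_iff.mpr hMp.ne_top
  rw [h3, Ideal.height_bot, add_zero] at h2
  refine le_trans ?_ h2
  exact_mod_cast h1

end Pool.Agent.Helper7.LU
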