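import Mathlib

/-!
# Finite modules over discrete valuation rings and the ideals whose quotient is such a ring
-/

set_option autoImplicit false

universe u v

namespace Pool.Agent.Helper7.LU

open Submodule

/-- A finite module over a discrete valuation ring that is generically generated by `h` elements is generated
by at most `h` elements and by elements that are killed by a power of `t`. -/
theorem module_structure {D : Type u} [CommRing D] [IsDomain D] [IsPrincipalIdealRing D] (t : D)
    (ht : ∀ d : D, d ≠ 0 → ∃ n : ℕ, d ∣ t ^ n) {N : Type v} [AddCommGroup N] [Module D N]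
    [Module.Finite D N] {h : ℕ} (n' : Fin h → N)
    (hn' : ∀ x : N, ∃ d : D, d ≠ 0 ∧ d • x ∈ span D (Set.range n')) :
    ∃ (r : ℕ) (e : Fin r → N) (c : ℕ), r ≤ h ∧
      ∀ x : N, ∃ y : N, x - y ∈ span D (Set.range e) ∧ t ^ c • y = 0 := by
  classical
  -- the torsion submodule is killed by a power of `t`
  obtain ⟨c, hc⟩ : ∃ c : ℕ, ∀ x ∈ torsion D N, t ^ c • x = 0 := by
    have h1 : ∀ x : N, ∃ n : ℕ, x ∈ torsion D N → t ^ n • x = 0 := by
      intro x
      by_cases hx : x ∈ torsion D N
      · obtain ⟨a, ha⟩ := (mem_torsion_iff x).mp hx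
        obtain ⟨n, b, hb⟩ := ht a (nonZeroDivisors.ne_zero a.2)
        refine ⟨n, fun _ => ?_⟩
        rw [hb, mul_comm, mul_smul]
        have : (a : D) • x = 0 := ha
        rw [this, smul_zero]
      · exact ⟨0, fun h => absurd h hx⟩
    choose n hn using h1
    obtain ⟨s, hs⟩ := (isNoetherian_def.mp (inferInstance : IsNoetherian D N)) (torsion D N)
    refine ⟨s.sup n, fun x hx => ?_⟩
    rw [← hs] at hx
    refine span_induction (p := fun x _ => t ^ (s.sup n) • x = 0) ?_ (smul_zero _) ?_ ?_ hx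
    · intro x hx
      have h2 : n x ≤ s.sup n := Finset.le_sup hx
      rw [← Nat.sub_add_cancel h2, pow_add, mul_smul, hn x (by rw [← hs]; exact subset_span hx),
        smul_zero]
    · intro x y _ _ hx hy
      rw [smul_add, hx, hy, add_zero]
    · intro a x _ hx
      rw [smul_comm, hx, smul_zero]
  let N' := N ⧸ torsion D N
  have hfree : Module.Free D N' := Module.free_of_finite_type_torsion_free'
  let b : Module.Basis (Fin (Module.finrank D N')) D N' := Module.finBasis D N'
  have hb : ∀ i, ∃ x : N, (torsion D N).mkQ x = b i := fun i => (torsion D N).mkQ_surjective (b i)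
  choose e he using hb
  refine ⟨_, e, c, ?_, ?_⟩
  · -- the rank
    let M' : Submodule D N' := span D (Set.range fun j => (torsion D N).mkQ (n' j))
    have hd : ∀ i, ∃ d : D, d ≠ 0 ∧ d • b i ∈ M' := by
      intro i
      obtain ⟨d, hd0, hd⟩ := hn' (e i)
      refine ⟨d, hd0, ?_⟩
      rw [← he i, ← map_smul]
      have h3 : M' = (span D (Set.range n')).map (torsion D N).mkQ := by
        rw [map_span, ← Set.range_comp]
        rfl
      rw [h3]
      exact mem_map_of_mem hd
    choose d hd0 hd using hd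
    have hM : Module.Finite D M' := Module.Finite.span_of_finite D (Set.finite_range _)
    have hli : LinearIndependent D (fun i => (⟨d i • b i, hd i⟩ : M')) := by
      rw [← LinearMap.linearIndependent_iff M'.subtype (ker_subtype _)]
      rw [Fintype.linearIndependent_iff]
      intro g hg i
      have h4 := Fintype.linearIndependent_iff.mp b.linearIndependent (fun i => g i * d i) (by
        rw [← hg]
        refine Finset.sum_congr rfl fun i _ => ?_
        simp [mul_smul]) i
      exact (mul_eq_zero.mp h4).resolve_right (hd0 i)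
    have h5 := hli.fintype_card_le_finrank
    rw [Fintype.card_fin] at h5
    refine h5.trans ?_
    have h6 := finrank_range_le_card (R := D) (fun j => (torsion D N).mkQ (n' j))
    rwa [Fintype.card_fin] at h6
  · intro x
    have h7 := b.sum_repr ((torsion D N).mkQ x)
    refine ⟨x - ∑ i, (b.repr ((torsion D N).mkQ x)) i • e i, ?_, ?_⟩
    · rw [sub_sub_cancel]
      exact sum_mem fun i _ => smul_mem _ _ (subset_span ⟨i, rfl⟩)
    · refine hc _ ((Submodule.Quotient.mk_eq_zero _).mp ?_)
      change (torsion D N).mkQ _ = 0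
      rw [map_sub, sub_eq_zero]
      conv_lhs => rw [← h7]
      rw [map_sum]
      refine Finset.sum_congr rfl fun i _ => ?_
      rw [map_smul, he i]

/-- The structure of a prime ideal `Q` modulo `Q ^ 2` if the quotient is a discrete valuation ring. -/
theorem ideal_structure {B : Type u} [CommRing B] [IsNoetherianRing B] (Q : Ideal B) [Q.IsPrime]
    [IsPrincipalIdealRing (B ⧸ Q)] (t : B)
    (ht : ∀ d : B ⧸ Q, d ≠ 0 → ∃ n : ℕ, d ∣ (Ideal.Quotient.mk Q t) ^ n) {h : ℕ} (g' : Fin h → B)
    (hg' : ∀ i, g' i ∈ Q) (hgen : ∀ q ∈ Q, ∃ s ∉ Q, s * q ∈ Ideal.span (Set.range g')) :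
    ∃ (r : ℕ) (g : Fin r → B) (c : ℕ), r ≤ h ∧ (∀ i, g i ∈ Q) ∧
      ∀ q ∈ Q, ∃ y ∈ Q, q - y ∈ Ideal.span (Set.range g) ⊔ Q ^ 2 ∧ t ^ c * y ∈ Q ^ 2 := by
  have hfin0 : Module.Finite B Q.Cotangent :=
    Module.Finite.of_surjective Q.toCotangent Q.toCotangent_surjective
  have hfin : Module.Finite (B ⧸ Q) Q.Cotangent := Module.Finite.of_restrictScalars_finite B _ _
  have key : ∀ {k : ℕ} (f : Fin k → B) (hf : ∀ i, f i ∈ Q) (x : B) (hx : x ∈ Q),
      Q.toCotangent ⟨x, hx⟩ ∈ span (B ⧸ Q) (Set.range fun i => Q.toCotangent ⟨f i, hf i⟩) ↔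
        x ∈ Ideal.span (Set.range f) ⊔ Q ^ 2 := by
    intro k f hf x hx
    constructor
    · intro hx'
      obtain ⟨a, ha⟩ := (mem_span_range_iff_exists_fun _).mp hx'
      choose a' ha' using fun i => Ideal.Quotient.mk_surjective (a i)
      have h1 : Q.toCotangent (∑ i, a' i • (⟨f i, hf i⟩ : Q)) = Q.toCotangent ⟨x, hx⟩ := by
        rw [← ha, map_sum]
        refine Finset.sum_congr rfl fun i _ => ?_
        rw [map_smul, ← ha' i]
        rfl
      rw [Ideal.toCotangent_eq] at h1
      have h2 : x = (∑ i, a' i * f i) - ((∑ i, a' i * f i) - x) := by ring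
      rw [h2]
      refine Ideal.sub_mem _ (Ideal.mem_sup_left (Ideal.sum_mem _ fun i _ =>
        Ideal.mul_mem_left _ _ (Ideal.subset_span ⟨i, rfl⟩))) (Ideal.mem_sup_right ?_)
      simpa using h1
    · intro hx'
      obtain ⟨y, hy, z, hz, hyz⟩ := Submodule.mem_sup.mp hx'
      obtain ⟨a, ha⟩ := (mem_span_range_iff_exists_fun _).mp hy
      refine (mem_span_range_iff_exists_fun _).mpr ⟨fun i => Ideal.Quotient.mk Q (a i), ?_⟩
      have h1 : Q.toCotangent (∑ i, a i • (⟨f i, hf i⟩ : Q)) = Q.toCotangent ⟨x, hx⟩ := by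
        rw [Ideal.toCotangent_eq]
        have h3 : ((∑ i, a i • (⟨f i, hf i⟩ : Q) : Q) : B) = y := by
          rw [← ha]
          simp
        rw [h3]
        have : y - x = -z := by
          rw [← hyz]
          ring
        simp only [this]
        exact (Ideal.neg_mem_iff _).mpr hz
      rw [← h1, map_sum]
      refine Finset.sum_congr rfl fun i _ => ?_
      rw [map_smul]
      rfl
  obtain ⟨r, e, c, hr, he⟩ := module_structure (Ideal.Quotient.mk Q t) ht (N := Q.Cotangent)
    (fun i => Q.toCotangent ⟨g' i, hg' i⟩) (by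
      intro x
      obtain ⟨⟨q, hq⟩, rfl⟩ := Q.toCotangent_surjective x
      obtain ⟨s, hs, hsq⟩ := hgen q hq
      refine ⟨Ideal.Quotient.mk Q s, fun h0 => hs (Ideal.Quotient.eq_zero_iff_mem.mp h0), ?_⟩
      have h1 : Ideal.Quotient.mk Q s • Q.toCotangent ⟨q, hq⟩ =
          Q.toCotangent ⟨s * q, Q.mul_mem_left s hq⟩ := by
        have : (⟨s * q, Q.mul_mem_left s hq⟩ : Q) = s • (⟨q, hq⟩ : Q) := rfl
        rw [this, map_smul]
        rfl
      rw [h1, key g' hg']
      exact Ideal.mem_sup_left hsq)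
  have he' : ∀ i, ∃ x : Q, Q.toCotangent x = e i := fun i => Q.toCotangent_surjective (e i)
  choose g hg using he'
  refine ⟨r, fun i => g i, c, hr, fun i => (g i).2, ?_⟩
  intro q hq
  obtain ⟨y', hy1, hy2⟩ := he (Q.toCotangent ⟨q, hq⟩)
  obtain ⟨y, rfl⟩ := Q.toCotangent_surjective y'
  refine ⟨y, y.2, ?_, ?_⟩
  · rw [← key (fun i => (g i : B)) (fun i => (g i).2) (q - y) (Q.sub_mem hq y.2)]
    have h1 : Q.toCotangent ⟨q - y, Q.sub_mem hq y.2⟩ = Q.toCotangent ⟨q, hq⟩ - Q.toCotangent y := by
      rw [← map_sub]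
      rfl
    rw [h1]
    have h2 : (fun i => Q.toCotangent ⟨(g i : B), (g i).2⟩) = e := by
      ext1 i
      exact hg i
    rw [h2]
    exact hy1
  · have h3 : (Ideal.Quotient.mk Q t) ^ c • Q.toCotangent y = Q.toCotangent (t ^ c • y) := by
      rw [map_smul, ← map_pow]
      rfl
    rw [h3, Ideal.toCotangent_eq_zero] at hy2
    simpa using hy2

end Pool.Agent.Helper7.LU
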