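import Pool.Agent.Helper7.LU.Base
import Pool.Agent.Helper7.LU.Str

/-!
# Generators of the ideal of a discrete valuation ring in a subalgebra
-/

set_option autoImplicit false
set_option linter.unusedSectionVars false

open scoped TensorProduct nonZeroDivisors
open IsLocalRing

universe u

namespace Pool.Agent.Helper7.LU

theorem pow_sup_le {A : Type u} [CommRing A] (T I : Ideal A) (k : ℕ) :
    (T ⊔ I) ^ (k + 1) ≤ T ^ (k + 1) ⊔ T ^ k * I ⊔ I ^ 2 := by
  induction k with
  | zero => simp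
  | succ k ih =>
    rw [pow_succ]
    have h1 : (T ^ (k + 1) ⊔ T ^ k * I ⊔ I ^ 2) * (T ⊔ I) ≤
        T ^ (k + 1 + 1) ⊔ T ^ (k + 1) * I ⊔ I ^ 2 := by
      rw [Ideal.mul_sup, Ideal.sup_mul, Ideal.sup_mul, Ideal.sup_mul, Ideal.sup_mul]
      have a1 : T ^ (k + 1) * T ≤ T ^ (k + 1 + 1) ⊔ T ^ (k + 1) * I ⊔ I ^ 2 := by
        rw [← pow_succ]
        exact le_trans le_sup_left le_sup_left
      have a2 : T ^ k * I * T ≤ T ^ (k + 1 + 1) ⊔ T ^ (k + 1) * I ⊔ I ^ 2 := by
        have : T ^ k * I * T = T ^ (k + 1) * I := by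
          rw [mul_assoc, mul_comm I T, ← mul_assoc, ← pow_succ]
        rw [this]
        exact le_trans le_sup_right le_sup_left
      have a3 : I ^ 2 * T ≤ T ^ (k + 1 + 1) ⊔ T ^ (k + 1) * I ⊔ I ^ 2 :=
        le_trans (Ideal.mul_le_left (I := I ^ 2) (J := T)) le_sup_right
      have a4 : T ^ (k + 1) * I ≤ T ^ (k + 1 + 1) ⊔ T ^ (k + 1) * I ⊔ I ^ 2 :=
        le_trans le_sup_right le_sup_left
      have a5 : T ^ k * I * I ≤ T ^ (k + 1 + 1) ⊔ T ^ (k + 1) * I ⊔ I ^ 2 := by
        have : T ^ k * I * I = T ^ k * I ^ 2 := by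
          rw [mul_assoc, ← pow_two]
        rw [this]
        exact le_trans (Ideal.mul_le_right (I := T ^ k) (J := I ^ 2)) le_sup_right
      have a6 : I ^ 2 * I ≤ T ^ (k + 1 + 1) ⊔ T ^ (k + 1) * I ⊔ I ^ 2 :=
        le_trans (Ideal.mul_le_left (I := I ^ 2) (J := I)) le_sup_right
      exact sup_le (sup_le (sup_le a1 a2) a3) (sup_le (sup_le a4 a5) a6)
    exact (Ideal.mul_mono_left ih).trans h1

variable {R V S W : Type u} [CommRing R] [CommRing V] [CommRing S]
  [CommRing W] [Algebra R V] [Algebra R S] [Algebra V W] [Algebra R W] [Algebra S W]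
  [IsScalarTower R S W] [IsScalarTower R V W] [IsLocalRing R] {t : V}

/-- If `S ⊗ A → W` is surjective then the elements of `V` are close to elements of `A`. -/
theorem IsData.close (h : IsData R V S W t) (A : Subalgebra R V)
    (hs : Function.Surjective (psi S W A)) (n : ℕ) (v : V) : ∃ a : A, t ^ n ∣ v - a := by
  obtain ⟨b, hb⟩ := hs (algebraMap V W v)
  obtain ⟨a, ha⟩ := h.approx_tensor A n b
  refine ⟨a, h.div n _ ?_⟩
  have h2 : (maximalIdeal R ^ n).map (algebraMap R (S ⊗[R] A)) ≤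
      (Ideal.span {algebraMap V W t ^ n}).comap (psi S W A) := by
    rw [Ideal.map_le_iff_le_comap]
    intro r hr
    rw [Ideal.mem_comap, Ideal.mem_comap, AlgHom.commutes, Ideal.mem_span_singleton,
      IsScalarTower.algebraMap_apply R V W, ← map_pow]
    exact map_dvd _ (h.dom_pow n r hr)
  have h3 := h2 ha
  rw [Ideal.mem_comap, map_sub, hb, psi_inc, Ideal.mem_span_singleton, ← map_sub] at h3
  exact h3

/-- The powers of the maximal ideal of `R` are small in `A`. -/
theorem IsData.pow_le (h : IsData R V S W t) (A : Subalgebra R V)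
    (hs : Function.Surjective (psi S W A)) (tA : A) (htA : (tA : V) = t) (n k M : ℕ) (hM : k + 1 ≤ M) :
    (maximalIdeal R ^ M).map (algebraMap R A) ≤ Ideal.span {tA ^ k} ⊔ ideal A t n ^ 2 := by
  have h1 : (maximalIdeal R).map (algebraMap R A) ≤ Ideal.span {tA} ⊔ ideal A t n := by
    rw [Ideal.map_le_iff_le_comap]
    intro r hr
    rw [Ideal.mem_comap]
    obtain ⟨v, hv⟩ := h.dom r hr
    obtain ⟨a, w, hw⟩ := h.close A hs n v
    have h2 : algebraMap R A r = tA * a + (algebraMap R A r - tA * a) := by ring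
    rw [h2]
    refine Ideal.add_mem _ (Ideal.mem_sup_left (Ideal.mul_mem_right _ _
      (Ideal.mem_span_singleton_self tA))) (Ideal.mem_sup_right ?_)
    rw [mem_ideal]
    refine ⟨t * w, ?_⟩
    have h3 : ((algebraMap R A r - tA * a : A) : V) = algebraMap R V r - t * a := by
      rw [← htA]
      rfl
    rw [h3, hv]
    linear_combination t * hw
  rw [Ideal.map_pow]
  refine (Ideal.pow_right_mono h1 M).trans ((Ideal.pow_le_pow_right hM).trans ((pow_sup_le _ _ k).trans ?_))
  rw [Ideal.span_singleton_pow, Ideal.span_singleton_pow]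
  refine sup_le (sup_le ?_ ?_) le_sup_right
  · refine le_trans ?_ le_sup_left
    rw [Ideal.span_singleton_le_span_singleton]
    exact pow_dvd_pow _ (Nat.le_succ k)
  · exact le_trans (Ideal.mul_le_left (I := Ideal.span {tA ^ k}) (J := ideal A t n)) le_sup_left

/-- **Generators of the ideal of a valuation.** -/
theorem IsData.edim (hd : IsData R V S W t) [IsDomain W] [IsPrincipalIdealRing W] (A : Subalgebra R V)
    [IsNoetherianRing (S ⊗[R] A)] (hs : Function.Surjective (psi S W A)) (tA : A) (htA : (tA : V) = t)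
    {h : ℕ} (g' : Fin h → S ⊗[R] A) (hg' : ∀ i, g' i ∈ RingHom.ker (psi S W A))
    (hgen : ∀ q ∈ RingHom.ker (psi S W A), ∃ s ∉ RingHom.ker (psi S W A), s * q ∈ Ideal.span (Set.range g')) :
    ∃ r c : ℕ, r ≤ h ∧ ∀ e n : ℕ, c ≤ e → e < n → ∃ y : Fin r → A, (∀ i, y i ∈ ideal A t n) ∧
      ∀ a ∈ ideal A t n, tA ^ e * a ∈ Ideal.span (Set.range fun i => tA ^ e * y i) ⊔
        Ideal.span {tA ^ (2 * e + 1)} ⊔ ideal A t n ^ 2 := by
  set Q : Ideal (S ⊗[R] A) := RingHom.ker (psi S W A) with hQ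
  have hprime : Q.IsPrime := RingHom.ker_isPrime _
  let φ : (S ⊗[R] A) ⧸ Q ≃+* W := RingHom.quotientKerEquivOfSurjective (f := (psi S W A : S ⊗[R] A →+* W)) hs
  have hφ : ∀ b, φ (Ideal.Quotient.mk Q b) = psi S W A b := fun b => rfl
  have hpir : IsPrincipalIdealRing ((S ⊗[R] A) ⧸ Q) :=
    IsPrincipalIdealRing.of_surjective φ.symm.toRingHom φ.symm.surjective
  obtain ⟨r, g, c, hr, hg, hgs⟩ := ideal_structure Q (inc S A tA) (by
    intro d hd0
    obtain ⟨n, w, hw⟩ := hd.unif (φ d) (by simpa using hd0)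
    refine ⟨n, φ.symm w, ?_⟩
    apply φ.injective
    rw [map_pow, hφ, psi_inc, htA, hw, map_mul, RingEquiv.apply_symm_apply]) g' hg' hgen
  refine ⟨r, c, hr, fun e n hce hen => ?_⟩
  let M := max n (2 * e + 2)
  choose y hy using fun i => hd.approx_tensor A M (g i)
  have hmapψ : (maximalIdeal R ^ M).map (algebraMap R (S ⊗[R] A)) ≤
      (Ideal.span {algebraMap V W t ^ M}).comap (psi S W A) := by
    rw [Ideal.map_le_iff_le_comap]
    intro r hr
    rw [Ideal.mem_comap, Ideal.mem_comap, AlgHom.commutes, Ideal.mem_span_singleton,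
      IsScalarTower.algebraMap_apply R V W, ← map_pow]
    exact map_dvd _ (hd.dom_pow M r hr)
  have hyI : ∀ i, y i ∈ ideal A t n := by
    intro i
    rw [mem_ideal]
    have h3 := hmapψ (hy i)
    have h4 : psi S W A (g i) = 0 := hg i
    rw [Ideal.mem_comap, map_sub, h4, psi_inc, zero_sub, Ideal.mem_span_singleton, dvd_neg] at h3
    exact (pow_dvd_pow t (le_max_left _ _)).trans (hd.div M _ h3)
  refine ⟨y, hyI, fun a ha => ?_⟩
  set 𝔞 : Ideal A := Ideal.span (Set.range fun i => tA ^ e * y i) ⊔ Ideal.span {tA ^ (2 * e + 1)} ⊔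
    ideal A t n ^ 2 with h𝔞
  have hA : (maximalIdeal R ^ M).map (algebraMap R A) ≤ 𝔞 := by
    refine (hd.pow_le A hs tA htA n (2 * e + 1) M (le_max_right _ _)).trans ?_
    exact sup_le (le_sup_right.trans le_sup_left) le_sup_right
  have hB : (maximalIdeal R ^ M).map (algebraMap R (S ⊗[R] A)) ≤ 𝔞.map (inc S A) := by
    rw [← map_algHom (inc S A)]
    exact Ideal.map_mono hA
  have hQ2 : Q ^ 2 ≤ 𝔞.map (inc S A) := by
    refine (Ideal.pow_right_mono (hd.ker_le A n) 2).trans ?_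
    rw [← Ideal.map_pow]
    exact Ideal.map_mono le_sup_right
  refine hd.contract A M 𝔞 hA _ ?_
  -- the element in the extension
  obtain ⟨w, hw⟩ := mem_ideal.mp ha
  obtain ⟨b, hb⟩ := hs (algebraMap V W w)
  have hq : inc S A a - (inc S A tA) ^ n * b ∈ Q := by
    rw [hQ, RingHom.mem_ker, map_sub, map_mul, map_pow, psi_inc, psi_inc, hb, hw, htA]
    simp
  obtain ⟨y', hy'Q, hy'1, hy'2⟩ := hgs _ hq
  have e1 : inc S A (tA ^ e * a) = (inc S A tA) ^ e * ((inc S A a - (inc S A tA) ^ n * b) - y') +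
      (inc S A tA) ^ (e - c) * ((inc S A tA) ^ c * y') + (inc S A tA) ^ (e + n) * b := by
    rw [← mul_assoc ((inc S A tA) ^ (e - c)), ← pow_add, Nat.sub_add_cancel hce, map_mul, map_pow]
    ring
  rw [e1]
  refine Ideal.add_mem _ (Ideal.add_mem _ ?_ ?_) ?_
  · have h5 : Ideal.span (Set.range g) ⊔ Q ^ 2 ≤
        Submodule.comap (LinearMap.mulLeft (S ⊗[R] A) ((inc S A tA) ^ e)) (𝔞.map (inc S A)) := by
      refine sup_le ?_ ?_
      · rw [Ideal.span, Submodule.span_le]
        rintro _ ⟨i, rfl⟩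
        change (inc S A tA) ^ e * g i ∈ 𝔞.map (inc S A)
        have h6 : (inc S A tA) ^ e * g i = inc S A (tA ^ e * y i) +
            (inc S A tA) ^ e * (g i - inc S A (y i)) := by
          rw [map_mul, map_pow]
          ring
        rw [h6]
        refine Ideal.add_mem _ (Ideal.mem_map_of_mem _ (Ideal.mem_sup_left (Ideal.mem_sup_left
          (Ideal.subset_span ⟨i, rfl⟩)))) (Ideal.mul_mem_left _ _ (hB (hy i)))
      · intro x hx
        exact Ideal.mul_mem_left _ _ (hQ2 hx)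
    exact h5 hy'1
  · exact Ideal.mul_mem_left _ _ (hQ2 hy'2)
  · refine Ideal.mul_mem_right _ _ ?_
    rw [← map_pow]
    refine Ideal.mem_map_of_mem _ (Ideal.mem_sup_left (Ideal.mem_sup_right ?_))
    rw [Ideal.mem_span_singleton]
    exact pow_dvd_pow _ (by omega)

end Pool.Agent.Helper7.LU
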