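import Pool.Agent.Helper7.LU.Main

/-!
# Uniformization of discrete valuations: valuation subrings
-/

set_option autoImplicit false
set_option linter.unusedSectionVars false

open scoped TensorProduct nonZeroDivisors
open IsLocalRing

universe u

namespace Pool.Agent.Helper7.LU

variable {R K : Type u} [CommRing R] [IsLocalRing R] [Field K] [Algebra R K]

/-- The ring homomorphism from `R` to a valuation ring that contains `R`. -/
def toVal (V : ValuationSubring K) (hRV : ∀ r : R, algebraMap R K r ∈ V) : R →+* V :=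
  (algebraMap R K).codRestrict V.toSubring hRV

theorem mem_maximalIdeal_iff_val (V : ValuationSubring K) (v : V) :
    v ∈ maximalIdeal V ↔ V.valuation (v : K) < 1 := by
  exact (V.valuation_lt_one_iff v)

/-- The conclusion: embedded local uniformization of `V` on `R` for all finite subsets of `V`, in dimension
`d`. -/
def Uniformized (R : Type u) [CommRing R] [Algebra R K] (V : ValuationSubring K) (d : ℕ) : Prop :=
  ∀ F : Finset K, (∀ x ∈ F, x ∈ V) → ∃ A : Subalgebra R K, A.FG ∧ (∀ a ∈ A, a ∈ V) ∧ (∀ x ∈ F, x ∈ A) ∧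
    ∃ (P : Ideal A) (_ : P.IsPrime), (∀ a : A, a ∈ P ↔ V.valuation (a : K) < 1) ∧
      IsRegularLocalRing (Localization.AtPrime P) ∧ ringKrullDim (Localization.AtPrime P) = d ∧
      ∃ τ : A, algebraMap A (Localization.AtPrime P) τ ∈ maximalIdeal (Localization.AtPrime P) ∧
        algebraMap A (Localization.AtPrime P) τ ∉ maximalIdeal (Localization.AtPrime P) ^ 2 ∧
        ∀ x ∈ F, x ≠ 0 → ∃ (n : ℕ) (u : A), u ∉ P ∧ x = (τ : K) ^ n * u

/-- From subalgebras of `V` to subalgebras of `K`. -/
theorem uniformized_of (V : ValuationSubring K) [IsDiscreteValuationRing V] [Algebra R V] [IsScalarTower R V K]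
    {t : V} (ht : Irreducible t) (d : ℕ)
    (H : ∀ F : Finset V, ∃ B : Subalgebra R V, B.FG ∧ (F : Set V) ⊆ B ∧ ∃ tB : B, (tB : V) = t ∧
      ∃ _ : (ideal B t 1).IsPrime, IsRegularLocalRing (Localization.AtPrime (ideal B t 1)) ∧
        (ideal B t 1).height = (d : ℕ) ∧
        algebraMap B (Localization.AtPrime (ideal B t 1)) tB ∉
          maximalIdeal (Localization.AtPrime (ideal B t 1)) ^ 2) : Uniformized R V d := by
  classical
  intro F hF
  -- the units
  have h1 : ∀ x : V, ∃ (n : ℕ) (u : V), x ≠ 0 → (IsUnit u ∧ x = t ^ n * u) := by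
    intro x
    by_cases hx : x = 0
    · exact ⟨0, 0, fun h => absurd hx h⟩
    · obtain ⟨n, u, hu⟩ := IsDiscreteValuationRing.associated_pow_irreducible hx ht
      refine ⟨n, (u⁻¹ : Vˣ), fun _ => ⟨Units.isUnit _, ?_⟩⟩
      rw [← hu, Units.mul_inv_cancel_right]
  choose n u hu using h1
  let F' : Finset V := F.attach.image (fun x => (⟨x.1, hF x.1 x.2⟩ : V))
  obtain ⟨B, hBfg, hFB, tB, htB, hp, hreg, hht, hpar⟩ := H (F' ∪ F'.image u)
  let j : V →ₐ[R] K := IsScalarTower.toAlgHom R V K
  have hj : ∀ v : V, j v = (v : K) := fun v => rfl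
  have hjinj : Function.Injective j := fun x y hxy => Subtype.ext hxy
  let A : Subalgebra R K := B.map j
  have hA : ∀ a ∈ A, a ∈ V := by
    rintro a ⟨b, hb, rfl⟩
    exact b.2
  let e : B ≃ₐ[R] A := B.equivMapOfInjective j hjinj
  have he : ∀ b : B, ((e b : A) : K) = ((b : V) : K) := fun b => rfl
  let P : Ideal A := (ideal B t 1).comap (e.symm : A →+* B)
  have hP : P.IsPrime := Ideal.comap_isPrime _ _
  have hPmem : ∀ b : B, e b ∈ P ↔ b ∈ ideal B t 1 := by
    intro b
    change e.symm (e b) ∈ ideal B t 1 ↔ _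
    rw [AlgEquiv.symm_apply_apply]
  have hideal : ∀ b : B, b ∈ ideal B t 1 ↔ V.valuation ((b : V) : K) < 1 := by
    intro b
    rw [mem_ideal, pow_one, ← mem_maximalIdeal_iff_val, max_eq ht, Ideal.mem_span_singleton]
  let L : Localization.AtPrime (ideal B t 1) ≃+* Localization.AtPrime P :=
    IsLocalization.ringEquivOfRingEquiv (M := (ideal B t 1).primeCompl) (T := P.primeCompl)
      (Localization.AtPrime (ideal B t 1)) (Localization.AtPrime P) e.toRingEquiv (by
        ext x
        obtain ⟨b, rfl⟩ := e.surjective x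
        simp only [Submonoid.mem_map]
        constructor
        · rintro ⟨c, hc, hcb⟩
          have : c = b := e.injective hcb
          subst this
          exact fun h => hc ((hPmem c).mp h)
        · intro h
          exact ⟨b, fun hb => h ((hPmem b).mpr hb), rfl⟩)
  have hL : ∀ b : B, L (algebraMap B _ b) = algebraMap A _ (e b) := fun b =>
    IsLocalization.ringEquivOfRingEquiv_eq (M := (ideal B t 1).primeCompl) (T := P.primeCompl) _ b
  have hreg' : IsRegularLocalRing (Localization.AtPrime P) := 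
    IsRegularLocalRing.of_ringEquiv (R := Localization.AtPrime (ideal B t 1)) (R' := Localization.AtPrime P) L
  have hLmax : ∀ x, L x ∈ maximalIdeal (Localization.AtPrime P) ↔
      x ∈ maximalIdeal (Localization.AtPrime (ideal B t 1)) := by
    intro x
    rw [mem_maximalIdeal, mem_maximalIdeal, mem_nonunits_iff, mem_nonunits_iff, MulEquiv.isUnit_map]
  have hLmap : (maximalIdeal (Localization.AtPrime (ideal B t 1))).map L =
      maximalIdeal (Localization.AtPrime P) := by
    apply le_antisymm
    · rw [Ideal.map_le_iff_le_comap]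
      intro x hx
      exact (hLmax x).mpr hx
    · intro y hy
      obtain ⟨x, rfl⟩ := L.surjective y
      exact Ideal.mem_map_of_mem _ ((hLmax x).mp hy)
  have htP : tB ∈ ideal B t 1 := by
    rw [mem_ideal, pow_one, htB]
  refine ⟨A, hBfg.map j, hA, ?_, P, hP, ?_, hreg', ?_, e tB, ?_, ?_, ?_⟩
  · intro x hx
    refine ⟨⟨x, hF x hx⟩, hFB ?_, rfl⟩
    simp only [Finset.coe_union, Set.mem_union, Finset.mem_coe, F', Finset.mem_image, Finset.mem_attach]
    exact Or.inl ⟨⟨x, hx⟩, trivial, rfl⟩
  · intro a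
    obtain ⟨b, rfl⟩ := e.surjective a
    rw [hPmem, hideal, he]
  · rw [IsLocalization.AtPrime.ringKrullDim_eq_height P]
    have h2 : P.height = (ideal B t 1).height := by
      have h3 := IsLocalization.AtPrime.ringKrullDim_eq_height P (Localization.AtPrime P)
      have h4 := IsLocalization.AtPrime.ringKrullDim_eq_height (ideal B t 1)
        (Localization.AtPrime (ideal B t 1))
      rw [← ringKrullDim_eq_of_ringEquiv L, h4] at h3
      exact_mod_cast h3.symm
    rw [h2, hht]
    rfl
  · rw [← hL, hLmax, ← Localization.AtPrime.map_eq_maximalIdeal]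
    exact Ideal.mem_map_of_mem _ htP
  · rw [← hL, ← hLmap, ← Ideal.map_pow]
    intro h
    apply hpar
    obtain ⟨x, hx, hxL⟩ := (Ideal.mem_map_of_equiv L _).mp h
    rw [← L.injective hxL]
    exact hx
  · intro x hx hx0
    let x' : V := ⟨x, hF x hx⟩
    have hx' : x' ≠ 0 := fun h => hx0 (congrArg Subtype.val h)
    have hx'F : x' ∈ F' := Finset.mem_image.mpr ⟨⟨x, hx⟩, Finset.mem_attach _ _, rfl⟩
    obtain ⟨h6, h7⟩ := hu x' hx'
    have h8 : u x' ∈ B := hFB (by
      simp only [Finset.coe_union, Set.mem_union, Finset.mem_coe, Finset.mem_image]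
      exact Or.inr ⟨x', hx'F, rfl⟩)
    refine ⟨n x', e ⟨u x', h8⟩, ?_, ?_⟩
    · rw [hPmem, mem_ideal, pow_one]
      intro h9
      exact ht.not_isUnit (isUnit_of_dvd_unit h9 h6)
    · rw [he, he, htB]
      exact congrArg Subtype.val h7

end Pool.Agent.Helper7.LU
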