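import Pool.Agent.Helper7.LU.Main2
import Pool.Agent.Helper7.LU.Final
import Pool.Graph.R_seed8.TH188.QS.LU

/-!
# Uniformization of discrete valuations and log uniformization: preparations
-/

set_option autoImplicit false
set_option linter.unusedSectionVars false
set_option linter.unusedVariables false

open scoped TensorProduct nonZeroDivisors
open IsLocalRing Pool.Agent.W418.LU2 Pool.Agent.TH188.QS

universe u

namespace Pool.Agent.Helper7.LU

section

variable {K : Type u} [Field K]

/-- Common denominators of finite sets. -/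
theorem exists_common_den {A : Subring K} (hfr : ∀ z : K, Fr A z) {S : Set K} (hS : S.Finite) :
    ∃ g ∈ A, g ≠ 0 ∧ ∀ s ∈ S, s * g ∈ A := by
  induction S, hS using Set.Finite.induction_on with
  | empty => exact ⟨1, A.one_mem, one_ne_zero, fun s hs => hs.elim⟩
  | insert _ _ ih =>
    rename_i a S _ _
    obtain ⟨g, hg, hg0, hgS⟩ := ih
    obtain ⟨c, hc, b, hb, hb0, rfl⟩ := hfr a
    refine ⟨g * b, A.mul_mem hg hb, mul_ne_zero hg0 hb0, ?_⟩
    intro s hs
    rcases Set.mem_insert_iff.1 hs with rfl | hs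
    · have h1 : c * b⁻¹ * (g * b) = c * g := by field_simp
      rw [h1]
      exact A.mul_mem hc hg
    · rw [← mul_assoc]
      exact A.mul_mem (hgS s hs) hb

variable {V : ValuationSubring K} [IsDiscreteValuationRing V]

/-- Elements of `V` are powers of the uniformizing element times units. -/
theorem exists_unit_nat {t : V} (ht : Irreducible t) {g : K} (hg0 : g ≠ 0) (hg : g ∈ V) :
    ∃ (k : ℕ) (u : K), u ≠ 0 ∧ u ∈ V ∧ u⁻¹ ∈ V ∧ g = (t : K) ^ k * u := by
  have h1 : (⟨g, hg⟩ : V) ≠ 0 := fun h => hg0 (congrArg Subtype.val h)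
  obtain ⟨n, u, hu⟩ := IsDiscreteValuationRing.associated_pow_irreducible h1 ht
  have h2 : ((u : V) : K) * (((u⁻¹ : Vˣ) : V) : K) = 1 := congrArg Subtype.val (Units.mul_inv u)
  have h3 : (((u⁻¹ : Vˣ) : V) : K) ≠ 0 := right_ne_zero_of_mul_eq_one h2
  have h4 : g * ((u : V) : K) = (t : K) ^ n := congrArg Subtype.val hu
  refine ⟨n, (((u⁻¹ : Vˣ) : V) : K), h3, ((u⁻¹ : Vˣ) : V).2, ?_, ?_⟩
  · rw [← eq_inv_of_mul_eq_one_left h2]
    exact (u : V).2
  · rw [← h4, mul_assoc, h2, mul_one]

/-- Elements of `K` are powers of the uniformizing element times units. -/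
theorem exists_unit_int {t : V} (ht : Irreducible t) {g : K} (hg0 : g ≠ 0) :
    ∃ (k : ℤ) (u : K), u ≠ 0 ∧ u ∈ V ∧ u⁻¹ ∈ V ∧ g = (t : K) ^ k * u := by
  rcases V.mem_or_inv_mem g with hg | hg
  · obtain ⟨k, u, h1, h2, h3, h4⟩ := exists_unit_nat ht hg0 hg
    exact ⟨k, u, h1, h2, h3, by rw [zpow_natCast]; exact h4⟩
  · obtain ⟨k, u, h1, h2, h3, h4⟩ := exists_unit_nat ht (inv_ne_zero hg0) hg
    refine ⟨-k, u⁻¹, inv_ne_zero h1, h3, by rwa [inv_inv], ?_⟩
    rw [zpow_neg, zpow_natCast, ← mul_inv, ← h4, inv_inv]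

/-- Denominators which are units. -/
theorem unit_den {R : Type u} [CommRing R] [Algebra R V] {C : Subring K} (hC : C ≤ V.toSubring)
    (hR : ∀ r : R, ((algebraMap R V r : V) : K) ∈ lo V.toSubring C) (S : Set V) (z : V)
    (hz : z ∈ Algebra.adjoin R S) :
    ∃ b ∈ C, b ≠ 0 ∧ b⁻¹ ∈ V ∧ b * (z : K) ∈ Subring.closure ((C : Set K) ∪ (Subtype.val '' S)) := by
  have hCl : C ≤ Subring.closure ((C : Set K) ∪ (Subtype.val '' S)) := fun c hc =>
    Subring.subset_closure (Or.inl hc)
  induction hz using Algebra.adjoin_induction with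
  | mem x hx =>
    refine ⟨1, C.one_mem, one_ne_zero, ?_, ?_⟩
    · rw [inv_one]; exact V.one_mem
    · rw [one_mul]
      exact Subring.subset_closure (Or.inr ⟨x, hx, rfl⟩)
  | algebraMap r =>
    obtain ⟨a, ha, b, hb, hb0, hbV, h⟩ := hR r
    refine ⟨b, hb, hb0, hbV, ?_⟩
    rw [h, mul_comm, inv_mul_cancel_right₀ hb0]
    exact hCl ha
  | add x y _ _ hx hy =>
    obtain ⟨b, hb, hb0, hbV, h⟩ := hx
    obtain ⟨c, hc, hc0, hcV, h'⟩ := hy
    refine ⟨b * c, C.mul_mem hb hc, mul_ne_zero hb0 hc0, ?_, ?_⟩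
    · rw [mul_inv]; exact V.mul_mem _ _ hbV hcV
    · have h1 : b * c * ((x + y : V) : K) = c * (b * (x : K)) + b * (c * (y : K)) := by
        push_cast
        ring
      rw [h1]
      exact Subring.add_mem _ (Subring.mul_mem _ (hCl hc) h) (Subring.mul_mem _ (hCl hb) h')
  | mul x y _ _ hx hy =>
    obtain ⟨b, hb, hb0, hbV, h⟩ := hx
    obtain ⟨c, hc, hc0, hcV, h'⟩ := hy
    refine ⟨b * c, C.mul_mem hb hc, mul_ne_zero hb0 hc0, ?_, ?_⟩
    · rw [mul_inv]; exact V.mul_mem _ _ hbV hcV
    · have h1 : b * c * ((x * y : V) : K) = (b * (x : K)) * (c * (y : K)) := by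
        push_cast
        ring
      rw [h1]
      exact Subring.mul_mem _ h h'

/-- The elements of `B` in the field `K`. -/
def img {R : Type u} [CommRing R] [Algebra R V] (B : Subalgebra R V) : Subring K :=
  B.toSubring.map V.subtype

theorem mem_img {R : Type u} [CommRing R] [Algebra R V] (B : Subalgebra R V) (x : K) :
    x ∈ img B ↔ ∃ b ∈ B, (b : K) = x := Iff.rfl

/-- The local ring at the centre as a subring of `K`. -/
theorem reg_centre {R : Type u} [CommRing R] [Algebra R V] (B : Subalgebra R V) {t : V}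
    (ht : Irreducible t) (tB : B) (htB : (tB : V) = t) (hp : (ideal B t 1).IsPrime)
    (hreg : IsRegularLocalRing (Localization.AtPrime (ideal B t 1)))
    (hpar : algebraMap B (Localization.AtPrime (ideal B t 1)) tB ∉
      maximalIdeal (Localization.AtPrime (ideal B t 1)) ^ 2) :
    RegP V.toSubring (lo V.toSubring (img B)) (fun _ : Unit => (t : K)) := by
  have hBV : img B ≤ V.toSubring := by
    rintro _ ⟨b, hb, rfl⟩
    exact b.2
  have ht0 : (t : K) ≠ 0 := fun h => ht.ne_zero (Subtype.ext h)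
  have htP : (t : K) ∈ lo V.toSubring (img B) := le_lo _ _ ⟨t, by rw [← htB]; exact tB.2, rfl⟩
  set P := lo V.toSubring (img B) with hP
  have hBP : ∀ b : B, ((b : V) : K) ∈ P := fun b => le_lo _ _ ⟨b, b.2, rfl⟩
  let ψ : B →+* P := ((V.subtype).comp (B.val : B →+* V)).codRestrict P hBP
  let _ : Algebra B P := ψ.toAlgebra
  have halg : ∀ b : B, ((algebraMap B P b : P) : K) = ((b : V) : K) := fun b => rfl
  have hPloc : IsLocalRing P := isLocalRing_lo (loc_V V) hBV
  have hval : ∀ b : B, b ∉ ideal B t 1 ↔ ((b : V) : K) ≠ 0 ∧ ((b : V) : K)⁻¹ ∈ V.toSubring := by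
    intro b
    have h1 : b ∈ ideal B t 1 ↔ V.valuation ((b : V) : K) < 1 := by
      rw [mem_ideal, pow_one, ← mem_maximalIdeal_iff_val, max_eq ht, Ideal.mem_span_singleton]
    rw [h1, ← nu_iff]
    unfold NU
    rw [not_not]
  have hL : IsLocalization.AtPrime P (ideal B t 1) :=
    { map_units := fun y => by
        rw [isUnit_lo_iff hBV]
        exact (hval y.1).1 y.2
      surj := by
        rintro ⟨z, a, ha, b, hb, hb0, hbW, rfl⟩
        obtain ⟨a', ha', rfl⟩ := ha
        obtain ⟨b', hb', rfl⟩ := hb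
        refine ⟨(⟨a', ha'⟩, ⟨⟨b', hb'⟩, ?_⟩), ?_⟩
        · exact (hval ⟨b', hb'⟩).2 ⟨hb0, hbW⟩
        · apply Subtype.ext
          change ((a' : V) : K) * ((b' : V) : K)⁻¹ * ((b' : V) : K) = ((a' : V) : K)
          rw [mul_assoc, inv_mul_cancel₀ (show ((b' : V) : K) ≠ 0 from hb0), mul_one]
      exists_of_eq := by
        intro a b h
        refine ⟨1, ?_⟩
        have h1 : a = b := Subtype.ext (Subtype.ext (congrArg (Subtype.val : P → K) h))
        rw [h1] }
  let e := IsLocalization.algEquiv (ideal B t 1).primeCompl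
    (Localization.AtPrime (ideal B t 1)) P
  have hregP : IsRegularLocalRing P := IsRegularLocalRing.of_ringEquiv
    (R := Localization.AtPrime (ideal B t 1)) (R' := P) e.toRingEquiv
  let f : Localization.AtPrime (ideal B t 1) →+* P := e.toRingEquiv.toRingHom
  have hfs : Function.Surjective f := e.surjective
  have hfi : Function.Injective f := e.injective
  have hmax : (maximalIdeal P).comap f = maximalIdeal (Localization.AtPrime (ideal B t 1)) := by
    ext x
    rw [Ideal.mem_comap, mem_maximalIdeal, mem_maximalIdeal, mem_nonunits_iff, mem_nonunits_iff]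
    exact not_congr (MulEquiv.isUnit_map e.toRingEquiv)
  have htP2 : (⟨(t : K), htP⟩ : P) ∉ maximalIdeal P ^ 2 := by
    intro h
    apply hpar
    have h1 : f (algebraMap B _ tB) = ⟨(t : K), htP⟩ := by
      have h4 : f (algebraMap B _ tB) = algebraMap B P tB := e.commutes tB
      rw [h4]
      apply Subtype.ext
      rw [halg, htB]
    have h2 : maximalIdeal P ^ 2 =
        ((maximalIdeal (Localization.AtPrime (ideal B t 1))) ^ 2).map f := by
      rw [Ideal.map_pow, ← hmax, Ideal.map_comap_of_surjective f hfs]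
    rw [h2, ← h1] at h
    obtain ⟨x, hx, hxe⟩ := (Ideal.mem_map_iff_of_surjective f hfs).1 h
    have h3 : x = algebraMap B _ tB := hfi hxe
    rw [← h3]
    exact hx
  refine
    { PA := lo_le hBV
      ne := fun _ => ht0
      mem := fun _ => htP
      reg := hregP
      inv := ic_lo hBV
      ind := ?_ }
  intro c hc hs i
  by_contra hi
  apply htP2
  have h1 : IsUnit (c ()) := by
    by_contra h2
    exact hi ((mem_maximalIdeal _).2 h2)
  simp only [Finset.univ_unique, PUnit.default_eq_unit, Finset.sum_singleton] at hs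
  obtain ⟨d, hd⟩ := h1.exists_left_inv
  have h2 : (⟨(t : K), htP⟩ : P) = d * (c () * ⟨(t : K), htP⟩) := by
    rw [← mul_assoc, hd, one_mul]
  rw [h2]
  exact Ideal.mul_mem_left _ _ hs

end

end Pool.Agent.Helper7.LU
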