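import Pool.Agent.Helper7.LU.GPa

/-!
# Uniformization of discrete valuations and log uniformization
-/

set_option autoImplicit false
set_option linter.unusedSectionVars false
set_option linter.unusedVariables false

open scoped TensorProduct nonZeroDivisors
open IsLocalRing Pool.Agent.W418.LU2 Pool.Agent.TH188.QS

universe u

namespace Pool.Agent.Helper7.LU

section

variable {K : Type u} [Field K] {V : ValuationSubring K} [IsDiscreteValuationRing V]

attribute [local instance] algPhi towerPhi towerV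

/-- Log uniformization of a discrete valuation ring whose residue field is finite over the one of the local
ring `R` of an algebra of finite type over `A`. -/
theorem gp_core {R : Type u} [CommRing R] [IsDomain R] [IsLocalRing R] [IsNoetherianRing R]
    [Algebra R V] [IsLocalHom (algebraMap R V)] [Algebra R K] [IsFractionRing R K] [IsScalarTower R V K]
    [Module.Finite R (ResidueField V)] (reg : RegularGenericFormalFibre R K)
    {A : Subring K} (hA : A ≤ V.toSubring) (hfr : ∀ z : K, Fr A z)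
    {X : Set K} (hX : X.Finite) (hXV : ∀ x ∈ X, x ∈ V)
    (hR : ∀ r : R, ((algebraMap R V r : V) : K) ∈ lo V.toSubring (Subring.closure ((A : Set K) ∪ X)))
    (hR' : ∀ c ∈ Subring.closure ((A : Set K) ∪ X), ∃ r : R, ((algebraMap R V r : V) : K) = c) :
    GP V A := by
  classical
  intro G H hGf hHf hG hH
  obtain ⟨t, ht⟩ := IsDiscreteValuationRing.exists_irreducible V
  have ht0 : (t : K) ≠ 0 := fun h => ht.ne_zero (Subtype.ext h)
  obtain ⟨h, G₀, hG₀⟩ := uniformize_den (R := R) (V := V) (K := K) Subtype.val_injective reg ht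
  set C₀ := Subring.closure ((A : Set K) ∪ X) with hC₀
  have hC₀V : C₀ ≤ V.toSubring := cl_le hA hXV
  -- the units
  have h1 : ∀ g : K, ∃ (k : ℤ) (u : K), g ≠ 0 → (u ≠ 0 ∧ u ∈ V ∧ u⁻¹ ∈ V ∧ g = (t : K) ^ k * u) := by
    intro g
    by_cases hg : g = 0
    · exact ⟨0, 0, fun h => absurd hg h⟩
    · obtain ⟨k, u, h1, h2, h3, h4⟩ := exists_unit_int ht hg
      exact ⟨k, u, fun _ => ⟨h1, h2, h3, h4⟩⟩
  choose k u hku using h1
  -- the finite set
  let S : Set K := X ∪ ({(t : K)} ∪ (Subtype.val '' (G₀ : Set V)) ∪ (H ∪ (u '' G ∪ (fun g => (u g)⁻¹) '' G)))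
  have hSf : S.Finite := hX.union (((Set.finite_singleton _).union (G₀.finite_toSet.image _)).union
    (hHf.union ((hGf.image _).union (hGf.image _))))
  have hSV : ∀ s ∈ S, s ∈ V := by
    rintro s (hs | (hs | hs) | hs | hs | hs)
    · exact hXV s hs
    · rw [Set.mem_singleton_iff.1 hs]; exact t.2
    · obtain ⟨v, -, rfl⟩ := hs; exact v.2
    · exact (hH s hs).1
    · obtain ⟨g, hg, rfl⟩ := hs; exact (hku g (hG g hg).1).2.1
    · obtain ⟨g, hg, rfl⟩ := hs; exact (hku g (hG g hg).1).2.2.1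
  have hXS : X ⊆ S := fun x hx => Or.inl hx
  have htS : (t : K) ∈ S := Or.inr (Or.inl (Or.inl rfl))
  have hG₀S : ∀ v ∈ G₀, (v : K) ∈ S := fun v hv => Or.inr (Or.inl (Or.inr ⟨v, hv, rfl⟩))
  have hHS : H ⊆ S := fun x hx => Or.inr (Or.inr (Or.inl hx))
  have huS : ∀ g ∈ G, u g ∈ S := fun g hg => Or.inr (Or.inr (Or.inr (Or.inl ⟨g, hg, rfl⟩)))
  have huS' : ∀ g ∈ G, (u g)⁻¹ ∈ S := fun g hg => Or.inr (Or.inr (Or.inr (Or.inr ⟨g, hg, rfl⟩)))
  obtain ⟨g₀, hg₀A, hg₀0, hg₀⟩ := exists_common_den hfr hSf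
  obtain ⟨k₀, u₀, hu₀0, hu₀V, hu₀V', hu₀⟩ := exists_unit_nat ht hg₀0 (hA hg₀A)
  let S' : Set K := insert u₀ S
  have hS'f : S'.Finite := hSf.insert _
  have hS'V : ∀ s ∈ S', s ∈ V := by
    rintro s (rfl | hs)
    · exact hu₀V
    · exact hSV s hs
  let F₀ : Set V := Subtype.val ⁻¹' S'
  have hF₀f : F₀.Finite := hS'f.preimage (Subtype.val_injective.injOn)
  obtain ⟨B, hBfg, hFB, hBden, tB, htB, hp, hreg, hht, hpar⟩ := hG₀ hF₀f.toFinset
  have hS'B : ∀ s ∈ S', s ∈ img B := by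
    intro s hs
    refine ⟨⟨s, hS'V s hs⟩, hFB ?_, rfl⟩
    rw [Set.Finite.coe_toFinset]
    exact hs
  have hRegP := reg_centre B ht tB htB hp hreg hpar
  have hBV : img B ≤ V.toSubring := by
    rintro _ ⟨b, hb, rfl⟩
    exact b.2
  -- generators of B
  obtain ⟨Y, hY⟩ := hBfg
  have hYB : ∀ y ∈ Y, y ∈ B := fun y hy => by rw [← hY]; exact Algebra.subset_adjoin hy
  have himS : (Subtype.val '' (insert t ((G₀ : Set V) ∪ (hF₀f.toFinset : Set V)))) ⊆ S' := by
    rintro _ ⟨v, hv, rfl⟩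
    rcases hv with rfl | hv | hv
    · exact Or.inr htS
    · exact Or.inr (hG₀S v hv)
    · rw [Set.Finite.coe_toFinset] at hv
      exact hv
  have h2 : ∀ y : V, ∃ (b : K) (m : ℕ), y ∈ B → (b ∈ C₀ ∧ b ≠ 0 ∧ b⁻¹ ∈ V ∧
      b * (t : K) ^ m * (y : K) ∈ Subring.closure ((A : Set K) ∪ S')) := by
    intro y
    by_cases hy : y ∈ B
    · obtain ⟨m, hm⟩ := hBden y hy
      obtain ⟨b, hb, hb0, hbV, hbm⟩ := unit_den hC₀V hR _ _ hm
      refine ⟨b, m, fun _ => ⟨hb, hb0, hbV, ?_⟩⟩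
      have h3 : b * (t : K) ^ m * (y : K) = b * ((t ^ m * y : V) : K) := by
        push_cast
        ring
      rw [h3]
      have h7 : Subring.closure ((C₀ : Set K) ∪
          (Subtype.val '' (insert t ((G₀ : Set V) ∪ (hF₀f.toFinset : Set V))))) ≤
          Subring.closure ((A : Set K) ∪ S') := by
        rw [Subring.closure_le]
        rintro x (hx | hx)
        · refine Subring.closure_mono (Set.union_subset_union_right _ ?_) hx
          exact fun x hx => Or.inr (hXS hx)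
        · exact Subring.subset_closure (Or.inr (himS hx))
      exact h7 hbm
    · exact ⟨0, 0, fun h => absurd h hy⟩
  choose b m hbm using h2
  -- the new generators
  let T : Set K := S' ∪ (fun y : V => b y * (y : K)) '' (Y : Set V)
  have hTf : T.Finite := hS'f.union (Y.finite_toSet.image _)
  have hTV : ∀ s ∈ T, s ∈ V := by
    rintro s (hs | hs)
    · exact hS'V s hs
    · obtain ⟨y, hy, rfl⟩ := hs
      exact V.mul_mem _ _ (hC₀V (hbm y (hYB y hy)).1) y.2
  have hC₀B : C₀ ≤ img B := by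
    intro c hc
    obtain ⟨r, hr⟩ := hR' c hc
    exact ⟨algebraMap R V r, B.algebraMap_mem r, hr⟩
  have hAC₀ : A ≤ C₀ := fun a ha => Subring.subset_closure (Or.inl ha)
  have hP : lo V.toSubring (img B) = lo V.toSubring (Subring.closure ((A : Set K) ∪ T)) := by
    have hclV : Subring.closure ((A : Set K) ∪ T) ≤ V.toSubring := cl_le hA hTV
    have hC₀T : C₀ ≤ Subring.closure ((A : Set K) ∪ T) := by
      refine Subring.closure_mono (Set.union_subset_union_right _ ?_)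
      exact fun x hx => Or.inl (Or.inr (hXS hx))
    apply le_antisymm
    · refine lo_le_lo hclV ?_
      rintro _ ⟨z, hz, rfl⟩
      have hz' : z ∈ Algebra.adjoin R (Y : Set V) := by rw [hY]; exact hz
      induction hz' using Algebra.adjoin_induction with
      | mem y hy =>
        obtain ⟨hb1, hb2, hb3, -⟩ := hbm y (hYB y hy)
        refine ⟨b y * (y : K), Subring.subset_closure (Or.inr (Or.inr ⟨y, hy, rfl⟩)), b y,
          hC₀T hb1, hb2, hb3, ?_⟩
        change (y : K) = _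
        field_simp
      | algebraMap r =>
        obtain ⟨a, ha, c, hc, hc0, hcV, h⟩ := hR r
        exact ⟨a, hC₀T ha, c, hC₀T hc, hc0, hcV, h⟩
      | add x y _ _ hx hy =>
        exact Subring.add_mem _ (hx (by rw [← hY]; assumption)) (hy (by rw [← hY]; assumption))
      | mul x y _ _ hx hy =>
        exact Subring.mul_mem _ (hx (by rw [← hY]; assumption)) (hy (by rw [← hY]; assumption))
    · refine lo_le_lo hBV (le_trans ?_ (le_lo _ _))
      rw [Subring.closure_le]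
      rintro x (hx | hx | hx)
      · exact hC₀B (hAC₀ hx)
      · exact hS'B x hx
      · obtain ⟨y, hy, rfl⟩ := hx
        exact Subring.mul_mem _ (hC₀B (hbm y (hYB y hy)).1) ⟨y, hYB y hy, rfl⟩
  -- denominators
  let D : K := g₀ * (g₀ * t) ^ k₀
  have hg₀t : g₀ * (t : K) ∈ A := by rw [mul_comm]; exact hg₀ _ htS
  have hDA : D ∈ A := A.mul_mem hg₀A (A.pow_mem hg₀t _)
  have hD0 : D ≠ 0 := mul_ne_zero hg₀0 (pow_ne_zero _ (mul_ne_zero hg₀0 ht0))
  have hDS : ∀ s ∈ S', s * D ∈ A := by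
    rintro s (rfl | hs)
    · have h3 : s * D = g₀ ^ (k₀ + 1) * ((t : K) ^ k₀ * s) := by
        change s * (g₀ * (g₀ * t) ^ k₀) = _
        ring
      rw [h3, ← hu₀]
      exact A.mul_mem (A.pow_mem hg₀A _) hg₀A
    · have h3 : s * D = (s * g₀) * (g₀ * t) ^ k₀ := by
        change s * (g₀ * (g₀ * t) ^ k₀) = _
        ring
      rw [h3]
      exact A.mul_mem (hg₀ s hs) (A.pow_mem hg₀t _)
  have h4 : ∀ y : V, ∃ l₀ : ℕ, y ∈ B → ∀ l, l₀ ≤ l → D ^ l * (b y * (t : K) ^ (m y) * (y : K)) ∈ A := by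
    intro y
    by_cases hy : y ∈ B
    · obtain ⟨l₀, hl₀⟩ := Pool.Agent.TH188.QS.exists_den hDA hDS (hbm y hy).2.2.2
      exact ⟨l₀, fun _ => hl₀⟩
    · exact ⟨0, fun h => absurd h hy⟩
  choose l₀ hl₀ using h4
  let L : ℕ := 1 + ∑ y ∈ Y, l₀ y
  let M : ℕ := ∑ y ∈ Y, m y
  have hLy : ∀ y ∈ Y, l₀ y ≤ L := fun y hy => le_trans
    (Finset.single_le_sum (f := l₀) (fun _ _ => Nat.zero_le _) hy) (Nat.le_add_left _ _)
  have hMy : ∀ y ∈ Y, m y ≤ M := fun y hy =>
    Finset.single_le_sum (f := m) (fun _ _ => Nat.zero_le _) hy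
  let g : K := D ^ L * (g₀ * t) ^ M
  have hgA : g ∈ A := A.mul_mem (A.pow_mem hDA _) (A.pow_mem hg₀t _)
  have hg0 : g ≠ 0 := mul_ne_zero (pow_ne_zero _ hD0) (pow_ne_zero _ (mul_ne_zero hg₀0 ht0))
  have hgT : ∀ s ∈ T, s ∈ V ∧ s * g ∈ A := by
    intro s hs
    refine ⟨hTV s hs, ?_⟩
    rcases hs with hs | hs
    · have h5 : s * g = (s * D) * (D ^ (∑ y ∈ Y, l₀ y) * (g₀ * t) ^ M) := by
        change s * (D ^ (1 + ∑ y ∈ Y, l₀ y) * (g₀ * t) ^ M) = _
        rw [pow_add, pow_one]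
        ring
      rw [h5]
      exact A.mul_mem (hDS s hs) (A.mul_mem (A.pow_mem hDA _) (A.pow_mem hg₀t _))
    · obtain ⟨y, hy, rfl⟩ := hs
      have h5 : b y * (y : K) * g = (D ^ L * (b y * (t : K) ^ (m y) * (y : K))) *
          (g₀ ^ (m y) * (g₀ * t) ^ (M - m y)) := by
        have h6 : (g₀ * (t : K)) ^ M = (g₀ * t) ^ (m y) * (g₀ * t) ^ (M - m y) := by
          rw [← pow_add, Nat.add_sub_cancel' (hMy y hy)]
        change b y * (y : K) * (D ^ L * (g₀ * t) ^ M) = _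
        rw [h6, mul_pow g₀ (t : K) (m y)]
        ring
      rw [h5]
      exact A.mul_mem (hl₀ y (hYB y hy) L (hLy y hy)) (A.mul_mem (A.pow_mem hg₀A _) (A.pow_mem hg₀t _))
  set P := lo V.toSubring (img B) with hPdef
  have hBP : img B ≤ P := le_lo _ _
  have hxne : ∀ i : Unit, (fun _ : Unit => (t : K)) i ≠ 0 := fun _ => ht0
  have hunit : ∀ w : K, w ≠ 0 → w ∈ img B → w⁻¹ ∈ V → PMon P (fun _ : Unit => (t : K)) w := by
    intro w hw0 hwB hwV
    exact PMon.unit hw0 (hBP hwB) (ic_lo hBV w (hBP hwB) hw0 hwV)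
  have htmon : PMon P (fun _ : Unit => (t : K)) (t : K) := PMon.self (x := fun _ : Unit => (t : K)) ()
  have hg₀mon : PMon P (fun _ : Unit => (t : K)) g₀ := by
    rw [hu₀]
    exact PMon.mul hxne (Pool.Agent.TH188.QS.PMon.pow hxne htmon _) (hunit u₀ hu₀0 (hS'B _ (Or.inl rfl)) hu₀V')
  refine ⟨Unit, inferInstance, fun _ => (t : K), P, g, hRegP, ⟨hgA, hg0, T, hTf, hgT, hP⟩, ?_, ?_, ?_⟩
  · exact PMon.mul hxne (Pool.Agent.TH188.QS.PMon.pow hxne (PMon.mul hxne hg₀mon (Pool.Agent.TH188.QS.PMon.pow hxne (PMon.mul hxne hg₀mon htmon) _)) _)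
      (Pool.Agent.TH188.QS.PMon.pow hxne (PMon.mul hxne hg₀mon htmon) _)
  · intro g' hg'
    obtain ⟨h5, h6, h7, h8⟩ := hku g' (hG g' hg').1
    rw [h8]
    exact PMon.mul hxne (Pool.Agent.TH188.QS.PMon.zpow hxne htmon _) (hunit _ h5 (hS'B _ (Or.inr (huS g' hg'))) h7)
  · intro w hw
    exact hBP (hS'B w (Or.inr (hHS hw)))

end

end Pool.Agent.Helper7.LU
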