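import Pool.Agent.Helper7.LU.GPb

/-!
# Discrete valuations with finitely generated residue fields, and their composites
-/

set_option autoImplicit false
set_option linter.unusedSectionVars false
set_option linter.unusedVariables false

open scoped TensorProduct nonZeroDivisors
open IsLocalRing Pool.Agent.W418.LU2 Pool.Agent.TH188.QS

universe u

namespace Pool.Agent.Helper7.LU

/-- All local domains essentially of finite type over `R` have regular generic formal fibres. -/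
def GoodFibres (R : Type u) [CommRing R] : Prop :=
  ∀ (B : Type u) [CommRing B] [IsDomain B] [IsLocalRing B] [Algebra R B] [Algebra.EssFiniteType R B]
    (L : Type u) [Field L] [Algebra B L] [IsFractionRing B L], RegularGenericFormalFibre B L

section

variable {K : Type u} [Field K]

/-- The subfield of fractions. -/
def frSub (C : Subring K) : Subfield K where
  carrier := {z | Fr C z}
  mul_mem' := by
    rintro x y ⟨a, ha, b, hb, hb0, rfl⟩ ⟨c, hc, d, hd, hd0, rfl⟩
    exact ⟨a * c, C.mul_mem ha hc, b * d, C.mul_mem hb hd, mul_ne_zero hb0 hd0, by field_simp⟩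
  one_mem' := Fr.of_mem C.one_mem
  add_mem' := by
    rintro x y ⟨a, ha, b, hb, hb0, rfl⟩ ⟨c, hc, d, hd, hd0, rfl⟩
    exact ⟨a * d + c * b, C.add_mem (C.mul_mem ha hd) (C.mul_mem hc hb), b * d, C.mul_mem hb hd,
      mul_ne_zero hb0 hd0, by field_simp⟩
  zero_mem' := Fr.of_mem C.zero_mem
  neg_mem' := by
    rintro x ⟨a, ha, b, hb, hb0, rfl⟩
    exact ⟨-a, C.neg_mem ha, b, hb, hb0, by ring⟩
  inv_mem' := by
    rintro x ⟨a, ha, b, hb, hb0, rfl⟩
    by_cases ha0 : a = 0
    · rw [ha0, zero_mul, inv_zero]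
      exact Fr.of_mem C.zero_mem
    · exact ⟨b, hb, a, ha, ha0, by rw [mul_inv, inv_inv, mul_comm]⟩

theorem fr_mono {C C' : Subring K} (h : C ≤ C') {z : K} (hz : Fr C z) : Fr C' z := by
  obtain ⟨a, ha, b, hb, hb0, rfl⟩ := hz
  exact ⟨a, h ha, b, h hb, hb0, rfl⟩

theorem fr_closure {C C' : Subring K} (h : ∀ c ∈ C, Fr C' c) {z : K} (hz : Fr C z) : Fr C' z := by
  obtain ⟨a, ha, b, hb, hb0, rfl⟩ := hz
  exact (frSub C').mul_mem (h a ha) ((frSub C').inv_mem (h b hb))

variable {V : ValuationSubring K}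

/-- Passage to smaller rings. -/
theorem gp_descend {A : Subring K} (hA : A ≤ V.toSubring) {T₀ : Set K} (hT₀ : T₀.Finite)
    (hT₀V : ∀ t ∈ T₀, t ∈ V) (hfr : ∀ z : K, Fr A z) (h : GP V (Subring.closure ((A : Set K) ∪ T₀))) :
    GP V A := by
  classical
  intro G H hGf hHf hG hH
  obtain ⟨a, haA, ha0, ha⟩ := exists_common_den hfr hT₀
  have hAA₀ : A ≤ Subring.closure ((A : Set K) ∪ T₀) := fun x hx => Subring.subset_closure (Or.inl hx)
  obtain ⟨ι, _, x, P, g, hreg, ⟨hgA, hg0, T₁, hT₁f, hT₁, hP⟩, hgmon, hGm, hHm⟩ := h (insert a G) H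
    (hGf.insert _) hHf (by
      rintro z (rfl | hz)
      · exact ⟨ha0, Fr.of_mem (hAA₀ haA)⟩
      · exact ⟨(hG z hz).1, fr_mono hAA₀ (hG z hz).2⟩) (fun z hz => ⟨(hH z hz).1, fr_mono hAA₀ (hH z hz).2⟩)
  have hden : ∀ z ∈ Subring.closure ((A : Set K) ∪ T₀), ∃ k : ℕ, ∀ l, k ≤ l → a ^ l * z ∈ A :=
    fun z hz => Pool.Agent.TH188.QS.exists_den haA ha hz
  have h1 : ∀ z : K, ∃ k : ℕ, z ∈ Subring.closure ((A : Set K) ∪ T₀) → ∀ l, k ≤ l → a ^ l * z ∈ A := by
    intro z
    by_cases hz : z ∈ Subring.closure ((A : Set K) ∪ T₀)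
    · obtain ⟨k, hk⟩ := hden z hz
      exact ⟨k, fun _ => hk⟩
    · exact ⟨0, fun h => absurd h hz⟩
  choose k hk using h1
  let U : Finset K := insert g ((hT₁f.toFinset ∪ hT₀.toFinset).image (fun t => t * g))
  let L : ℕ := ∑ z ∈ U, k z
  have hL : ∀ z ∈ U, z ∈ Subring.closure ((A : Set K) ∪ T₀) → a ^ L * z ∈ A := by
    intro z hz hzC
    exact hk z hzC L (Finset.single_le_sum (f := k) (fun _ _ => Nat.zero_le _) hz)
  refine ⟨ι, inferInstance, x, P, a ^ L * g, hreg, ⟨?_, mul_ne_zero (pow_ne_zero _ ha0) hg0, T₀ ∪ T₁,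
    hT₀.union hT₁f, ?_, ?_⟩, ?_, fun z hz => hGm z (Or.inr hz), hHm⟩
  · exact hL g (Finset.mem_insert_self _ _) hgA
  · intro t ht
    have htU : t * g ∈ U := by
      refine Finset.mem_insert_of_mem (Finset.mem_image.2 ⟨t, ?_, rfl⟩)
      rw [Finset.mem_union, Set.Finite.mem_toFinset, Set.Finite.mem_toFinset]
      exact ht.symm
    have h3 : t * (a ^ L * g) = a ^ L * (t * g) := by ring
    rcases ht with ht | ht
    · refine ⟨hT₀V t ht, ?_⟩
      rw [h3]
      exact hL _ htU (Subring.mul_mem _ (Subring.subset_closure (Or.inr ht)) hgA)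
    · refine ⟨(hT₁ t ht).1, ?_⟩
      rw [h3]
      exact hL _ htU (hT₁ t ht).2
  · rw [hP, closure_closure_union, Set.union_assoc]
  · exact Pool.Agent.W418.LU2.PMon.mul hreg.ne
      (Pool.Agent.TH188.QS.PMon.pow hreg.ne (hGm a (Set.mem_insert _ _)) _) hgmon

end

section

variable {R : Type u} [CommRing R] [IsNoetherianRing R] {K : Type u} [Field K] {V : ValuationSubring K}
  [IsDiscreteValuationRing V]

/-- Discrete valuation rings with finitely generated residue fields. -/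
theorem gp_disc (hgood : GoodFibres R) (ρ : R →+* K) {T : Set K} (hT : T.Finite)
    (hAV : Subring.closure ((ρ.range : Set K) ∪ T) ≤ V.toSubring)
    (hfr : ∀ z : K, Fr (Subring.closure ((ρ.range : Set K) ∪ T)) z)
    (hres : ∃ X : Set K, X.Finite ∧ (∀ x ∈ X, x ∈ V) ∧ ∀ v ∈ V,
      ∃ a ∈ Subring.closure ((ρ.range : Set K) ∪ X), ∃ b ∈ Subring.closure ((ρ.range : Set K) ∪ X),
        b ≠ 0 ∧ b⁻¹ ∈ V ∧ V.valuation (v - a * b⁻¹) < 1) :
    GP V (Subring.closure ((ρ.range : Set K) ∪ T)) := by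
  classical
  obtain ⟨X, hXf, hXV, hX⟩ := hres
  set A := Subring.closure ((ρ.range : Set K) ∪ T) with hA
  set C₀ := Subring.closure ((A : Set K) ∪ X) with hC₀
  have hAC₀ : A ≤ C₀ := fun x hx => Subring.subset_closure (Or.inl hx)
  have hC₀V : C₀ ≤ V.toSubring := cl_le hAV hXV
  have hC₀' : C₀ = Subring.closure ((ρ.range : Set K) ∪ (T ∪ X)) := by
    rw [hC₀, hA, closure_closure_union, Set.union_assoc]
  have hρn : IsNoetherianRing ρ.range := isNoetherianRing_of_surjective _ _ ρ.rangeRestrict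
    ρ.rangeRestrict_surjective
  have hC₀n : IsNoetherianRing C₀ := by
    rw [hC₀']
    exact noeth_cl (hT.union hXf)
  set B₁ := lo V.toSubring C₀ with hB₁
  have hB₁V : B₁ ≤ V.toSubring := lo_le hC₀V
  have hC₀B₁ : C₀ ≤ B₁ := le_lo _ _
  have hB₁n : IsNoetherianRing B₁ := noeth_lo hC₀V
  have hB₁l : IsLocalRing B₁ := isLocalRing_lo (loc_V V) hC₀V
  let i₁ : B₁ →+* V := Subring.inclusion hB₁V
  let _ : Algebra B₁ V := i₁.toAlgebra
  have hi₁ : ∀ b : B₁, ((algebraMap B₁ V b : V) : K) = (b : K) := fun b => rfl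
  have htower : IsScalarTower B₁ V K := IsScalarTower.of_algebraMap_eq fun b => rfl
  have hlocal : IsLocalHom (algebraMap B₁ V) := by
    constructor
    intro b hb
    rw [isUnit_lo_iff hC₀V]
    obtain ⟨c, hc⟩ := hb.exists_right_inv
    have h1 : (b : K) * (c : K) = 1 := congrArg Subtype.val hc
    refine ⟨left_ne_zero_of_mul_eq_one h1, ?_⟩
    rw [← eq_inv_of_mul_eq_one_right h1]
    exact c.2
  have hfrac : IsFractionRing B₁ K :=
    { map_units := fun y => by
        have h1 : ((y : B₁) : K) ≠ 0 := fun h =>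
          nonZeroDivisors.ne_zero y.2 (Subtype.ext h)
        exact isUnit_iff_ne_zero.2 h1
      surj := fun z => by
        obtain ⟨a, ha, b, hb, hb0, rfl⟩ := hfr z
        refine ⟨(⟨a, hC₀B₁ (hAC₀ ha)⟩, ⟨⟨b, hC₀B₁ (hAC₀ hb)⟩, ?_⟩), ?_⟩
        · rw [mem_nonZeroDivisors_iff_ne_zero]
          exact fun h => hb0 (congrArg Subtype.val h)
        · change a * b⁻¹ * b = a
          rw [inv_mul_cancel_right₀ hb0]
      exists_of_eq := by
        intro a b h
        exact ⟨1, by rw [show a = b from Subtype.ext h]⟩ }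
  have hfin : Module.Finite B₁ (ResidueField V) := by
    refine Module.Finite.of_surjective (Algebra.linearMap B₁ (ResidueField V)) ?_
    intro y
    obtain ⟨v, rfl⟩ := residue_surjective y
    obtain ⟨a, ha, b, hb, hb0, hbV, hab⟩ := hX v v.2
    have hle : Subring.closure ((ρ.range : Set K) ∪ X) ≤ C₀ := by
      rw [hC₀']
      exact Subring.closure_mono (Set.union_subset_union_right _ Set.subset_union_right)
    refine ⟨⟨a * b⁻¹, a, hle ha, b, hle hb, hb0, hbV, rfl⟩, ?_⟩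
    change residue V (i₁ _) = residue V v
    rw [← sub_eq_zero, ← map_sub, residue_eq_zero_iff, mem_maximalIdeal_iff_val]
    have h1 : ((i₁ ⟨a * b⁻¹, a, hle ha, b, hle hb, hb0, hbV, rfl⟩ - v : V) : K) = -((v : K) - a * b⁻¹) := by
      push_cast
      change a * b⁻¹ - (v : K) = _
      ring
    rw [h1, Valuation.map_neg]
    exact hab
  -- the base
  have hρB₁ : ∀ r : R, ρ r ∈ B₁ := fun r => hC₀B₁ (hAC₀ (Subring.subset_closure (Or.inl ⟨r, rfl⟩)))
  let _ : Algebra R B₁ := (ρ.codRestrict B₁ hρB₁).toAlgebra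
  have hess : Algebra.EssFiniteType R B₁ := by
    rw [Algebra.essFiniteType_iff]
    let σ : Set B₁ := Subtype.val ⁻¹' (T ∪ X)
    have hσ : σ.Finite := (hT.union hXf).preimage Subtype.val_injective.injOn
    have hC : ∀ c (hc : c ∈ C₀), (⟨c, hC₀B₁ hc⟩ : B₁) ∈ Algebra.adjoin R σ := by
      intro c hc
      have hc' : c ∈ Subring.closure ((ρ.range : Set K) ∪ (T ∪ X)) := by rw [← hC₀']; exact hc
      have h2 : ∀ c ∈ Subring.closure ((ρ.range : Set K) ∪ (T ∪ X)),
          ∃ z ∈ Algebra.adjoin R σ, ((z : B₁) : K) = c := by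
        intro c hc
        induction hc using Subring.closure_induction with
        | mem c hc =>
          rcases hc with ⟨r, rfl⟩ | hc
          · exact ⟨algebraMap R B₁ r, (Algebra.adjoin R σ).algebraMap_mem r, rfl⟩
          · have h3 : c ∈ B₁ := by
              refine hC₀B₁ ?_
              rw [hC₀']
              exact Subring.subset_closure (Or.inr hc)
            exact ⟨⟨c, h3⟩, Algebra.subset_adjoin hc, rfl⟩
        | zero => exact ⟨0, Subalgebra.zero_mem _, rfl⟩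
        | one => exact ⟨1, Subalgebra.one_mem _, rfl⟩
        | add a b _ _ ha hb =>
          obtain ⟨x, hx, rfl⟩ := ha
          obtain ⟨y, hy, rfl⟩ := hb
          exact ⟨x + y, Subalgebra.add_mem _ hx hy, rfl⟩
        | neg a _ ha =>
          obtain ⟨x, hx, rfl⟩ := ha
          exact ⟨-x, Subalgebra.neg_mem _ hx, rfl⟩
        | mul a b _ _ ha hb =>
          obtain ⟨x, hx, rfl⟩ := ha
          obtain ⟨y, hy, rfl⟩ := hb
          exact ⟨x * y, Subalgebra.mul_mem _ hx hy, rfl⟩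
      obtain ⟨z, hz, hzc⟩ := h2 c hc'
      have h3 : (⟨c, hC₀B₁ hc⟩ : B₁) = z := Subtype.ext hzc.symm
      rw [h3]
      exact hz
    refine ⟨hσ.toFinset, ?_⟩
    rw [Set.Finite.coe_toFinset]
    rintro ⟨z, a, ha, b, hb, hb0, hbV, rfl⟩
    refine ⟨⟨b, hC₀B₁ hb⟩, hC b hb, ?_, ?_⟩
    · rw [isUnit_lo_iff hC₀V]
      exact ⟨hb0, hbV⟩
    · have h3 : (⟨a * b⁻¹, a, ha, b, hb, hb0, hbV, rfl⟩ : B₁) * ⟨b, hC₀B₁ hb⟩ = ⟨a, hC₀B₁ ha⟩ := by
        apply Subtype.ext
        change a * b⁻¹ * b = a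
        rw [inv_mul_cancel_right₀ hb0]
      rw [h3]
      exact hC a ha
  exact gp_core (R := B₁) (V := V) (hgood B₁ K) hAV hfr hXf hXV (fun r => r.2)
    (fun c hc => ⟨⟨c, hC₀B₁ hc⟩, rfl⟩)

end

end Pool.Agent.Helper7.LU
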