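import Pool.Agent.Helper7.LU.GPc

/-!
# Composites of discrete valuations with finitely generated residue fields
-/

set_option autoImplicit false
set_option linter.unusedSectionVars false
set_option linter.unusedVariables false

open scoped TensorProduct nonZeroDivisors
open IsLocalRing Pool.Agent.W418.LU2 Pool.Agent.TH188.QS

universe u

namespace Pool.Agent.Helper7.LU

/-- The composites of `n` discrete valuations with finitely generated residue fields. -/
def FD (R : Type u) [CommRing R] : ℕ → ∀ {K : Type u} [Field K], (R →+* K) → ValuationSubring K → Prop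
  | 0, _, _, _, V => V = ⊤
  | n + 1, K, _, ρ, V => ∃ (V₁ : ValuationSubring K) (W : ValuationSubring (ResidueField V₁))
      (hρ : ∀ a, ρ a ∈ V₁.toSubring), Cmp V V₁ W ∧ IsDiscreteValuationRing V₁ ∧
      (∃ X : Set (ResidueField V₁), X.Finite ∧ ∀ z, Fr (Subring.closure
        ((((residue V₁).comp (ρ.codRestrict V₁.toSubring hρ)).range : Set (ResidueField V₁)) ∪ X)) z) ∧
      FD R n ((residue V₁).comp (ρ.codRestrict V₁.toSubring hρ)) W

section

variable {K : Type u} [Field K] {R : Type u} [CommRing R]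

/-- Lifting of elements of finitely generated algebras over the residue field. -/
theorem lift_closure {V₁ : ValuationSubring K} {ρ : R →+* K} (hρ : ∀ a, ρ a ∈ V₁.toSubring)
    {X : Set K} {Y : Set (ResidueField V₁)} (hX : ∀ y ∈ Y, ∃ x ∈ X, Pr (residue V₁) x y)
    {c : ResidueField V₁} (hc : c ∈ Subring.closure
      ((((residue V₁).comp (ρ.codRestrict V₁.toSubring hρ)).range : Set (ResidueField V₁)) ∪ Y)) :
    ∃ z ∈ Subring.closure ((ρ.range : Set K) ∪ X), Pr (residue V₁) z c := by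
  induction hc using Subring.closure_induction with
  | mem c hc =>
    rcases hc with ⟨r, rfl⟩ | hc
    · exact ⟨ρ r, Subring.subset_closure (Or.inl ⟨r, rfl⟩), res_pr (hρ r)⟩
    · obtain ⟨x, hx, h⟩ := hX c hc
      exact ⟨x, Subring.subset_closure (Or.inr hx), h⟩
  | zero => exact ⟨0, Subring.zero_mem _, Pr.zero⟩
  | one => exact ⟨1, Subring.one_mem _, Pr.one⟩
  | add a b _ _ ha hb =>
    obtain ⟨x, hx, h⟩ := ha
    obtain ⟨y, hy, h'⟩ := hb
    exact ⟨x + y, Subring.add_mem _ hx hy, h.add h'⟩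
  | neg a _ ha =>
    obtain ⟨x, hx, h⟩ := ha
    exact ⟨-x, Subring.neg_mem _ hx, h.neg⟩
  | mul a b _ _ ha hb =>
    obtain ⟨x, hx, h⟩ := ha
    obtain ⟨y, hy, h'⟩ := hb
    exact ⟨x * y, Subring.mul_mem _ hx hy, h.mul h'⟩

/-- The main theorem. -/
theorem gp_fd [IsNoetherianRing R] (hgood : GoodFibres R) (n : ℕ) : ∀ {K : Type u} [Field K]
    (V : ValuationSubring K) (ρ : R →+* K), FD R n ρ V → ∀ (T : Set K), T.Finite →
    Subring.closure ((ρ.range : Set K) ∪ T) ≤ V.toSubring →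
    (∀ z : K, Fr (Subring.closure ((ρ.range : Set K) ∪ T)) z) →
    GP V (Subring.closure ((ρ.range : Set K) ∪ T)) := by
  classical
  induction n with
  | zero =>
    intro K _ V ρ hV T hT hAV _
    have hV' : V = ⊤ := hV
    refine gp_trivial hAV fun y _ _ => ?_
    rw [hV']
    trivial
  | succ n ih =>
    intro K _ V ρ hV T hT hAV hfr
    obtain ⟨V₁, W, hρV₁, hVW, hV₁, ⟨Xb, hXbf, hXb⟩, hW⟩ := hV
    set A := Subring.closure ((ρ.range : Set K) ∪ T) with hA
    have hVV : V ≤ V₁ := fun z hz => ((hVW z).1 hz).1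
    have hAV₁ : A ≤ V₁.toSubring := fun a ha => hVV (hAV ha)
    set ρ' : R →+* ResidueField V₁ := (residue V₁).comp (ρ.codRestrict V₁.toSubring hρV₁) with hρ'def
    have hρ' : ∀ x, Pr (residue V₁) (ρ x) (ρ' x) := fun x => res_pr (hρV₁ x)
    -- lifts of generators of the residue field
    have hlift : ∀ y : ResidueField V₁, ∃ x : K, x ∈ V₁ ∧ Pr (residue V₁) x y := by
      intro y
      obtain ⟨v, rfl⟩ := residue_surjective y
      exact ⟨v, v.2, res_pr v.2⟩
    choose l hlV₁ hl using hlift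
    have hres : ∃ X : Set K, X.Finite ∧ (∀ x ∈ X, x ∈ V₁) ∧ ∀ v ∈ V₁,
        ∃ a ∈ Subring.closure ((ρ.range : Set K) ∪ X), ∃ b ∈ Subring.closure ((ρ.range : Set K) ∪ X),
          b ≠ 0 ∧ b⁻¹ ∈ V₁ ∧ V₁.valuation (v - a * b⁻¹) < 1 := by
      refine ⟨l '' Xb, hXbf.image _, ?_, ?_⟩
      · rintro _ ⟨y, -, rfl⟩
        exact hlV₁ y
      · intro v hv
        obtain ⟨a, ha, b, hb, hb0, hab⟩ := hXb (residue V₁ ⟨v, hv⟩)
        have hX' : ∀ y ∈ Xb, ∃ x ∈ l '' Xb, Pr (residue V₁) x y := fun y hy => ⟨_, ⟨y, hy, rfl⟩, hl y⟩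
        obtain ⟨a', ha', haa⟩ := lift_closure hρV₁ hX' ha
        obtain ⟨b', hb', hbb⟩ := lift_closure hρV₁ hX' hb
        have h1 : Pr (residue V₁) (b'⁻¹) (b⁻¹) := hbb.inv hb0
        have hb'0 : b' ≠ 0 := by
          rintro rfl
          exact hb0 (hbb.unique Pr.zero)
        refine ⟨a', ha', b', hb', hb'0, pr_mem h1, ?_⟩
        have h2 : Pr (residue V₁) (v - a' * b'⁻¹) (residue V₁ ⟨v, hv⟩ - a * b⁻¹) := by
          rw [sub_eq_add_neg, sub_eq_add_neg]
          exact (res_pr hv).add (haa.mul h1).neg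
        rw [← pr_zero_iff h2, hab, sub_self]
    -- generators in the second valuation ring
    have hinv : ∀ y : ResidueField V₁, ∃ y' : ResidueField V₁, y' ∈ W ∧ (y' = y ∨ y'⁻¹ = y) := by
      intro y
      rcases W.mem_or_inv_mem y with h | h
      · exact ⟨y, h, Or.inl rfl⟩
      · exact ⟨y⁻¹, h, Or.inr (inv_inv y)⟩
    choose w hwW hw using hinv
    let T₀ : Set K := (fun y => l (w y)) '' Xb
    have hT₀f : T₀.Finite := hXbf.image _
    have hprV : ∀ {z : K} {y : ResidueField V₁}, Pr (residue V₁) z y → y ∈ W → z ∈ V := by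
      intro z y h hy
      refine (hVW z).2 ⟨pr_mem h, ?_⟩
      rwa [← h.unique (res_pr (pr_mem h))]
    have hT₀V : ∀ t ∈ T₀, t ∈ V := by
      rintro _ ⟨y, -, rfl⟩
      exact hprV (hl _) (hwW y)
    refine gp_descend hAV hT₀f hT₀V hfr ?_
    set A₀ := Subring.closure ((A : Set K) ∪ T₀) with hA₀
    have hAA₀ : A ≤ A₀ := fun x hx => Subring.subset_closure (Or.inl hx)
    have hA₀V : A₀ ≤ V.toSubring := cl_le hAV hT₀V
    have hA₀' : A₀ = Subring.closure ((ρ.range : Set K) ∪ (T ∪ T₀)) := by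
      rw [hA₀, hA, closure_closure_union, Set.union_assoc]
    have hρn : IsNoetherianRing ρ.range := isNoetherianRing_of_surjective _ _ ρ.rangeRestrict
      ρ.rangeRestrict_surjective
    have hA₀n : IsNoetherianRing A₀ := by
      rw [hA₀']
      exact noeth_cl (hT.union hT₀f)
    have h₁ : GP V₁ A₀ := by
      have hle : Subring.closure ((ρ.range : Set K) ∪ (T ∪ T₀)) ≤ V₁.toSubring := by
        rw [← hA₀']
        exact fun a ha => hVV (hA₀V ha)
      have hfr₀ : ∀ z : K, Fr (Subring.closure ((ρ.range : Set K) ∪ (T ∪ T₀))) z := by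
        rw [← hA₀']
        exact fun z => fr_mono hAA₀ (hfr z)
      rw [hA₀']
      exact gp_disc hgood ρ (hT.union hT₀f) hle hfr₀ hres
    refine gp_comp hVW hA₀V h₁ fun T' hT' hT'V => ?_
    have hTV₁ : ∀ t ∈ (T ∪ T₀) ∪ T', t ∈ V₁ := by
      rintro t (ht | ht)
      · refine hVV (hA₀V ?_)
        rw [hA₀']
        exact Subring.subset_closure (Or.inr ht)
      · exact hVV (hT'V t ht)
    let T₂ : Set (ResidueField V₁) := {w | ∃ t ∈ (T ∪ T₀) ∪ T', Pr (residue V₁) t w}
    have hT₂f : T₂.Finite := by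
      have h1 : T₂ ⊆ (fun t : K => if ht : t ∈ V₁ then residue V₁ ⟨t, ht⟩ else 0) ''
          ((T ∪ T₀) ∪ T') := by
        rintro w ⟨t, ht, htw⟩
        refine ⟨t, ht, ?_⟩
        simp only [dif_pos (hTV₁ t ht)]
        exact (res_pr (hTV₁ t ht)).unique htw
      exact (((hT.union hT₀f).union hT').image _).subset h1
    have him : im (residue V₁) (Subring.closure ((A₀ : Set K) ∪ T')) =
        Subring.closure ((ρ'.range : Set (ResidueField V₁)) ∪ T₂) := by
      rw [hA₀', closure_closure_union, Set.union_assoc]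
      refine im_closure ?_ ?_
      · rintro u (⟨x, rfl⟩ | hu)
        · exact ⟨ρ' x, Or.inl ⟨x, rfl⟩, hρ' x⟩
        · exact ⟨_, Or.inr ⟨u, hu, res_pr (hTV₁ u hu)⟩, res_pr (hTV₁ u hu)⟩
      · rintro w (⟨x, rfl⟩ | ⟨t, ht, h⟩)
        · exact ⟨ρ x, Or.inl ⟨x, rfl⟩, hρ' x⟩
        · exact ⟨t, Or.inr ht, h⟩
    rw [him]
    refine ih W ρ' hW T₂ hT₂f ?_ ?_
    · rw [← him]
      rintro w ⟨z, hz, hzw⟩
      have hzV : z ∈ V := cl_le hA₀V hT'V hz
      obtain ⟨h1, h2⟩ := (hVW z).1 hzV
      rw [hzw.unique (res_pr h1)]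
      exact h2
    · intro z
      refine fr_closure (C := Subring.closure ((ρ'.range : Set (ResidueField V₁)) ∪ Xb)) ?_ (hXb z)
      intro c hc
      have h3 : Subring.closure ((ρ'.range : Set (ResidueField V₁)) ∪ Xb) ≤
          (frSub (Subring.closure ((ρ'.range : Set (ResidueField V₁)) ∪ T₂))).toSubring := by
        rw [Subring.closure_le]
        rintro y (hy | hy)
        · exact Fr.of_mem (Subring.subset_closure (Or.inl hy))
        · have h4 : Fr (Subring.closure ((ρ'.range : Set (ResidueField V₁)) ∪ T₂)) (w y) :=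
            Fr.of_mem (Subring.subset_closure (Or.inr ⟨l (w y), Or.inl (Or.inr ⟨y, hy, rfl⟩), hl _⟩))
          rcases hw y with h5 | h5
          · rw [← h5]
            exact h4
          · rw [← h5]
            exact (frSub _).inv_mem h4
      exact h3 hc

end

end Pool.Agent.Helper7.LU
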