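import Pool.Agent.Helper7.LU.GPd

/-!
# From log uniformization to embedded local uniformization
-/

set_option autoImplicit false
set_option linter.unusedSectionVars false
set_option linter.unusedVariables false

open scoped nonZeroDivisors
open IsLocalRing Pool.Agent.W418.LU2 Pool.Agent.TH188.QS

universe u

namespace Pool.Agent.Helper7.LU

section

variable {R K : Type u} [CommRing R] [Field K] [Algebra R K] {V : ValuationSubring K}

/-- The centre of `V` on a subalgebra. -/
def centre (V : ValuationSubring K) (A : Subalgebra R K) (hA : ∀ a ∈ A, a ∈ V) : Ideal A where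
  carrier := {a | V.valuation (a : K) < 1}
  add_mem' := by
    intro a b ha hb
    exact lt_of_le_of_lt (V.valuation.map_add _ _) (max_lt ha hb)
  zero_mem' := by
    change V.valuation ((0 : A) : K) < 1
    rw [ZeroMemClass.coe_zero, map_zero]
    exact zero_lt_one
  smul_mem' := by
    intro a b hb
    change V.valuation ((a : K) * (b : K)) < 1
    rw [map_mul]
    have h1 := (V.valuation_le_one_iff _).2 (hA a a.2)
    calc V.valuation (a : K) * V.valuation (b : K) ≤ 1 * V.valuation (b : K) := mul_le_mul_left h1 _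
      _ = V.valuation (b : K) := one_mul _
      _ < 1 := hb

theorem mem_centre (A : Subalgebra R K) (hA : ∀ a ∈ A, a ∈ V) (a : A) :
    a ∈ centre V A hA ↔ V.valuation (a : K) < 1 := Iff.rfl

theorem centre_isPrime (A : Subalgebra R K) (hA : ∀ a ∈ A, a ∈ V) : (centre V A hA).IsPrime := by
  constructor
  · rw [Ne, Ideal.eq_top_iff_one, mem_centre]
    rw [OneMemClass.coe_one, map_one]
    exact lt_irrefl _
  · intro a b hab
    rw [mem_centre, MulMemClass.coe_mul, map_mul] at hab
    by_contra h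
    push Not at h
    rw [mem_centre, mem_centre, not_lt, not_lt] at h
    have h1 : (1 : V.ValueGroup) ≤ V.valuation (a : K) * V.valuation (b : K) := by
      calc (1 : V.ValueGroup) = 1 * 1 := (one_mul 1).symm
        _ ≤ V.valuation (a : K) * V.valuation (b : K) := mul_le_mul' h.1 h.2
    exact absurd hab (not_lt.2 h1)

/-- The final form of log uniformization. -/
theorem embedded (V : ValuationSubring K)
    (hRV : ∀ r : R, algebraMap R K r ∈ V)
    (hgp : GP V (algebraMap R K).range) (hfr : ∀ z : K, Fr (algebraMap R K).range z) (F G : Finset K)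
    (hF : ∀ x ∈ F, x ∈ V) (hG : ∀ x ∈ G, x ≠ 0) :
    ∃ A : Subalgebra R K, A.FG ∧ (∀ a ∈ A, a ∈ V) ∧ (∀ x ∈ F, x ∈ A) ∧
      ∃ (P : Ideal A) (_ : P.IsPrime), (∀ a : A, a ∈ P ↔ V.valuation (a : K) < 1) ∧
        IsRegularLocalRing (Localization.AtPrime P) ∧
        ∃ (r : ℕ) (x : Fin r → A), (∀ i, (x i : K) ≠ 0) ∧ (∀ i, x i ∈ P) ∧
          (∀ c : Fin r → Localization.AtPrime P,
            ∑ i, c i * algebraMap A (Localization.AtPrime P) (x i) ∈
              maximalIdeal (Localization.AtPrime P) ^ 2 →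
            ∀ i, c i ∈ maximalIdeal (Localization.AtPrime P)) ∧
          ∀ y ∈ G, ∃ (k : Fin r → ℤ) (v w : A), v ∉ P ∧ w ∉ P ∧
            y * (w : K) = v * ∏ i, (x i : K) ^ k i := by
  classical
  obtain ⟨ι, _, x, P₀, g, hreg, ⟨hgA, hg0, T, hTf, hT, hP⟩, -, hGm, hHm⟩ := hgp (G : Set K) (F : Set K)
    G.finite_toSet F.finite_toSet (fun y hy => ⟨hG y hy, hfr y⟩) (fun y hy => ⟨hF y hy, hfr y⟩)
  have hRV' : (algebraMap R K).range ≤ V.toSubring := by
    rintro _ ⟨r, rfl⟩
    exact hRV r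
  set C := Subring.closure (((algebraMap R K).range : Set K) ∪ T) with hC
  have hCV : C ≤ V.toSubring := cl_le hRV' fun t ht => (hT t ht).1
  have hP₀V : P₀ ≤ V.toSubring := hreg.PA
  -- the units
  have h1 : ∀ y : K, ∃ (v : K) (δ : ι → ℤ), y ∈ G → (v ≠ 0 ∧ v ∈ P₀ ∧ v⁻¹ ∈ P₀ ∧ y = v * mo x δ) := by
    intro y
    by_cases hy : y ∈ G
    · obtain ⟨v, h1, h2, h3, δ, h4⟩ := hGm y hy
      exact ⟨v, δ, fun _ => ⟨h1, h2, h3, h4⟩⟩
    · exact ⟨0, 0, fun h => absurd h hy⟩
  choose v δ hv using h1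
  -- the algebra
  let U : Set K := (F : Set K) ∪ (Set.range x ∪ (v '' (G : Set K)))
  have hUf : U.Finite := F.finite_toSet.union ((Set.finite_range x).union (G.finite_toSet.image _))
  have hUP : ∀ z ∈ U, z ∈ P₀ := by
    rintro z (hz | hz | hz)
    · exact hHm z hz
    · obtain ⟨i, rfl⟩ := hz
      exact hreg.mem i
    · obtain ⟨y, hy, rfl⟩ := hz
      exact (hv y hy).2.1
  let A : Subalgebra R K := Algebra.adjoin R (T ∪ U)
  have hTC : T ⊆ C := fun t ht => Subring.subset_closure (Or.inr ht)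
  have hCP : C ≤ P₀ := by rw [hP]; exact le_lo _ _
  have hAP : ∀ a ∈ A, a ∈ P₀ := by
    intro a ha
    have ha' : a ∈ (Algebra.adjoin R (T ∪ U)).toSubring := ha
    rw [adjoin_toSubring] at ha'
    have h2 : Subring.closure (((algebraMap R K).range : Set K) ∪ (T ∪ U)) ≤ P₀ := by
      rw [Subring.closure_le]
      rintro z (hz | hz | hz)
      · exact hCP (Subring.subset_closure (Or.inl hz))
      · exact hCP (hTC hz)
      · exact hUP z hz
    exact h2 ha'
  have hAV : ∀ a ∈ A, a ∈ V := fun a ha => hP₀V (hAP a ha)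
  have hCA : ∀ c ∈ C, c ∈ A := by
    intro c hc
    have h2 : C ≤ A.toSubring := by
      change C ≤ (Algebra.adjoin R (T ∪ U)).toSubring
      rw [adjoin_toSubring]
      exact Subring.closure_mono (Set.union_subset_union_right _ Set.subset_union_left)
    exact h2 hc
  have hUA : ∀ z ∈ U, z ∈ A := fun z hz => Algebra.subset_adjoin (Or.inr hz)
  have hP' := centre_isPrime A hAV
  set P := centre V A hAV with hPdef
  -- `P₀` is the local ring
  let ψ : A →+* P₀ := (A.val : A →+* K).codRestrict P₀ (fun a => hAP a a.2)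
  let _ : Algebra A P₀ := ψ.toAlgebra
  have halg : ∀ a : A, ((algebraMap A P₀ a : P₀) : K) = (a : K) := fun a => rfl
  have hregP := hreg.reg
  have hval : ∀ a : A, a ∉ P ↔ (a : K) ≠ 0 ∧ (a : K)⁻¹ ∈ V.toSubring := by
    intro a
    rw [hPdef, mem_centre, ← nu_iff]
    unfold NU
    rw [not_not]
  have hL : IsLocalization.AtPrime P₀ P :=
    { map_units := fun y => by
        rw [hreg.isUnit]
        exact (hval y.1).1 y.2
      surj := by
        rintro ⟨z, hz⟩
        have hz' := hz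
        rw [hP] at hz'
        obtain ⟨a, ha, b, hb, hb0, hbW, h2⟩ := hz'
        refine ⟨(⟨a, hCA a ha⟩, ⟨⟨b, hCA b hb⟩, ?_⟩), ?_⟩
        · exact (hval ⟨b, hCA b hb⟩).2 ⟨hb0, hbW⟩
        · apply Subtype.ext
          change z * b = a
          rw [h2, inv_mul_cancel_right₀ hb0]
      exists_of_eq := by
        intro a b h
        refine ⟨1, ?_⟩
        have h1 : a = b := Subtype.ext (congrArg (Subtype.val : P₀ → K) h)
        rw [h1] }
  let e := IsLocalization.algEquiv P.primeCompl P₀ (Localization.AtPrime P)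
  let f : P₀ →+* Localization.AtPrime P := e.toRingEquiv.toRingHom
  have hfs : Function.Surjective f := e.surjective
  have hfi : Function.Injective f := e.injective
  have hreg' : IsRegularLocalRing (Localization.AtPrime P) := IsRegularLocalRing.of_ringEquiv
    (R := P₀) (R' := Localization.AtPrime P) e.toRingEquiv
  have hunit : ∀ z : P₀, IsUnit (f z) ↔ IsUnit z := fun z => MulEquiv.isUnit_map e.toRingEquiv
  have hmax : (maximalIdeal (Localization.AtPrime P)).comap f = maximalIdeal P₀ := by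
    ext z
    rw [Ideal.mem_comap, mem_maximalIdeal, mem_maximalIdeal, mem_nonunits_iff, mem_nonunits_iff, hunit]
  have hmax2 : ∀ z : P₀, f z ∈ maximalIdeal (Localization.AtPrime P) ^ 2 → z ∈ maximalIdeal P₀ ^ 2 := by
    intro z hz
    have h2 : maximalIdeal (Localization.AtPrime P) ^ 2 = ((maximalIdeal P₀) ^ 2).map f := by
      rw [Ideal.map_pow, ← hmax, Ideal.map_comap_of_surjective f hfs]
    rw [h2] at hz
    obtain ⟨z', hz', hze⟩ := (Ideal.mem_map_iff_of_surjective f hfs).1 hz
    rw [← hfi hze]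
    exact hz'
  -- the parameters
  let N := {i : ι // (⟨x i, hreg.mem i⟩ : P₀) ∈ maximalIdeal P₀}
  let r := Fintype.card N
  let eN : N ≃ Fin r := Fintype.equivFin N
  have hxA : ∀ i, x i ∈ A := fun i => hUA _ (Or.inr (Or.inl ⟨i, rfl⟩))
  let x' : Fin r → A := fun i => ⟨x (eN.symm i).1, hxA _⟩
  have hind : Ind (fun i : N => (⟨x i.1, hreg.mem i.1⟩ : P₀)) :=
    hreg.ind.ind Subtype.val Subtype.val_injective fun i => i.2
  have hmemP : ∀ a : A, a ∈ P ↔ algebraMap A P₀ a ∈ maximalIdeal P₀ := by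
    intro a
    rw [← not_iff_not, hval, mem_maximalIdeal, mem_nonunits_iff, not_not, hreg.isUnit]
    rfl
  refine ⟨A, ⟨(hTf.union hUf).toFinset, by rw [Set.Finite.coe_toFinset]⟩, hAV,
    fun z hz => hUA z (Or.inl hz), P, hP', fun a => mem_centre A hAV a, hreg', r, x', ?_, ?_, ?_, ?_⟩
  · intro i
    exact hreg.ne _
  · intro i
    rw [hmemP]
    exact (eN.symm i).2
  · intro c hc i
    choose c' hc' using fun i => hfs (c i)
    have h2 : f (∑ j : N, c' (eN j) * ⟨x j.1, hreg.mem j.1⟩) =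
        ∑ i, c i * algebraMap A (Localization.AtPrime P) (x' i) := by
      rw [map_sum, ← Equiv.sum_comp eN]
      refine Finset.sum_congr rfl fun j _ => ?_
      rw [map_mul, hc']
      congr 1
      have h3 : (⟨x j.1, hreg.mem j.1⟩ : P₀) = algebraMap A P₀ (x' (eN j)) := by
        apply Subtype.ext
        rw [halg]
        change x j.1 = x (eN.symm (eN j)).1
        rw [Equiv.symm_apply_apply]
      rw [h3]
      exact e.commutes _
    rw [← h2] at hc
    have h3 := hind.2 (fun j => c' (eN j)) (hmax2 _ hc) (eN.symm i)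
    rw [← hmax, Ideal.mem_comap] at h3
    rw [Equiv.apply_symm_apply, hc'] at h3
    exact h3
  · intro y hy
    obtain ⟨hv0, hvP, hvP', hvy⟩ := hv y hy
    -- the parameters which are units
    have hxu : ∀ i : ι, (⟨x i, hreg.mem i⟩ : P₀) ∉ maximalIdeal P₀ → (x i)⁻¹ ∈ V.toSubring := by
      intro i hi
      rw [mem_maximalIdeal, mem_nonunits_iff, not_not, hreg.isUnit] at hi
      exact hi.2
    let M : Finset ι := Finset.univ.filter fun i => (⟨x i, hreg.mem i⟩ : P₀) ∉ maximalIdeal P₀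
    let num : K := v y * ∏ i ∈ M, x i ^ (δ y i).toNat
    let den : K := ∏ i ∈ M, x i ^ (-δ y i).toNat
    have hnumA : num ∈ A := A.mul_mem (hUA _ (Or.inr (Or.inr ⟨y, hy, rfl⟩)))
      (A.prod_mem fun i _ => A.pow_mem (hxA i) _)
    have hdenA : den ∈ A := A.prod_mem fun i _ => A.pow_mem (hxA i) _
    have hprodinv : ∀ (n : ι → ℕ), (∏ i ∈ M, x i ^ n i)⁻¹ ∈ V.toSubring := by
      intro n
      rw [← Finset.prod_inv_distrib]
      refine Subring.prod_mem _ fun i hi => ?_
      rw [← inv_pow]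
      exact Subring.pow_mem _ (hxu i (Finset.mem_filter.1 hi).2) _
    have hprod0 : ∀ (n : ι → ℕ), ∏ i ∈ M, x i ^ n i ≠ 0 := fun n =>
      Finset.prod_ne_zero_iff.2 fun i _ => pow_ne_zero _ (hreg.ne i)
    refine ⟨fun i => δ y (eN.symm i).1, ⟨num, hnumA⟩, ⟨den, hdenA⟩, ?_, ?_, ?_⟩
    · rw [hval]
      refine ⟨mul_ne_zero hv0 (hprod0 _), ?_⟩
      change (v y * ∏ i ∈ M, x i ^ (δ y i).toNat)⁻¹ ∈ V.toSubring
      rw [mul_inv]
      exact Subring.mul_mem _ (hP₀V hvP') (hprodinv _)
    · rw [hval]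
      exact ⟨hprod0 _, hprodinv _⟩
    · change y * den = num * ∏ i, x (eN.symm i).1 ^ δ y (eN.symm i).1
      have h4 : ∏ i, x (eN.symm i).1 ^ δ y (eN.symm i).1 = ∏ j : N, x j.1 ^ δ y j.1 :=
        Equiv.prod_comp eN.symm (fun j : N => x j.1 ^ δ y j.1)
      have h5 : ∏ j : N, x j.1 ^ δ y j.1 = ∏ i ∈ Finset.univ.filter
          (fun i => (⟨x i, hreg.mem i⟩ : P₀) ∈ maximalIdeal P₀), x i ^ δ y i :=
        (Finset.prod_subtype (Finset.univ.filter
          (fun i => (⟨x i, hreg.mem i⟩ : P₀) ∈ maximalIdeal P₀)) (p := fun i =>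
            (⟨x i, hreg.mem i⟩ : P₀) ∈ maximalIdeal P₀) (by simp) (fun i => x i ^ δ y i)).symm
      have h6 : mo x (δ y) = (∏ i ∈ Finset.univ.filter
          (fun i => (⟨x i, hreg.mem i⟩ : P₀) ∈ maximalIdeal P₀), x i ^ δ y i) *
          ∏ i ∈ M, x i ^ δ y i := by
        unfold mo
        exact (Finset.prod_filter_mul_prod_filter_not _ _ _).symm
      have h7 : (∏ i ∈ M, x i ^ δ y i) * den = ∏ i ∈ M, x i ^ (δ y i).toNat := by
        rw [← Finset.prod_mul_distrib]
        refine Finset.prod_congr rfl fun i _ => ?_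
        rw [← zpow_natCast, ← zpow_natCast, ← zpow_add₀ (hreg.ne i)]
        congr 1
        omega
      rw [h4, h5]
      conv_lhs => rw [hvy, h6]
      change v y * ((∏ i ∈ Finset.univ.filter
          (fun i => (⟨x i, hreg.mem i⟩ : P₀) ∈ maximalIdeal P₀), x i ^ δ y i) *
          ∏ i ∈ M, x i ^ δ y i) * den = v y * (∏ i ∈ M, x i ^ (δ y i).toNat) * _
      rw [← h7]
      ring

end

end Pool.Agent.Helper7.LU
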