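import Mathlib

/-!
# Generators of the maximal ideal of a localization
-/

set_option autoImplicit false

universe u v

namespace Pool.Agent.Helper7.LU

open IsLocalRing

/-- Let `C` be a localization of `B` and `P` a prime ideal of `C` such that the localization of `C` at `P` is
regular. The contraction `Q` of `P` has the height `h` and is generically generated by `h` elements. -/
theorem generic_generators {B C : Type u} [CommRing B] [CommRing C] [Algebra B C] (M : Submonoid B)
    [IsLocalization M C] (P : Ideal C) [P.IsPrime] [IsRegularLocalRing (Localization.AtPrime P)] :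
    ∃ h : ℕ, (P.under B).height = h ∧ P.height = h ∧ ∃ g : Fin h → B, (∀ i, g i ∈ P.under B) ∧
      ∀ q ∈ P.under B, ∃ s ∉ P.under B, s * q ∈ Ideal.span (Set.range g) := by
  have hloc : IsLocalization.AtPrime (Localization.AtPrime P) (P.under B) :=
    IsLocalization.isLocalization_isLocalization_atPrime_isLocalization M _ P
  set Λ := Localization.AtPrime P
  have hfg : (maximalIdeal Λ).FG := (maximalIdeal Λ).fg_of_isNoetherianRing
  refine ⟨(maximalIdeal Λ).spanFinrank, ?_, ?_, ?_⟩
  · have h1 := IsLocalization.AtPrime.ringKrullDim_eq_height (P.under B) Λ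
    rw [← IsRegularLocalRing.spanFinrank_maximalIdeal] at h1
    exact_mod_cast h1.symm
  · have h1 := IsLocalization.AtPrime.ringKrullDim_eq_height P Λ
    rw [← IsRegularLocalRing.spanFinrank_maximalIdeal] at h1
    exact_mod_cast h1.symm
  obtain ⟨s, hs1, hs2⟩ := Submodule.FG.exists_span_finset_card_eq_spanFinrank hfg
  have e : Fin (maximalIdeal Λ).spanFinrank ≃ s := (Fintype.equivFinOfCardEq (by simp [hs1])).symm
  have hz : ∀ i, ∃ q : B, ∃ u : (P.under B).primeCompl, ((e i : s) : Λ) * algebraMap B Λ u = algebraMap B Λ q := by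
    intro i
    obtain ⟨⟨q, u⟩, hqu⟩ := IsLocalization.surj (P.under B).primeCompl ((e i : s) : Λ)
    exact ⟨q, u, hqu⟩
  choose g u hg using hz
  have hunit : ∀ i, IsUnit (algebraMap B Λ (u i)) := fun i => IsLocalization.map_units Λ (u i)
  have hspan : Ideal.span (Set.range fun i => algebraMap B Λ (g i)) = maximalIdeal Λ := by
    refine Eq.trans ?_ hs2
    apply le_antisymm
    · rw [Ideal.span_le]
      rintro _ ⟨i, rfl⟩
      dsimp only
      rw [← hg i]
      exact Ideal.mul_mem_right _ _ (Submodule.subset_span (e i).2)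
    · refine Submodule.span_le.mpr ?_
      intro x hx
      obtain ⟨i, hi⟩ := e.surjective ⟨x, hx⟩
      obtain ⟨w, hw⟩ := (hunit i).exists_right_inv
      have h1 : x = algebraMap B Λ (g i) * w := by
        rw [← hg i, hi, mul_assoc, hw, mul_one]
      rw [h1]
      exact Ideal.mul_mem_right _ _ (Ideal.subset_span ⟨i, rfl⟩)
  have hmem : ∀ q : B, q ∈ P.under B ↔ algebraMap B Λ q ∈ maximalIdeal Λ := by
    intro q
    rw [← IsLocalization.AtPrime.to_map_mem_maximal_iff Λ (P.under B)]
  refine ⟨g, fun i => ?_, fun q hq => ?_⟩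
  · rw [hmem, ← hspan]
    exact Ideal.subset_span ⟨i, rfl⟩
  · have h2 : algebraMap B Λ q ∈ (Ideal.span (Set.range g)).map (algebraMap B Λ) := by
      rw [Ideal.map_span, ← Set.range_comp]
      have := (hmem q).mp hq
      rw [← hspan] at this
      exact this
    obtain ⟨⟨a, w⟩, haw⟩ := (IsLocalization.mem_map_algebraMap_iff (P.under B).primeCompl Λ).mp h2
    rw [← map_mul] at haw
    obtain ⟨c, hc⟩ := (IsLocalization.eq_iff_exists (P.under B).primeCompl Λ).mp haw
    refine ⟨c * w, ?_, ?_⟩
    · exact (c * w).2
    · have h3 : (c : B) * w * q = c * a := by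
        rw [← hc]
        ring
      rw [h3]
      exact Ideal.mul_mem_left _ _ a.2

end Pool.Agent.Helper7.LU
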