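import Pool.Agent.Helper7.LU.Base
import Pool.Agent.Helper7.LU.Compl

/-!
# The completion of a local ring and of a discrete valuation ring that dominates it
-/

set_option autoImplicit false
set_option linter.unusedSectionVars false

open scoped TensorProduct
open IsLocalRing

universe u v

namespace Pool.Agent.Helper7.LU

/-- Finite powers of a complete module are complete. -/
theorem precomplete_pi {R M : Type u} {ι : Type v} [CommRing R] [AddCommGroup M] [Module R M] [Fintype ι]
    [DecidableEq ι] (I : Ideal R) [IsPrecomplete I M] : IsPrecomplete I (ι → M) := by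
  constructor
  intro f hf
  have h1 : ∀ i : ι, ∀ {m n : ℕ}, m ≤ n → f m i ≡ f n i [SMOD (I ^ m • ⊤ : Submodule R M)] := by
    intro i m n hmn
    refine SModEq.mono ?_ ((hf hmn).map (LinearMap.proj i : (ι → M) →ₗ[R] M))
    rw [Submodule.map_smul'']
    exact Submodule.smul_mono le_rfl le_top
  have h2 : ∀ i : ι, ∃ L : M, ∀ n, f n i ≡ L [SMOD (I ^ n • ⊤ : Submodule R M)] := fun i =>
    IsPrecomplete.prec inferInstance (h1 i)
  choose L hL using h2
  refine ⟨L, fun n => ?_⟩
  rw [SModEq.sub_mem]
  have h3 : f n - L = ∑ i, LinearMap.single R (fun _ : ι => M) i (f n i - L i) := by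
    ext j
    simp [Finset.sum_apply, Pi.single_apply]
  rw [h3]
  refine Submodule.sum_mem _ fun i _ => ?_
  have h4 := (hL i n)
  rw [SModEq.sub_mem] at h4
  have h5 := Submodule.mem_map_of_mem (f := LinearMap.single R (fun _ : ι => M) i) h4
  rw [Submodule.map_smul''] at h5
  exact Submodule.smul_mono le_rfl le_top h5

section

variable (R V : Type u) [CommRing R] [IsLocalRing R] [IsNoetherianRing R] [CommRing V] [IsDomain V]
  [IsDiscreteValuationRing V] [Algebra R V] [IsLocalHom (algebraMap R V)]

theorem max_le (n : ℕ) : maximalIdeal R ^ n ≤ (maximalIdeal V ^ n).comap (algebraMap R V) := by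
  rw [← Ideal.map_le_iff_le_comap, Ideal.map_pow]
  refine Ideal.pow_right_mono ?_ n
  rw [Ideal.map_le_iff_le_comap, maximalIdeal_comap]

/-- The homomorphism at the finite levels. -/
noncomputable def level (n : ℕ) : AdicCompletion (maximalIdeal R) R →ₐ[R] V ⧸ maximalIdeal V ^ n :=
  (Ideal.Quotient.liftₐ (maximalIdeal R ^ n) (Algebra.ofId R (V ⧸ maximalIdeal V ^ n)) (by
      intro r hr
      rw [Algebra.ofId_apply]
      exact Ideal.Quotient.eq_zero_iff_mem.mpr (max_le R V n hr))).comp
        (AdicCompletion.evalₐ (maximalIdeal R) n)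

variable {R V}

theorem level_eq (n m : ℕ) (hmn : m ≤ n) (x : AdicCompletion (maximalIdeal R) R) (r : R)
    (h : x - algebraMap R (AdicCompletion (maximalIdeal R) R) r ∈
      (maximalIdeal R ^ n).map (algebraMap R (AdicCompletion (maximalIdeal R) R))) :
    level R V m x = Ideal.Quotient.mk (maximalIdeal V ^ m) (algebraMap R V r) := by
  have h1 : AdicCompletion.evalₐ (maximalIdeal R) m (x - algebraMap R (AdicCompletion (maximalIdeal R) R) r) = 0 := by
    rw [← mem_map_pow_iff _ (maximalIdeal R).fg_of_isNoetherianRing]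
    exact Ideal.map_mono (Ideal.pow_le_pow_right hmn) h
  rw [map_sub, sub_eq_zero, AlgHom.commutes] at h1
  rw [level, AlgHom.comp_apply, h1, AlgHom.commutes]
  rfl

variable (R V)

/-- The homomorphism of the completions. -/
noncomputable def phi : AdicCompletion (maximalIdeal R) R →ₐ[R] Cpl V :=
  AdicCompletion.liftAlgHom (maximalIdeal V) (level R V)
    (by
      intro m n hmn
      apply AlgHom.ext
      intro x
      obtain ⟨r, hr⟩ := approx_completion (maximalIdeal R) n (maximalIdeal R).fg_of_isNoetherianRing x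
      rw [AlgHom.comp_apply, level_eq n n le_rfl x r hr, level_eq n m hmn x r hr]
      rfl)

variable {R V}

/-- The data of a discrete valuation ring that dominates a noetherian local ring. -/
theorem isData {t : V} (ht : Irreducible t) :
    IsData R V (AdicCompletion (maximalIdeal R) R) (Cpl V) t where
  approx n s := approx_completion (maximalIdeal R) n (maximalIdeal R).fg_of_isNoetherianRing s
  proj n := ⟨AdicCompletion.evalₐ (maximalIdeal R) n⟩
  inj := inj_completion ht
  div n v h := dvd_of_dvd ht n v h
  dom r hr := by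
    have h1 := max_le R V 1 (by rwa [pow_one])
    rw [Ideal.mem_comap, pow_one, max_eq ht, Ideal.mem_span_singleton] at h1
    exact h1
  unif w hw := by
    obtain ⟨n, u, hu, rfl⟩ := exists_unit_mul ht w hw
    exact ⟨n, (hu.mul_right_dvd).mpr dvd_rfl⟩

/-- Generators of `V` modulo the powers of `t`. -/
theorem exists_family {t : V} {k : Type v} [Fintype k] (g : k → V)
    (hg : ∀ v : V, ∃ c : k → R, t ∣ v - ∑ i, c i • g i) (e : ℕ) (v : V) :
    ∃ c : Fin e → k → R, t ^ e ∣ v - ∑ j : Fin e, ∑ i, c j i • (t ^ (j : ℕ) * g i) := by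
  induction e with
  | zero => exact ⟨fun j => j.elim0, by simp⟩
  | succ e ih =>
    obtain ⟨c, w, hw⟩ := ih
    obtain ⟨c', w', hw'⟩ := hg w
    refine ⟨Fin.snoc c c', w', ?_⟩
    rw [Fin.sum_univ_castSucc]
    simp only [Fin.snoc_castSucc, Fin.snoc_last, Fin.val_castSucc, Fin.val_last]
    rw [← sub_sub, hw]
    have h1 : ∑ i, c' i • (t ^ e * g i) = t ^ e * ∑ i, c' i • g i := by
      rw [Finset.mul_sum]
      refine Finset.sum_congr rfl fun i _ => ?_
      rw [mul_smul_comm]
    rw [h1, ← mul_sub, hw', pow_succ]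
    ring

variable (R V)

/-- The completion of `V` as an algebra over the completion of `R`. -/
@[reducible]
noncomputable def algPhi : Algebra (AdicCompletion (maximalIdeal R) R) (Cpl V) :=
  (phi R V).toRingHom.toAlgebra

attribute [local instance] algPhi

theorem towerPhi : IsScalarTower R (AdicCompletion (maximalIdeal R) R) (Cpl V) :=
  IsScalarTower.of_algebraMap_eq fun r => ((phi R V).commutes r).symm

theorem towerV : IsScalarTower R V (Cpl V) := IsScalarTower.of_algebraMap_eq fun _ => rfl

attribute [local instance] towerPhi towerV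

variable {R V}

/-- The completion of `V` is separated for the topology of `R`. -/
theorem hausdorff_completion : IsHausdorff (maximalIdeal R) (Cpl V) := by
  constructor
  intro x hx
  apply AdicCompletion.ext_evalₐ
  intro n
  rw [map_zero, ← mem_map_pow_iff _ (maximalIdeal V).fg_of_isNoetherianRing]
  have h1 := hx n
  rw [SModEq.zero] at h1
  have h2 : (maximalIdeal R ^ n • ⊤ : Submodule R (Cpl V)) ≤
      ((maximalIdeal V ^ n).map (algebraMap V (Cpl V))).restrictScalars R := by
    rw [Submodule.smul_le]
    intro r hr y _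
    rw [Submodule.restrictScalars_mem, Algebra.smul_def]
    refine Ideal.mul_mem_right _ _ ?_
    exact Ideal.mem_map_of_mem (algebraMap V (Cpl V)) (max_le R V n hr)
  exact h2 h1

/-- The homomorphism `S ⊗ A → W` is surjective if `A` contains certain elements of `V`. -/
theorem exists_gen {t : V} (ht : Irreducible t) [Module.Finite R (ResidueField V)]
    (hm : ∃ r ∈ maximalIdeal R, algebraMap R V r ≠ 0) :
    ∃ G : Finset V, ∀ A : Subalgebra R V, (G : Set V) ⊆ A →
      Function.Surjective (psi (AdicCompletion (maximalIdeal R) R) (Cpl V) A) := by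
  classical
  -- generators of the residue field
  obtain ⟨k, g, hg⟩ : ∃ (k : ℕ) (g : Fin k → V), ∀ v : V, ∃ c : Fin k → R, t ∣ v - ∑ i, c i • g i := by
    obtain ⟨k, s, hs⟩ := Module.Finite.exists_fin (R := R) (M := ResidueField V)
    choose g hg using fun i => residue_surjective (s i)
    refine ⟨k, g, fun v => ?_⟩
    have h1 : residue V v ∈ Submodule.span R (Set.range s) := by
      rw [hs]
      exact Submodule.mem_top
    obtain ⟨c, hc⟩ := (Submodule.mem_span_range_iff_exists_fun R).mp h1
    refine ⟨c, ?_⟩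
    rw [← Ideal.mem_span_singleton, ← max_eq ht, ← residue_eq_zero_iff, map_sub, map_sum, sub_eq_zero, ← hc]
    refine Finset.sum_congr rfl fun i _ => ?_
    rw [Algebra.smul_def, Algebra.smul_def, map_mul, hg i]
    rfl
  obtain ⟨r0, hr0, hr0'⟩ := hm
  obtain ⟨e, he⟩ := IsDiscreteValuationRing.associated_pow_irreducible hr0' ht
  obtain ⟨u0, hu0⟩ := he
  have := hausdorff_completion (R := R) (V := V)
  let ι := Fin e × Fin k
  have hpre : IsPrecomplete (maximalIdeal R) (AdicCompletion (maximalIdeal R) R) :=
    (AdicCompletion.isAdicComplete (M := R) (maximalIdeal R).fg_of_isNoetherianRing).toIsPrecomplete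
  have hpre' : IsPrecomplete (maximalIdeal R) (ι → AdicCompletion (maximalIdeal R) R) := precomplete_pi _
  let x : ι → V := fun p => t ^ (p.1 : ℕ) * g p.2
  let F : (ι → AdicCompletion (maximalIdeal R) R) →ₗ[R] Cpl V :=
    { toFun := fun s => ∑ p, s p • algebraMap V (Cpl V) (x p)
      map_add' := by
        intro s s'
        rw [← Finset.sum_add_distrib]
        refine Finset.sum_congr rfl fun p _ => ?_
        rw [Pi.add_apply, add_smul]
      map_smul' := by
        intro r s
        rw [RingHom.id_apply, Finset.smul_sum]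
        refine Finset.sum_congr rfl fun p _ => ?_
        rw [Pi.smul_apply, smul_assoc] }
  have hF : Function.Surjective F := by
    refine surjective_of_mkQ_comp_surjective (I := maximalIdeal R) ?_
    intro y
    obtain ⟨w, rfl⟩ := Submodule.mkQ_surjective _ y
    obtain ⟨v, hv⟩ := approx_completion (maximalIdeal V) e (maximalIdeal V).fg_of_isNoetherianRing w
    obtain ⟨c, z, hz⟩ := exists_family g hg e v
    refine ⟨fun p => algebraMap R _ (c p.1 p.2), ?_⟩
    rw [LinearMap.comp_apply, ← sub_eq_zero, ← map_sub, ← LinearMap.mem_ker, Submodule.ker_mkQ]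
    have h5 : ∀ (r : R) (v : V), algebraMap V (Cpl V) (r • v) = r • algebraMap V (Cpl V) v := by
      intro r v
      rw [Algebra.smul_def, map_mul, ← IsScalarTower.algebraMap_apply, ← Algebra.smul_def]
    have h1 : F (fun p => algebraMap R _ (c p.1 p.2)) =
        algebraMap V (Cpl V) (∑ j : Fin e, ∑ i, c j i • (t ^ (j : ℕ) * g i)) := by
      change ∑ p : ι, algebraMap R (AdicCompletion (maximalIdeal R) R) (c p.1 p.2) • algebraMap V (Cpl V) (x p) = _
      rw [Fintype.sum_prod_type, map_sum]
      refine Finset.sum_congr rfl fun j _ => ?_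
      rw [map_sum]
      refine Finset.sum_congr rfl fun i _ => ?_
      rw [algebraMap_smul]
      exact (h5 _ _).symm
    have h2 : ∀ w' : Cpl V, algebraMap V (Cpl V) t ^ e ∣ w' →
        w' ∈ (maximalIdeal R • ⊤ : Submodule R (Cpl V)) := by
      rintro w' ⟨w'', rfl⟩
      have h3 : algebraMap V (Cpl V) t ^ e = r0 • algebraMap V (Cpl V) (u0 : V) := by
        rw [Algebra.smul_def, IsScalarTower.algebraMap_apply R V (Cpl V), ← map_mul, hu0, map_pow]
      rw [h3, smul_mul_assoc]
      exact Submodule.smul_mem_smul hr0 Submodule.mem_top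
    apply h2
    rw [h1, ← dvd_neg, neg_sub]
    have h4 : w - algebraMap V (Cpl V) (∑ j : Fin e, ∑ i, c j i • (t ^ (j : ℕ) * g i)) =
        (w - algebraMap V (Cpl V) v) +
          algebraMap V (Cpl V) (v - ∑ j : Fin e, ∑ i, c j i • (t ^ (j : ℕ) * g i)) := by
      rw [map_sub]
      ring
    rw [h4, hz, map_mul, map_pow]
    refine dvd_add ?_ (dvd_mul_right _ _)
    rw [dvd_iff_eval ht, ← mem_map_pow_iff _ (maximalIdeal V).fg_of_isNoetherianRing]
    exact hv
  refine ⟨Finset.univ.image x, fun A hA w => ?_⟩
  obtain ⟨s, hs⟩ := hF w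
  have hxA : ∀ p, x p ∈ A := fun p => hA (by simp)
  refine ⟨∑ p, s p ⊗ₜ[R] (⟨x p, hxA p⟩ : A), ?_⟩
  rw [map_sum, ← hs]
  change _ = ∑ p, s p • algebraMap V (Cpl V) (x p)
  refine Finset.sum_congr rfl fun p _ => ?_
  rw [psi_tmul, Algebra.smul_def]

end

end Pool.Agent.Helper7.LU
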