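import Pool.Agent.Helper7.LU.Main

/-!
# Uniformization of discrete valuations, with denominators
-/

set_option autoImplicit false
set_option linter.unusedSectionVars false

open scoped TensorProduct nonZeroDivisors
open IsLocalRing

universe u

namespace Pool.Agent.Helper7.LU

section

variable {R V S W K : Type u} [CommRing R] [IsDomain R] [IsLocalRing R] [IsNoetherianRing R] [CommRing V]
  [IsDomain V] [CommRing S] [IsNoetherianRing S]
  [CommRing W] [IsDomain W] [IsPrincipalIdealRing W] [Field K] [Algebra R V] [Algebra R S] [Algebra V W]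
  [Algebra R W] [Algebra S W]
  [IsScalarTower R S W] [IsScalarTower R V W] [Algebra R K] [IsFractionRing R K] [Algebra V K]
  [IsScalarTower R V K] {t : V}

/-- Elements of the blowing-up have powers of `t` as denominators. -/
theorem den_blow (A : Subalgebra R V) (htA : t ∈ A) (e n : ℕ) (b : V) (hb : b ∈ blow A t e n) :
    ∃ m : ℕ, t ^ m * b ∈ A := by
  induction hb using Algebra.adjoin_induction with
  | mem x hx =>
    rcases hx with hx | hx
    · exact ⟨0, by simpa using hx⟩
    · exact ⟨e, hx.1⟩
  | algebraMap r => exact ⟨0, by simp⟩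
  | add x y _ _ hx hy =>
    obtain ⟨m, hm⟩ := hx
    obtain ⟨k, hk⟩ := hy
    refine ⟨m + k, ?_⟩
    have h1 : t ^ (m + k) * (x + y) = t ^ k * (t ^ m * x) + t ^ m * (t ^ k * y) := by ring
    rw [h1]
    exact A.add_mem (A.mul_mem (A.pow_mem htA k) hm) (A.mul_mem (A.pow_mem htA m) hk)
  | mul x y _ _ hx hy =>
    obtain ⟨m, hm⟩ := hx
    obtain ⟨k, hk⟩ := hy
    refine ⟨m + k, ?_⟩
    have h1 : t ^ (m + k) * (x * y) = (t ^ m * x) * (t ^ k * y) := by ring
    rw [h1]
    exact A.mul_mem hm hk

/-- **Uniformization.** -/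
theorem IsData.uniformize_den (hd : IsData R V S W t) (ht : Prime t) (htW : Prime (algebraMap V W t))
    (hRW : Function.Injective (algebraMap R W)) (hVK : Function.Injective (algebraMap V K))
    (reg : ∀ (P : Ideal (K ⊗[R] S)) [P.IsPrime], IsRegularLocalRing (Localization.AtPrime P))
    (hsurj : ∃ G : Finset V, ∀ A : Subalgebra R V, (G : Set V) ⊆ A → Function.Surjective (psi S W A)) :
    ∃ (h : ℕ) (G : Finset V), ∀ F : Finset V, ∃ B : Subalgebra R V, B.FG ∧ (F : Set V) ⊆ B ∧
      (∀ b ∈ B, ∃ m : ℕ, t ^ m * b ∈ Algebra.adjoin R (insert t ((G : Set V) ∪ F))) ∧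
      ∃ tB : B, (tB : V) = t ∧
      ∃ _ : (ideal B t 1).IsPrime, IsRegularLocalRing (Localization.AtPrime (ideal B t 1)) ∧
        (ideal B t 1).height = (h + 1 : ℕ) ∧
        algebraMap B (Localization.AtPrime (ideal B t 1)) tB ∉
          maximalIdeal (Localization.AtPrime (ideal B t 1)) ^ 2 := by
  classical
  obtain ⟨h, hh⟩ := generic_fibre (R := R) (V := V) (S := S) (W := W) (K := K) hRW hVK reg
  obtain ⟨G, hG⟩ := hsurj
  refine ⟨h, G, fun F => ?_⟩
  -- the first subalgebra
  let A : Subalgebra R V := Algebra.adjoin R ((insert t (G ∪ F) : Finset V) : Set V)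
  have hAfg : A.FG := ⟨_, rfl⟩
  have hsub : ∀ v ∈ insert t (G ∪ F), v ∈ A := fun v hv => Algebra.subset_adjoin hv
  have htA : t ∈ A := hsub t (by simp)
  have hft : ∀ B : Subalgebra R V, B.FG → IsNoetherianRing B ∧ IsNoetherianRing (S ⊗[R] B) := by
    intro B hB
    have : Algebra.FiniteType R B := B.fg_iff_finiteType.mp hB
    exact ⟨Algebra.FiniteType.isNoetherianRing R B, Algebra.FiniteType.isNoetherianRing S (S ⊗[R] B)⟩
  obtain ⟨hA1, hA2⟩ := hft A hAfg
  have hGA : (G : Set V) ⊆ A := fun v hv => hsub v (by simp only [Finset.mem_insert, Finset.mem_union]; exact Or.inr (Or.inl hv))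
  have hs := hG A hGA
  obtain ⟨_, g', hg', hgen⟩ := hh A
  obtain ⟨r, c, hr, hc⟩ := hd.edim A hs ⟨t, htA⟩ rfl g' hg' hgen
  obtain ⟨y, hy1, hy2⟩ := hc c (c + 1) le_rfl (Nat.lt_succ_self c)
  choose v hv hyv using fun i => exists_adj A c (c + 1) (Nat.le_succ c) (y i) (hy1 i)
  let B : Subalgebra R V := blow A t c (c + 1)
  have hAB : A ≤ B := le_blow A t c (c + 1)
  let z : Fin r → B := fun i => ⟨v i, adj_subset A t c (c + 1) (hv i)⟩
  let tB : B := ⟨t, hAB htA⟩
  have hBfg : B.FG := blow_fg ht.ne_zero A hAfg c (c + 1) (Nat.le_succ c)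
  obtain ⟨hB1, hB2⟩ := hft B hBfg
  have hBp : (ideal B t 1).IsPrime := ideal_isPrime B ht
  have hgenB := edim_blow ht.ne_zero A ⟨t, htA⟩ rfl c (c + 1) (Nat.lt_succ_self c)
    (fun v => hd.close A hs (c + 1) v) y hy2 (B := B) rfl z (fun i => hyv i) tB rfl
  have hht : ((h + 1 : ℕ) : ℕ∞) ≤ (ideal B t 1).height :=
    hd.height_lt B tB rfl htW (hh B).1
  have hsm : (insert tB (Set.range z)) ⊆ (ideal B t 1 : Set B) := by
    rintro x (rfl | ⟨i, rfl⟩)
    · change tB ∈ ideal B t 1
      rw [mem_ideal, pow_one]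
    · change z i ∈ ideal B t 1
      rw [mem_ideal]
      have := (hv i).2
      rwa [Nat.add_sub_cancel_left] at this
  have hcard : (insert tB (Set.range z)).ncard ≤ h + 1 := by
    refine (Set.ncard_insert_le _ _).trans ?_
    have h1 : (Set.range z).ncard ≤ r := by
      rw [← Set.image_univ]
      refine (Set.ncard_image_le Set.finite_univ).trans ?_
      rw [Set.ncard_univ, Nat.card_eq_fintype_card, Fintype.card_fin]
    omega
  obtain ⟨hreg, hheight, hpar⟩ := regular_of_height (ideal B t 1) (insert tB (Set.range z))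
    ((Set.finite_range z).insert _) hgenB hsm (h + 1) hcard hht
  have hAeq : Algebra.adjoin R (insert t ((G : Set V) ∪ F)) = A := by
    rw [← Finset.coe_union, ← Finset.coe_insert]
  refine ⟨B, hBfg, ?_, fun b hb => by rw [hAeq]; exact den_blow A htA _ _ b hb, tB, rfl, hBp, hreg, hheight,
    hpar tB (Set.mem_insert _ _)⟩
  intro w hw
  refine hAB (hsub w ?_)
  simp only [Finset.mem_insert, Finset.mem_union]
  exact Or.inr (Or.inr hw)

end

section

variable {R V K : Type u} [CommRing R] [IsDomain R] [IsLocalRing R] [IsNoetherianRing R] [CommRing V]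
  [IsDomain V] [IsDiscreteValuationRing V] [Field K] [Algebra R V] [IsLocalHom (algebraMap R V)]
  [Algebra R K] [IsFractionRing R K] [Algebra V K] [IsScalarTower R V K]

attribute [local instance] algPhi towerPhi towerV

/-- **Uniformization** of a discrete valuation ring `V` whose residue field is finite over the one of `R`. -/
theorem uniformize_den [Module.Finite R (ResidueField V)] (hVK : Function.Injective (algebraMap V K))
    (reg : RegularGenericFormalFibre R K) {t : V} (ht : Irreducible t) :
    ∃ (h : ℕ) (G : Finset V), ∀ F : Finset V, ∃ B : Subalgebra R V, B.FG ∧ (F : Set V) ⊆ B ∧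
      (∀ b ∈ B, ∃ m : ℕ, t ^ m * b ∈ Algebra.adjoin R (insert t ((G : Set V) ∪ F))) ∧
      ∃ tB : B, (tB : V) = t ∧
      ∃ _ : (ideal B t 1).IsPrime, IsRegularLocalRing (Localization.AtPrime (ideal B t 1)) ∧
        (ideal B t 1).height = (h + 1 : ℕ) ∧
        algebraMap B (Localization.AtPrime (ideal B t 1)) tB ∉
          maximalIdeal (Localization.AtPrime (ideal B t 1)) ^ 2 := by
  have hRK : Function.Injective (algebraMap R K) := IsFractionRing.injective R K
  have hRV : Function.Injective (algebraMap R V) := by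
    have : (algebraMap R K : R → K) = (algebraMap V K) ∘ (algebraMap R V) := by
      ext r
      exact IsScalarTower.algebraMap_apply R V K r
    rw [this] at hRK
    exact hRK.of_comp
  have hm : ∃ r ∈ maximalIdeal R, algebraMap R V r ≠ 0 := by
    by_contra h
    push Not at h
    have h1 : maximalIdeal R = ⊥ := by
      rw [eq_bot_iff]
      intro r hr
      exact (injective_iff_map_eq_zero _).mp hRV r (h r hr)
    have h2 : IsField R := IsLocalRing.isField_iff_maximalIdeal_eq.mpr h1
    apply IsDiscreteValuationRing.not_isField V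
    refine ⟨⟨0, 1, zero_ne_one⟩, mul_comm, ?_⟩
    intro v hv
    obtain ⟨c, r, hr, hcr⟩ := IsFractionRing.div_surjective (A := R) (algebraMap V K v)
    have hr0 : r ≠ 0 := nonZeroDivisors.ne_zero hr
    have hc0 : c ≠ 0 := by
      rintro rfl
      rw [map_zero, zero_div] at hcr
      exact hv ((injective_iff_map_eq_zero _).mp hVK _ hcr.symm)
    obtain ⟨d, hd⟩ := h2.mul_inv_cancel hc0
    refine ⟨algebraMap R V (r * d), ?_⟩
    apply hVK
    rw [map_mul, map_one, ← IsScalarTower.algebraMap_apply, ← hcr, map_mul, div_mul_eq_mul_div,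
      div_eq_one_iff_eq (by simpa using hr0)]
    have h3 : algebraMap R K c * algebraMap R K d = 1 := by
      rw [← map_mul, hd, map_one]
    linear_combination algebraMap R K r * h3
  have : IsNoetherianRing (AdicCompletion (maximalIdeal R) R) := isNoetherianRing_adicCompletion _
  have hRW : Function.Injective (algebraMap R (Cpl V)) := by
    have : (algebraMap R (Cpl V) : R → Cpl V) = (algebraMap V (Cpl V)) ∘ (algebraMap R V) := by
      funext r
      exact IsScalarTower.algebraMap_apply R V (Cpl V) r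
    rw [this]
    exact (inj_completion ht).comp hRV
  exact (isData (R := R) ht).uniformize_den (K := K) ht.prime (prime_completion ht) hRW hVK reg
    (exists_gen ht hm)

end

end Pool.Agent.Helper7.LU
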