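import Pool.Agent.Helper7.LU.Base
import Pool.Agent.Helper7.LU.Gen

/-!
# The generic formal fibre and the kernel of `S ⊗ A → W`
-/

set_option autoImplicit false
set_option linter.unusedSectionVars false

open scoped TensorProduct nonZeroDivisors
open IsLocalRing

universe u

namespace Pool.Agent.Helper7.LU

variable {R V S W K : Type u} [CommRing R] [IsDomain R] [CommRing V] [CommRing S]
  [CommRing W] [IsDomain W] [Field K] [Algebra R V] [Algebra R S] [Algebra V W] [Algebra R W] [Algebra S W]
  [IsScalarTower R S W] [IsScalarTower R V W] [Algebra R K] [IsFractionRing R K] [Algebra V K]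
  [IsScalarTower R V K]

/-- The homomorphism from `S ⊗ A` to `K ⊗ S`. -/
noncomputable def beta (S K : Type u) [CommRing S] [Field K] [Algebra R S] [Algebra R K] [Algebra V K]
    [IsScalarTower R V K] (A : Subalgebra R V) : S ⊗[R] A →ₐ[R] K ⊗[R] S :=
  Algebra.TensorProduct.productMap Algebra.TensorProduct.includeRight
    ((Algebra.TensorProduct.includeLeft : K →ₐ[R] K ⊗[R] S).comp ((IsScalarTower.toAlgHom R V K).comp A.val))

@[simp]
theorem beta_tmul (A : Subalgebra R V) (s : S) (a : A) :
    beta S K A (s ⊗ₜ a) = algebraMap V K (a : V) ⊗ₜ s := by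
  simp [beta]

/-- Common denominators. -/
theorem exists_den (hVK : Function.Injective (algebraMap V K)) (A : Subalgebra R V) (b : S ⊗[R] A) :
    ∃ r ∈ R⁰, ∃ s : S, algebraMap R (S ⊗[R] A) r * b = s ⊗ₜ 1 := by
  induction b with
  | zero => exact ⟨1, one_mem _, 0, by simp⟩
  | add x y hx hy =>
    obtain ⟨r, hr, s, hs⟩ := hx
    obtain ⟨r', hr', s', hs'⟩ := hy
    refine ⟨r * r', mul_mem hr hr', r' • s + r • s', ?_⟩
    have h1 : algebraMap R (S ⊗[R] A) (r * r') * (x + y) =
        algebraMap R (S ⊗[R] A) r' * (algebraMap R (S ⊗[R] A) r * x) +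
          algebraMap R (S ⊗[R] A) r * (algebraMap R (S ⊗[R] A) r' * y) := by
      rw [map_mul]
      ring
    rw [h1, hs, hs', ← Algebra.smul_def, ← Algebra.smul_def, TensorProduct.smul_tmul',
      TensorProduct.smul_tmul', TensorProduct.add_tmul]
  | tmul s a =>
    obtain ⟨c, r, hr, hcr⟩ := IsFractionRing.div_surjective (A := R) (algebraMap V K (a : V))
    refine ⟨r, hr, c • s, ?_⟩
    have hr0 : algebraMap R K r ≠ 0 := by
      simpa using nonZeroDivisors.ne_zero hr
    have h1 : r • a = c • (1 : A) := by
      apply Subtype.ext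
      apply hVK
      have h2 : algebraMap V K ((r • a : A) : V) = algebraMap R K r * algebraMap V K (a : V) := by
        rw [Subalgebra.coe_smul, Algebra.smul_def, map_mul, ← IsScalarTower.algebraMap_apply]
      have h3 : algebraMap V K ((c • (1 : A) : A) : V) = algebraMap R K c := by
        rw [Subalgebra.coe_smul, Algebra.smul_def, map_mul, ← IsScalarTower.algebraMap_apply]
        simp
      rw [h2, h3, ← hcr]
      field_simp
    rw [← Algebra.smul_def, ← TensorProduct.tmul_smul, h1, ← TensorProduct.smul_tmul]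

attribute [local instance] Algebra.TensorProduct.rightAlgebra in
/-- `K ⊗ S` is a localization of `S ⊗ A`. -/
theorem isLocalization_beta (hVK : Function.Injective (algebraMap V K)) (A : Subalgebra R V) :
    letI := (beta S K A).toRingHom.toAlgebra
    IsLocalization (Algebra.algebraMapSubmonoid (S ⊗[R] A) R⁰) (K ⊗[R] S) := by
  let := (beta S K A).toRingHom.toAlgebra
  have hβ : ∀ b, algebraMap (S ⊗[R] A) (K ⊗[R] S) b = beta S K A b := fun b => rfl
  have hβ1 : ∀ s : S, beta S K A (s ⊗ₜ 1) = algebraMap S (K ⊗[R] S) s := by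
    intro s
    rw [beta_tmul]
    simp
    rfl
  have hloc : IsLocalization (Algebra.algebraMapSubmonoid S R⁰) (K ⊗[R] S) :=
    IsLocalization.tensorRight K R⁰
  refine ⟨⟨?_, ?_, ?_⟩⟩
  · rintro ⟨_, r, hr, rfl⟩
    change IsUnit (beta S K A (algebraMap R (S ⊗[R] A) r))
    rw [AlgHom.commutes]
    have hr0 : IsUnit (algebraMap R K r) := by
      rw [isUnit_iff_ne_zero]
      simpa using nonZeroDivisors.ne_zero hr
    rw [IsScalarTower.algebraMap_apply R K (K ⊗[R] S)]
    exact hr0.map _
  · intro c
    obtain ⟨⟨s, ⟨_, r, hr, rfl⟩⟩, hs⟩ := IsLocalization.surj (Algebra.algebraMapSubmonoid S R⁰) c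
    refine ⟨⟨s ⊗ₜ 1, ⟨algebraMap R (S ⊗[R] A) r, r, hr, rfl⟩⟩, ?_⟩
    change c * beta S K A (algebraMap R (S ⊗[R] A) r) = beta S K A (s ⊗ₜ 1)
    rw [AlgHom.commutes, hβ1, ← hs]
    congr 1
    change _ = algebraMap S (K ⊗[R] S) (algebraMap R S r)
    rw [← IsScalarTower.algebraMap_apply]
  · intro x y hxy
    obtain ⟨r, hr, s, hs⟩ := exists_den hVK A (x - y)
    have h1 : algebraMap S (K ⊗[R] S) s = algebraMap S (K ⊗[R] S) 0 := by
      rw [← hβ1, ← hs, map_mul, map_sub, map_zero]
      have : beta S K A x = beta S K A y := hxy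
      rw [this, sub_self, mul_zero]
    obtain ⟨⟨_, r', hr', rfl⟩, hr1⟩ := (IsLocalization.eq_iff_exists (Algebra.algebraMapSubmonoid S R⁰) _).mp h1
    refine ⟨⟨algebraMap R (S ⊗[R] A) (r' * r), r' * r, mul_mem hr' hr, rfl⟩, ?_⟩
    change algebraMap R (S ⊗[R] A) (r' * r) * x = algebraMap R (S ⊗[R] A) (r' * r) * y
    rw [← sub_eq_zero, ← mul_sub, map_mul, mul_assoc, hs]
    simp only [mul_zero] at hr1
    rw [← Algebra.smul_def, TensorProduct.smul_tmul', Algebra.smul_def, hr1, TensorProduct.zero_tmul]

/-- The homomorphism from `K ⊗ S` to the field of fractions of `W`. -/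
theorem exists_theta (hRW : Function.Injective (algebraMap R W)) (hVK : Function.Injective (algebraMap V K)) :
    ∃ θ : K ⊗[R] S →ₐ[R] FractionRing W, ∀ (A : Subalgebra R V) (b : S ⊗[R] A),
      θ (beta S K A b) = algebraMap W (FractionRing W) (psi S W A b) := by
  have hinj' : ∀ r : R, algebraMap R (FractionRing W) r = algebraMap W (FractionRing W) (algebraMap R W r) :=
    fun r => IsScalarTower.algebraMap_apply R W (FractionRing W) r
  have hinj : Function.Injective (Algebra.ofId R (FractionRing W)) := by
    intro x y hxy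
    rw [Algebra.ofId_apply, Algebra.ofId_apply, hinj', hinj'] at hxy
    exact hRW (IsFractionRing.injective W (FractionRing W) hxy)
  let κ : K →ₐ[R] FractionRing W := IsFractionRing.liftAlgHom hinj
  have hκ : ∀ v : V, κ (algebraMap V K v) = algebraMap W (FractionRing W) (algebraMap V W v) := by
    intro v
    obtain ⟨c, r, hr, hcr⟩ := IsFractionRing.div_surjective (A := R) (algebraMap V K v)
    have hr0 : algebraMap R K r ≠ 0 := by
      simpa using nonZeroDivisors.ne_zero hr
    have h1 : algebraMap R V r * v = algebraMap R V c := by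
      apply hVK
      rw [map_mul, ← IsScalarTower.algebraMap_apply, ← IsScalarTower.algebraMap_apply, ← hcr]
      field_simp
    have h2 : κ (algebraMap R K r) * κ (algebraMap V K v) = κ (algebraMap R K c) := by
      rw [← map_mul]
      congr 1
      rw [← hcr]
      field_simp
    rw [AlgHom.commutes, AlgHom.commutes] at h2
    have h3 : algebraMap R (FractionRing W) r *
        algebraMap W (FractionRing W) (algebraMap V W v) = algebraMap R (FractionRing W) c := by
      rw [IsScalarTower.algebraMap_apply R W (FractionRing W) r,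
        IsScalarTower.algebraMap_apply R W (FractionRing W) c, IsScalarTower.algebraMap_apply R V W r,
        IsScalarTower.algebraMap_apply R V W c, ← map_mul, ← map_mul, h1]
    have h4 : algebraMap R (FractionRing W) r ≠ 0 := by
      intro h0
      have h5 : r = 0 := hinj (by rw [Algebra.ofId_apply, h0, map_zero])
      exact nonZeroDivisors.ne_zero hr h5
    exact mul_left_cancel₀ h4 (h2.trans h3.symm)
  let ξ : S →ₐ[R] FractionRing W := (IsScalarTower.toAlgHom R W (FractionRing W)).comp
    (IsScalarTower.toAlgHom R S W)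
  refine ⟨Algebra.TensorProduct.productMap κ ξ, fun A b => ?_⟩
  induction b with
  | zero => simp
  | add x y hx hy => rw [map_add, map_add, hx, hy, map_add, map_add]
  | tmul s a =>
    rw [beta_tmul, psi_tmul, Algebra.TensorProduct.productMap_apply_tmul, hκ, map_mul, mul_comm]
    rfl

/-- **The generic formal fibre.** If it is regular then the kernels of `S ⊗ A → W` have one and the same height
`h` and are generically generated by `h` elements. -/
theorem generic_fibre (hRW : Function.Injective (algebraMap R W))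
    (hVK : Function.Injective (algebraMap V K))
    (reg : ∀ (P : Ideal (K ⊗[R] S)) [P.IsPrime], IsRegularLocalRing (Localization.AtPrime P)) :
    ∃ h : ℕ, ∀ A : Subalgebra R V, (RingHom.ker (psi S W A)).height = h ∧
      ∃ g : Fin h → S ⊗[R] A, (∀ i, g i ∈ RingHom.ker (psi S W A)) ∧
        ∀ q ∈ RingHom.ker (psi S W A), ∃ s ∉ RingHom.ker (psi S W A), s * q ∈ Ideal.span (Set.range g) := by
  obtain ⟨θ, hθ⟩ := exists_theta (R := R) (V := V) (S := S) (W := W) (K := K) hRW hVK
  have hprime : (RingHom.ker θ).IsPrime := RingHom.ker_isPrime θ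
  have hreg := reg (RingHom.ker θ)
  have key : ∀ A : Subalgebra R V, ∃ h : ℕ, (RingHom.ker (psi S W A)).height = h ∧
      (RingHom.ker θ).height = h ∧
      ∃ g : Fin h → S ⊗[R] A, (∀ i, g i ∈ RingHom.ker (psi S W A)) ∧
        ∀ q ∈ RingHom.ker (psi S W A), ∃ s ∉ RingHom.ker (psi S W A), s * q ∈ Ideal.span (Set.range g) := by
    intro A
    let := (beta S K A).toRingHom.toAlgebra
    have hloc := isLocalization_beta (S := S) hVK A
    have hker : (RingHom.ker θ).under (S ⊗[R] A) = RingHom.ker (psi S W A) := by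
      ext b
      change θ (beta S K A b) = 0 ↔ psi S W A b = 0
      rw [hθ]
      exact map_eq_zero_iff _ (IsFractionRing.injective W (FractionRing W))
    have h1 := generic_generators (B := S ⊗[R] A) (Algebra.algebraMapSubmonoid (S ⊗[R] A) R⁰) (RingHom.ker θ)
    rw [hker] at h1
    exact h1
  obtain ⟨h, _, h2, _⟩ := key ⊥
  refine ⟨h, fun A => ?_⟩
  obtain ⟨h', h3, h4, h5⟩ := key A
  have : h' = h := by
    have := h4.symm.trans h2
    exact_mod_cast this
  subst this
  exact ⟨h3, h5⟩

end Pool.Agent.Helper7.LU
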